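import Pool.Agent.V8H56.BC.Kernels

/-! Estimates for Littlewood-Paley pieces of blocks (for MP_9b3711_an). -/

open MeasureTheory Set Filter SchwartzMap FourierTransform
open scoped ENNReal NNReal Topology SchwartzMap Convolution ContDiff Real

namespace Pool.Agent.V8H56.BC

variable {n : ℕ}

/-- decay factor of the frequency `2^j` part of a block of scale `s` -/
noncomputable def gam (r j : ℕ) (s : ℝ) : ℝ := min 1 ((((2:ℝ) ^ j * s) ^ 2)⁻¹ ^ r)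

lemma gam_nonneg (r j : ℕ) (s : ℝ) : 0 ≤ gam r j s := by unfold gam; positivity

/-- the block -/
noncomputable def blk (ψ : 𝓢(EuclideanSpace ℝ (Fin n), ℂ)) (h : EuclideanSpace ℝ (Fin n)) (D : ℕ)
    (x₀ : EuclideanSpace ℝ (Fin n)) (s : ℝ) (hs : 0 < s) : 𝓢(EuclideanSpace ℝ (Fin n), ℂ) :=
  aff x₀ s hs.ne' ((dif h)^[D] ψ)

lemma cS_smul (q u : 𝓢(EuclideanSpace ℝ (Fin n), ℂ)) (c : ℂ) : cS q (c • u) = c • cS q u := by
  unfold cS; simp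

lemma cS_add (q u v : 𝓢(EuclideanSpace ℝ (Fin n), ℂ)) : cS q (u + v) = cS q u + cS q v := by
  unfold cS; simp

lemma high_factor (j r : ℕ) {s : ℝ} (hs : 0 < s) :
    ‖((((((2:ℝ) ^ j)⁻¹) ^ 2) ^ r : ℝ) : ℂ)‖ * ‖((((s ^ 2)⁻¹) ^ r : ℝ) : ℂ)‖
      = (((2:ℝ) ^ j * s) ^ 2)⁻¹ ^ r := by
  rw [Complex.norm_real, Complex.norm_real, Real.norm_of_nonneg (by positivity),
    Real.norm_of_nonneg (by positivity), ← mul_pow]
  congr 1
  field_simp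

/-- one kernel -/
theorem block_est1 {φ : EuclideanSpace ℝ (Fin n) → ℝ} (hφ : IsCutoff φ) (β : ℝ) (r : ℕ)
    (ψ : 𝓢(EuclideanSpace ℝ (Fin n), ℂ)) (h : EuclideanSpace ℝ (Fin n)) (D : ℕ) :
    ∃ C : ℝ, 0 ≤ C ∧ ∀ (j : ℕ) (s : ℝ) (hs : 0 < s) (x₀ x : EuclideanSpace ℝ (Fin n)), s ≤ 1 →
      (1 + ‖x - x₀‖ / s) ^ (n + D) * ‖cS (kap hφ β 0 j) (blk ψ h D x₀ s hs) x‖
        ≤ C * ((2:ℝ) ^ ((j:ℝ) * β) * gam r j s) := by
  obtain ⟨C₁, hC₁, h1⟩ := ce1 ψ h D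
  obtain ⟨C₂, hC₂, h2⟩ := ce1 (Lam^[r] ψ) h D
  obtain ⟨A₁, hA₁, k1⟩ := ker_kap hφ β 0 (2 * n + D + 1) D
  obtain ⟨A₂, hA₂, k2⟩ := ker_kap hφ β r (2 * n + D + 1) D
  refine ⟨C₁ * A₁ + C₂ * A₂, by positivity, fun j s hs x₀ x hs1 => ?_⟩
  have hP : (0:ℝ) < (2:ℝ) ^ ((j:ℝ) * β) := by positivity
  have mono : ∀ y : ℝ, 0 ≤ y → (1 + ‖x - x₀‖ / s) ^ (n + D) * y ≤
      (1 + ((2:ℝ) ^ j)⁻¹ / s + ‖x - x₀‖ / s) ^ (n + D) * y := by
    intro y hy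
    gcongr
    have : 0 ≤ ((2:ℝ) ^ j)⁻¹ / s := by positivity
    linarith
  have b1 : (1 + ‖x - x₀‖ / s) ^ (n + D) * ‖cS (kap hφ β 0 j) (blk ψ h D x₀ s hs) x‖
      ≤ C₁ * A₁ * (2:ℝ) ^ ((j:ℝ) * β) := by
    refine (mono _ (norm_nonneg _)).trans ?_
    rw [cS_apply]
    have := h1 (kap hφ β 0 j) _ (((2:ℝ) ^ j)⁻¹) s hs x₀ x (by positivity) (k1 j)
    calc _ ≤ _ := this
      _ = _ := by ring
  rcases le_or_gt ((((2:ℝ) ^ j * s) ^ 2)⁻¹ ^ r) 1 with hle | hlt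
  · rw [gam, min_eq_right hle]
    rcases eq_or_ne j 0 with rfl | hj
    · have h3 : (1:ℝ) ≤ (((2:ℝ) ^ 0 * s) ^ 2)⁻¹ ^ r := by
        apply one_le_pow₀
        rw [pow_zero, one_mul]
        exact (one_le_inv₀ (by positivity)).2 (pow_le_one₀ hs.le hs1)
      refine b1.trans ?_
      calc C₁ * A₁ * (2:ℝ) ^ (((0:ℕ):ℝ) * β) ≤ (C₁ * A₁ + C₂ * A₂) * ((2:ℝ) ^ (((0:ℕ):ℝ) * β) * 1) := by
            rw [mul_one]; gcongr
            have : 0 ≤ C₂ * A₂ := by positivity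
            linarith
        _ ≤ _ := by gcongr
    · have h4 : ‖cS (kap hφ β 0 j) (blk ψ h D x₀ s hs) x‖ =
          (((2:ℝ) ^ j * s) ^ 2)⁻¹ ^ r * ‖cS (kap hφ β r j) (blk (Lam^[r] ψ) h D x₀ s hs) x‖ := by
        rw [cS_kap_high hφ β r hj]
        unfold blk
        rw [Lam_block h x₀ D s hs, cS_smul]
        simp only [smul_apply, norm_smul]
        rw [← mul_assoc, high_factor j r hs]
      have h5 := h2 (kap hφ β r j) _ (((2:ℝ) ^ j)⁻¹) s hs x₀ x (by positivity) (k2 j)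
      rw [← cS_apply] at h5
      rw [h4]
      calc _ = (((2:ℝ) ^ j * s) ^ 2)⁻¹ ^ r * ((1 + ‖x - x₀‖ / s) ^ (n + D) *
              ‖cS (kap hφ β r j) (blk (Lam^[r] ψ) h D x₀ s hs) x‖) := by ring
        _ ≤ (((2:ℝ) ^ j * s) ^ 2)⁻¹ ^ r * (C₂ * (A₂ * (2:ℝ) ^ ((j:ℝ) * β))) := by
            refine mul_le_mul_of_nonneg_left ?_ (by positivity)
            exact (mono _ (norm_nonneg _)).trans h5
        _ = C₂ * A₂ * ((2:ℝ) ^ ((j:ℝ) * β) * (((2:ℝ) ^ j * s) ^ 2)⁻¹ ^ r) := by ring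
        _ ≤ _ := by
            gcongr
            have : 0 ≤ C₁ * A₁ := by positivity
            linarith
  · rw [gam, min_eq_left hlt.le, mul_one]
    refine b1.trans ?_
    gcongr
    have : 0 ≤ C₂ * A₂ := by positivity
    linarith

/-- two kernels -/
theorem block_est2 {φ : EuclideanSpace ℝ (Fin n) → ℝ} (hφ : IsCutoff φ) (β : ℝ) (r : ℕ)
    (ψ : 𝓢(EuclideanSpace ℝ (Fin n), ℂ)) (h : EuclideanSpace ℝ (Fin n)) (D : ℕ) :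
    ∃ C : ℝ, 0 ≤ C ∧ ∀ (j : ℕ) (s : ℝ) (hs : 0 < s) (x₀ x : EuclideanSpace ℝ (Fin n))
      (q : 𝓢(EuclideanSpace ℝ (Fin n), ℂ)) (A a : ℝ), s ≤ 1 → 0 < a →
      Ker n (2 * n + D + 1) D A a q →
      (1 + a / s + ‖x - x₀‖ / s) ^ (n + D) *
        ‖cS q (cS (kap hφ β 0 j) (blk ψ h D x₀ s hs)) x‖
        ≤ C * (A * ((2:ℝ) ^ ((j:ℝ) * β) * gam r j s)) := by
  obtain ⟨C₁, hC₁, h1⟩ := ce3 ψ h D
  obtain ⟨C₂, hC₂, h2⟩ := ce3 (Lam^[r] ψ) h D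
  obtain ⟨A₁, hA₁, k1⟩ := ker_kap hφ β 0 (2 * n + D + 1) D
  obtain ⟨A₂, hA₂, k2⟩ := ker_kap hφ β r (2 * n + D + 1) D
  refine ⟨C₁ * A₁ + C₂ * A₂, by positivity, fun j s hs x₀ x q A a hs1 ha hq => ?_⟩
  have hA := ker_nonneg ha hq
  have hP : (0:ℝ) < (2:ℝ) ^ ((j:ℝ) * β) := by positivity
  have mono : ∀ y : ℝ, 0 ≤ y → (1 + a / s + ‖x - x₀‖ / s) ^ (n + D) * y ≤
      (1 + max a ((2:ℝ) ^ j)⁻¹ / s + ‖x - x₀‖ / s) ^ (n + D) * y := by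
    intro y hy
    gcongr
    exact le_max_left _ _
  have b1 : (1 + a / s + ‖x - x₀‖ / s) ^ (n + D) *
      ‖cS q (cS (kap hφ β 0 j) (blk ψ h D x₀ s hs)) x‖ ≤ C₁ * A₁ * (A * (2:ℝ) ^ ((j:ℝ) * β)) := by
    refine (mono _ (norm_nonneg _)).trans ?_
    have := h1 q (kap hφ β 0 j) A _ a (((2:ℝ) ^ j)⁻¹) s hs x₀ x ha (by positivity) hq (k1 j)
    calc _ ≤ _ := this
      _ = _ := by ring
  rcases le_or_gt ((((2:ℝ) ^ j * s) ^ 2)⁻¹ ^ r) 1 with hle | hlt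
  · rw [gam, min_eq_right hle]
    rcases eq_or_ne j 0 with rfl | hj
    · have h3 : (1:ℝ) ≤ (((2:ℝ) ^ 0 * s) ^ 2)⁻¹ ^ r := by
        apply one_le_pow₀
        rw [pow_zero, one_mul]
        exact (one_le_inv₀ (by positivity)).2 (pow_le_one₀ hs.le hs1)
      refine b1.trans ?_
      calc C₁ * A₁ * (A * (2:ℝ) ^ (((0:ℕ):ℝ) * β))
          ≤ (C₁ * A₁ + C₂ * A₂) * (A * ((2:ℝ) ^ (((0:ℕ):ℝ) * β) * 1)) := by
            rw [mul_one]; gcongr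
            have : 0 ≤ C₂ * A₂ := by positivity
            linarith
        _ ≤ _ := by gcongr
    · have h4 : ‖cS q (cS (kap hφ β 0 j) (blk ψ h D x₀ s hs)) x‖ =
          (((2:ℝ) ^ j * s) ^ 2)⁻¹ ^ r *
            ‖cS q (cS (kap hφ β r j) (blk (Lam^[r] ψ) h D x₀ s hs)) x‖ := by
        rw [cS_kap_high hφ β r hj]
        unfold blk
        rw [Lam_block h x₀ D s hs, cS_smul, cS_smul, cS_smul]
        simp only [smul_apply, norm_smul]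
        rw [← mul_assoc, high_factor j r hs]
      have h5 := h2 q (kap hφ β r j) A _ a (((2:ℝ) ^ j)⁻¹) s hs x₀ x ha (by positivity) hq (k2 j)
      rw [h4]
      calc _ = (((2:ℝ) ^ j * s) ^ 2)⁻¹ ^ r * ((1 + a / s + ‖x - x₀‖ / s) ^ (n + D) *
              ‖cS q (cS (kap hφ β r j) (blk (Lam^[r] ψ) h D x₀ s hs)) x‖) := by ring
        _ ≤ (((2:ℝ) ^ j * s) ^ 2)⁻¹ ^ r * (C₂ * (A * (A₂ * (2:ℝ) ^ ((j:ℝ) * β)))) := by
            refine mul_le_mul_of_nonneg_left ?_ (by positivity)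
            exact (mono _ (norm_nonneg _)).trans h5
        _ = C₂ * A₂ * (A * ((2:ℝ) ^ ((j:ℝ) * β) * (((2:ℝ) ^ j * s) ^ 2)⁻¹ ^ r)) := by ring
        _ ≤ _ := by
            gcongr
            have : 0 ≤ C₁ * A₁ := by positivity
            linarith
  · rw [gam, min_eq_left hlt.le, mul_one]
    refine b1.trans ?_
    gcongr
    have : 0 ≤ C₂ * A₂ := by positivity
    linarith

end Pool.Agent.V8H56.BC
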