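import Pool.Agent.V8H56.BC.Dyadic

/-! Good dyadic covers of compact sets of Hausdorff measure zero (for MP_9b3711_an). -/

open MeasureTheory Set Filter
open scoped ENNReal Topology

namespace Pool.Agent.V8H56.BC

variable {n : ℕ}

/-- Cost of a dyadic cube. -/
noncomputable def cost (d : ℝ) (q : ℕ × (Fin n → ℤ)) : ℝ := (2:ℝ) ^ (-((q.1:ℝ) * d))

lemma cost_pos (d : ℝ) (q : ℕ × (Fin n → ℤ)) : 0 < cost d q := by unfold cost; positivity

/-- the relation: some point of the cube `q'` lies in the `m`-th ancestor of `q` -/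
def rel (m : ℕ) (q' q : ℕ × (Fin n → ℤ)) : Prop :=
  ∃ x ∈ cube q'.1 q'.2, dy (q.1 - m) x = dy (q.1 - m) (corner q.1 q.2)

lemma sum_biUnion_le {ι α : Type*} [DecidableEq α] (F : Finset ι) (N : ι → Finset α)
    (f : α → ℝ) (hf : ∀ a, 0 ≤ f a) : ∑ q ∈ F.biUnion N, f q ≤ ∑ i ∈ F, ∑ q ∈ N i, f q := by
  classical
  induction F using Finset.induction_on with
  | empty => simp
  | insert a F ha ih =>
    rw [Finset.biUnion_insert, Finset.sum_insert ha]
    have h1 : ∑ q ∈ N a ∪ F.biUnion N, f q ≤ ∑ q ∈ N a, f q + ∑ q ∈ F.biUnion N, f q := by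
      rw [← Finset.sum_union_inter]
      have : 0 ≤ ∑ q ∈ N a ∩ F.biUnion N, f q := Finset.sum_nonneg fun q _ => hf q
      linarith
    linarith

/-- Finite dyadic covers with small cost. -/
theorem finite_cover {K : Set (EuclideanSpace ℝ (Fin n))} (hK : IsCompact K) {d : ℝ} (hd : 0 < d)
    (h0 : μH[d] K = 0) {ε : ℝ} (hε : 0 < ε) :
    ∃ C : Finset (ℕ × (Fin n → ℤ)), (∀ x ∈ K, ∃ q ∈ C, x ∈ cube q.1 q.2) ∧
      ∑ q ∈ C, cost d q < ε := by
  classical
  set c : ℝ := 3 ^ n * 4 ^ d with hc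
  have hcpos : 0 < c := by positivity
  set ε' : ℝ := ε / (4 * c) with hε'
  have hε'pos : 0 < ε' := by positivity
  -- a countable cover
  obtain ⟨t, htK, htd, hts⟩ : ∃ t : ℕ → Set (EuclideanSpace ℝ (Fin n)), K ⊆ ⋃ i, t i ∧
      (∀ i, Metric.ediam (t i) ≤ ENNReal.ofReal (1/4)) ∧
      ∑' i, ⨆ (_ : (t i).Nonempty), Metric.ediam (t i) ^ d < ENNReal.ofReal ε' := by
    rw [Measure.hausdorffMeasure_apply] at h0
    have h1 := (ENNReal.iSup_eq_zero.1 h0) (ENNReal.ofReal (1/4))
    have h2 := (ENNReal.iSup_eq_zero.1 h1) (by norm_num)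
    have h3 : (⨅ (t : ℕ → Set (EuclideanSpace ℝ (Fin n))), ⨅ (_ : K ⊆ ⋃ i, t i),
        ⨅ (_ : ∀ i, Metric.ediam (t i) ≤ ENNReal.ofReal (1/4)),
        ∑' i, ⨆ (_ : (t i).Nonempty), Metric.ediam (t i) ^ d) < ENNReal.ofReal ε' := by
      rw [h2]; simpa using hε'pos
    simp only [iInf_lt_iff] at h3
    obtain ⟨t, h4, h5, h6⟩ := h3
    exact ⟨t, h4, h5, h6⟩
  let δ : ℕ → ℝ := fun i => (Metric.ediam (t i)).toReal
  have hδtop : ∀ i, Metric.ediam (t i) ≠ ⊤ := fun i => ne_top_of_le_ne_top ENNReal.ofReal_ne_top (htd i)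
  have hδ0 : ∀ i, 0 ≤ δ i := fun i => ENNReal.toReal_nonneg
  have hδ4 : ∀ i, δ i ≤ 1/4 := fun i => ENNReal.toReal_le_of_le_ofReal (by norm_num) (htd i)
  -- auxiliary radii
  have hη : ∀ i : ℕ, ∃ η : ℝ, 0 < η ∧ η ≤ 1/4 ∧ η ^ d ≤ ε' * (1/2)^(i+1) := by
    intro i
    set a : ℝ := ε' * (1/2)^(i+1) with ha
    have hapos : 0 < a := by positivity
    refine ⟨min (1/4) (a ^ (1/d)), by positivity, min_le_left _ _, ?_⟩
    calc (min (1/4) (a ^ (1/d))) ^ d ≤ (a ^ (1/d)) ^ d :=
          Real.rpow_le_rpow (by positivity) (min_le_right _ _) hd.le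
      _ = a := by rw [← Real.rpow_mul hapos.le]; field_simp; simp
  choose η hη0 hη4 hηd using hη
  let r : ℕ → ℝ := fun i => δ i + η i
  have hr0 : ∀ i, 0 < r i := fun i => by have := hδ0 i; have := hη0 i; simp only [r]; linarith
  have hr1 : ∀ i, r i ≤ 1 := fun i => by have := hδ4 i; have := hη4 i; simp only [r]; linarith
  let U : ℕ → Set (EuclideanSpace ℝ (Fin n)) := fun i =>
    if h : (t i).Nonempty then Metric.ball h.some (r i) else ∅
  have hUo : ∀ i, IsOpen (U i) := by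
    intro i
    by_cases h : (t i).Nonempty
    · simp only [U, dif_pos h]; exact Metric.isOpen_ball
    · simp only [U, dif_neg h]; exact isOpen_empty
  have hUt : ∀ i, t i ⊆ U i := by
    intro i x hx
    have h : (t i).Nonempty := ⟨x, hx⟩
    simp only [U, dif_pos h, Metric.mem_ball]
    have h1 : dist x h.some ≤ δ i := by
      have := Metric.edist_le_ediam_of_mem hx h.some_mem
      rw [edist_dist] at this
      exact (ENNReal.ofReal_le_iff_le_toReal (hδtop i)).1 this
    have := hη0 i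
    simp only [r]; linarith
  obtain ⟨F, hF⟩ := hK.elim_finite_subcover U hUo (htK.trans (iUnion_mono hUt))
  have hJ : ∀ i, ∃ j : ℕ, (1/2:ℝ) ^ (j+1) < r i ∧ r i ≤ (1/2:ℝ) ^ j := fun i =>
    exists_nat_pow_near_of_lt_one (hr0 i) (hr1 i) (by norm_num) (by norm_num)
  choose J hJ1 hJ2 using hJ
  let N : ℕ → Finset (ℕ × (Fin n → ℤ)) := fun i =>
    if h : (t i).Nonempty then
      (Fintype.piFinset fun c => Finset.Icc (dy (J i) h.some c - 1) (dy (J i) h.some c + 1)).image
        (fun k => (J i, k))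
    else ∅
  have hNcov : ∀ i, ∀ x ∈ U i, ∃ q ∈ N i, x ∈ cube q.1 q.2 := by
    intro i x hx
    by_cases h : (t i).Nonempty
    · simp only [U, dif_pos h, Metric.mem_ball] at hx
      refine ⟨(J i, dy (J i) x), ?_, rfl⟩
      simp only [N, dif_pos h, Finset.mem_image, Prod.mk.injEq, true_and, exists_eq_right,
        Fintype.mem_piFinset, Finset.mem_Icc]
      intro c
      have h1 : |x c - h.some c| ≤ dist x h.some := by
        rw [dist_eq_norm]
        have := PiLp.norm_apply_le (x - h.some) c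
        simpa using this
      have h2 : (2:ℝ)^(J i) * r i ≤ 1 := by
        have := hJ2 i
        rw [one_div, inv_pow] at this
        calc (2:ℝ)^(J i) * r i ≤ (2:ℝ)^(J i) * ((2:ℝ)^(J i))⁻¹ := by gcongr
          _ = 1 := by field_simp
      have h3 : |(2:ℝ)^(J i) * x c - (2:ℝ)^(J i) * h.some c| < 1 := by
        rw [← mul_sub, abs_mul, abs_of_pos (by positivity : (0:ℝ) < 2^(J i))]
        calc (2:ℝ)^(J i) * |x c - h.some c| ≤ (2:ℝ)^(J i) * dist x h.some := by gcongr
          _ < (2:ℝ)^(J i) * r i := by gcongr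
          _ ≤ 1 := h2
      rw [abs_lt] at h3
      simp only [dy]
      constructor
      · have : ⌊(2:ℝ)^(J i) * h.some c⌋ < ⌊(2:ℝ)^(J i) * x c⌋ + 2 := by
          rw [Int.floor_lt]; push_cast
          have := Int.lt_floor_add_one ((2:ℝ)^(J i) * x c)
          linarith
        omega
      · have : ⌊(2:ℝ)^(J i) * x c⌋ < ⌊(2:ℝ)^(J i) * h.some c⌋ + 2 := by
          rw [Int.floor_lt]; push_cast
          have := Int.lt_floor_add_one ((2:ℝ)^(J i) * h.some c)
          linarith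
        omega
    · simp only [U, dif_neg h] at hx
      exact absurd hx (notMem_empty _)
  have hNcost : ∀ i, ∑ q ∈ N i, cost d q ≤ c * ((⨆ (_ : (t i).Nonempty), Metric.ediam (t i) ^ d).toReal
      + ε' * (1/2)^(i+1)) := by
    intro i
    by_cases h : (t i).Nonempty
    · simp only [N, dif_pos h]
      rw [Finset.sum_image (by intro a _ b _ hab; exact (Prod.mk.inj hab).2)]
      simp only [cost, Finset.sum_const, Fintype.card_piFinset, Int.card_Icc]
      have h3 : ∀ c', ((dy (J i) h.some c' + 1 + 1 - (dy (J i) h.some c' - 1)).toNat) = 3 := by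
        intro c'; omega
      simp only [h3, Finset.prod_const, Finset.card_univ, Fintype.card_fin, nsmul_eq_mul]
      rw [iSup_pos h, ← ENNReal.toReal_rpow]
      have h4 : (2:ℝ) ^ (-((J i : ℝ) * d)) ≤ (2 * r i) ^ d := by
        have h5 : (2:ℝ) ^ (-((J i : ℝ) * d)) = ((2:ℝ) ^ (-(J i : ℝ))) ^ d := by
          rw [← Real.rpow_mul (by norm_num)]; ring_nf
        rw [h5]
        apply Real.rpow_le_rpow (by positivity) _ hd.le
        have := hJ1 i
        rw [pow_succ, one_div, inv_pow] at this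
        rw [Real.rpow_neg (by norm_num), Real.rpow_natCast]
        linarith
      have h6 : (2 * r i) ^ d ≤ 4 ^ d * (δ i ^ d + ε' * (1/2)^(i+1)) := by
        have h7 : 2 * r i ≤ 4 * max (δ i) (η i) := by
          simp only [r]
          have := le_max_left (δ i) (η i)
          have := le_max_right (δ i) (η i)
          linarith
        calc (2 * r i) ^ d ≤ (4 * max (δ i) (η i)) ^ d :=
              Real.rpow_le_rpow (by have := hr0 i; positivity) h7 hd.le
          _ = 4 ^ d * (max (δ i) (η i)) ^ d := by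
              rw [Real.mul_rpow (by norm_num) (le_max_of_le_left (hδ0 i))]
          _ ≤ 4 ^ d * (δ i ^ d + ε' * (1/2)^(i+1)) := by
              gcongr
              rcases le_total (δ i) (η i) with h8 | h8
              · rw [max_eq_right h8]
                have := hηd i
                have := Real.rpow_nonneg (hδ0 i) d
                linarith
              · rw [max_eq_left h8]
                have : 0 < ε' * (1/2)^(i+1) := by positivity
                linarith
      push_cast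
      rw [hc]
      calc (3:ℝ) ^ n * 2 ^ (-((J i:ℝ) * d)) ≤ 3 ^ n * (4 ^ d * (δ i ^ d + ε' * (1/2)^(i+1))) := by
            gcongr; exact h4.trans h6
        _ = _ := by ring
    · simp only [N, dif_neg h, Finset.sum_empty]
      positivity
  refine ⟨F.biUnion N, ?_, ?_⟩
  · intro x hx
    obtain ⟨i, hi, hxi⟩ := mem_iUnion₂.1 (hF hx)
    obtain ⟨q, hq, hxq⟩ := hNcov i x hxi
    exact ⟨q, Finset.mem_biUnion.2 ⟨i, hi, hq⟩, hxq⟩
  · have hs1 : ∑ q ∈ F.biUnion N, cost d q ≤ ∑ i ∈ F, ∑ q ∈ N i, cost d q :=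
      sum_biUnion_le _ _ _ (fun q => (cost_pos d q).le)
    have hs2 : ∑ i ∈ F, ∑ q ∈ N i, cost d q ≤ ∑ i ∈ F,
        c * ((⨆ (_ : (t i).Nonempty), Metric.ediam (t i) ^ d).toReal + ε' * (1/2)^(i+1)) :=
      Finset.sum_le_sum fun i _ => hNcost i
    have hs3 : ∑ i ∈ F, (⨆ (_ : (t i).Nonempty), Metric.ediam (t i) ^ d).toReal ≤ ε' := by
      have hne : ∀ i, (⨆ (_ : (t i).Nonempty), Metric.ediam (t i) ^ d) ≠ ⊤ := by
        intro i
        exact ne_top_of_le_ne_top (ne_top_of_lt hts) (ENNReal.le_tsum i)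
      rw [← ENNReal.toReal_sum (fun i _ => hne i)]
      apply ENNReal.toReal_le_of_le_ofReal hε'pos.le
      exact (ENNReal.sum_le_tsum F).trans hts.le
    have hs4 : ∑ i ∈ F, ε' * (1/2:ℝ)^(i+1) ≤ ε' := by
      rw [← Finset.mul_sum]
      have h1 : ∑ i ∈ F, (1/2:ℝ)^(i+1) ≤ 1 := by
        have h2 : HasSum (fun i : ℕ => (1/2:ℝ)^(i+1)) 1 := by
          have := hasSum_geometric_two' 1
          simpa [div_eq_mul_inv, pow_succ, mul_comm] using this
        calc ∑ i ∈ F, (1/2:ℝ)^(i+1) ≤ ∑' i : ℕ, (1/2:ℝ)^(i+1) :=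
              h2.summable.sum_le_tsum F (fun i _ => by positivity)
          _ = 1 := h2.tsum_eq
      nlinarith
    have hs5 : ∑ i ∈ F, c * ((⨆ (_ : (t i).Nonempty), Metric.ediam (t i) ^ d).toReal + ε' * (1/2)^(i+1))
        ≤ c * (ε' + ε') := by
      rw [← Finset.mul_sum, Finset.sum_add_distrib]
      gcongr
    have hs6 : c * (ε' + ε') = ε / 2 := by rw [hε']; field_simp; ring
    linarith

/-- A nonnegative vector `c` with `c - W c ≥ 1/2` and small weighted sum, when the weighted column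
sums of `W` are at most `1/2`. -/
theorem exists_vector {ι : Type*} [Fintype ι] (v : ι → ℝ) (hv : ∀ i, 0 < v i) (W : ι → ι → ℝ)
    (hW : ∀ k i, 0 ≤ W k i) (hcol : ∀ i, ∑ k, W k i * v k ≤ 1/2 * v i) :
    ∃ c : ι → ℝ, (∀ i, 1 ≤ c i) ∧ (∀ k, 1/2 ≤ c k - ∑ i, W k i * c i) ∧
      ∑ i, c i * v i ≤ 2 * ∑ i, v i := by
  classical
  let T : (ι → ℝ) → ι → ℝ := fun c k => ∑ i, W k i * c i
  let e : ℕ → ι → ℝ := fun t => T^[t] (fun _ => 1)
  have he0 : ∀ t i, 0 ≤ e t i := by
    intro t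
    induction t with
    | zero => intro i; simp [e]
    | succ t ih =>
      intro i
      simp only [e, Function.iterate_succ', Function.comp_apply]
      exact Finset.sum_nonneg fun k _ => mul_nonneg (hW i k) (ih k)
  have hesum : ∀ t, ∑ i, e (t+1) i * v i ≤ 1/2 * ∑ i, e t i * v i := by
    intro t
    calc ∑ i, e (t+1) i * v i = ∑ i, ∑ k, W i k * e t k * v i := by
          refine Finset.sum_congr rfl fun i _ => ?_
          simp only [e, Function.iterate_succ', Function.comp_apply, T, Finset.sum_mul]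
      _ = ∑ k, e t k * ∑ i, W i k * v i := by
          rw [Finset.sum_comm]
          refine Finset.sum_congr rfl fun k _ => ?_
          rw [Finset.mul_sum]
          refine Finset.sum_congr rfl fun i _ => ?_
          ring
      _ ≤ ∑ k, e t k * (1/2 * v k) := by
          refine Finset.sum_le_sum fun k _ => ?_
          exact mul_le_mul_of_nonneg_left (hcol k) (he0 t k)
      _ = 1/2 * ∑ i, e t i * v i := by
          rw [Finset.mul_sum]
          refine Finset.sum_congr rfl fun i _ => ?_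
          ring
  have hV : 0 ≤ ∑ i, v i := Finset.sum_nonneg fun i _ => (hv i).le
  have hegeo : ∀ t, ∑ i, e t i * v i ≤ (1/2)^t * ∑ i, v i := by
    intro t
    induction t with
    | zero => simp [e]
    | succ t ih =>
      calc _ ≤ 1/2 * ∑ i, e t i * v i := hesum t
        _ ≤ 1/2 * ((1/2)^t * ∑ i, v i) := by gcongr
        _ = _ := by ring
  -- choose `t` with all entries of `e t` at most `1/2`
  obtain ⟨t, ht⟩ : ∃ t, ∀ i, e (t+1) i ≤ 1/2 := by
    have h1 : ∀ i, ∀ᶠ t in atTop, e t i ≤ 1/2 := by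
      intro i
      have h2 : Tendsto (fun t : ℕ => (1/2:ℝ)^t * ∑ i, v i) atTop (𝓝 (0 * ∑ i, v i)) :=
        (tendsto_pow_atTop_nhds_zero_of_lt_one (by norm_num) (by norm_num)).mul_const _
      rw [zero_mul] at h2
      have h3 : ∀ᶠ t : ℕ in atTop, (1/2:ℝ)^t * ∑ i, v i < 1/2 * v i :=
        h2.eventually (gt_mem_nhds (by have := hv i; positivity))
      filter_upwards [h3] with t ht
      have h4 : e t i * v i ≤ ∑ i, e t i * v i :=
        Finset.single_le_sum (f := fun i => e t i * v i)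
          (fun i _ => mul_nonneg (he0 t i) (hv i).le) (Finset.mem_univ i)
      have h5 := hegeo t
      have h6 : e t i * v i < 1/2 * v i := by linarith
      exact (lt_of_mul_lt_mul_right h6 (hv i).le).le
    obtain ⟨t, ht, ht1⟩ := ((eventually_all.2 h1).and (eventually_ge_atTop 1)).exists
    obtain ⟨a, rfl⟩ := Nat.exists_eq_add_of_le' ht1
    exact ⟨a, ht⟩
  refine ⟨fun i => ∑ s ∈ Finset.range (t+1), e s i, ?_, ?_, ?_⟩
  · intro i
    have : e 0 i ≤ ∑ s ∈ Finset.range (t+1), e s i :=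
      Finset.single_le_sum (f := fun s => e s i) (fun s _ => he0 s i) (Finset.mem_range.2 (by omega))
    simpa [e] using this
  · intro k
    have h1 : ∑ i, W k i * ∑ s ∈ Finset.range (t+1), e s i = ∑ s ∈ Finset.range (t+1), e (s+1) k := by
      calc _ = ∑ i, ∑ s ∈ Finset.range (t+1), W k i * e s i := by
            refine Finset.sum_congr rfl fun i _ => ?_
            rw [Finset.mul_sum]
        _ = ∑ s ∈ Finset.range (t+1), ∑ i, W k i * e s i := Finset.sum_comm
        _ = _ := by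
            refine Finset.sum_congr rfl fun s _ => ?_
            simp only [e, Function.iterate_succ', Function.comp_apply, T]
    rw [h1]
    have h2 : ∑ s ∈ Finset.range (t+1), e s k - ∑ s ∈ Finset.range (t+1), e (s+1) k
        = e 0 k - e (t+1) k := by
      rw [← Finset.sum_sub_distrib, Finset.sum_range_sub']
    rw [h2]
    have h3 := ht k
    have h4 : e 0 k = 1 := by simp [e]
    linarith
  · calc ∑ i, (∑ s ∈ Finset.range (t+1), e s i) * v i
        = ∑ i, ∑ s ∈ Finset.range (t+1), e s i * v i := by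
          refine Finset.sum_congr rfl fun i _ => ?_
          rw [Finset.sum_mul]
      _ = ∑ s ∈ Finset.range (t+1), ∑ i, e s i * v i := Finset.sum_comm
      _ ≤ ∑ s ∈ Finset.range (t+1), (1/2)^s * ∑ i, v i := Finset.sum_le_sum fun s _ => hegeo s
      _ = (∑ s ∈ Finset.range (t+1), (1/2:ℝ)^s) * ∑ i, v i := by rw [Finset.sum_mul]
      _ ≤ 2 * ∑ i, v i := by
          gcongr
          have := Summable.sum_le_tsum (Finset.range (t+1)) (fun i _ => by positivity)
            (summable_geometric_two)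
          rw [tsum_geometric_two] at this
          exact this

/-- Optimal dyadic covers: disjoint cubes, a packing condition, small cost. -/
theorem good_cover {K : Set (EuclideanSpace ℝ (Fin n))} (hK : IsCompact K) {d : ℝ} (hd : 0 < d)
    (h0 : μH[d] K = 0) (m : ℕ) {ε : ℝ} (hε : 0 < ε) :
    ∃ C : Finset (ℕ × (Fin n → ℤ)), (∀ q ∈ C, m ≤ q.1) ∧
      (∀ x ∈ K, ∃ q ∈ C, x ∈ cube q.1 q.2) ∧
      (∀ q ∈ C, ∀ s : Finset (ℕ × (Fin n → ℤ)), (∀ q' ∈ s, q' ∈ C ∧ rel m q' q) →
        ∑ q' ∈ s, cost d q' ≤ (2:ℝ) ^ ((m:ℝ) * d) * cost d q) ∧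
      ∑ q ∈ C, cost d q < ε := by
  classical
  obtain ⟨C₀, hC₀, hcost₀⟩ := finite_cover hK hd h0
    (show 0 < min ε ((2:ℝ) ^ (-((m:ℝ) * d))) by positivity)
  let anc : ℕ × (Fin n → ℤ) → Finset (ℕ × (Fin n → ℤ)) := fun q =>
    (Finset.range (q.1 + 1)).image fun i => (i, dy i (corner q.1 q.2))
  let 𝔘 : Finset (ℕ × (Fin n → ℤ)) := C₀.biUnion anc
  have hC₀𝔘 : C₀ ⊆ 𝔘 := by
    intro q hq
    refine Finset.mem_biUnion.2 ⟨q, hq, Finset.mem_image.2 ⟨q.1, Finset.mem_range.2 (by omega), ?_⟩⟩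
    rw [dy_corner]
  have h𝔘anc : ∀ q ∈ 𝔘, ∀ i ≤ q.1, (i, dy i (corner q.1 q.2)) ∈ 𝔘 := by
    intro q hq i hi
    obtain ⟨q₀, hq₀, hq1⟩ := Finset.mem_biUnion.1 hq
    obtain ⟨a, ha, hqa⟩ := Finset.mem_image.1 hq1
    refine Finset.mem_biUnion.2 ⟨q₀, hq₀, Finset.mem_image.2 ⟨i, ?_, ?_⟩⟩
    · have := Finset.mem_range.1 ha
      rw [← hqa] at hi
      exact Finset.mem_range.2 (by omega)
    · rw [← hqa] at hi ⊢
      congr 1
      exact dy_coarse hi (by rw [dy_corner])
  let cov : Finset (ℕ × (Fin n → ℤ)) → Prop := fun C => ∀ x ∈ K, ∃ q ∈ C, x ∈ cube q.1 q.2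
  let 𝔉 : Finset (Finset (ℕ × (Fin n → ℤ))) := 𝔘.powerset.filter cov
  have h𝔉 : 𝔉.Nonempty := ⟨C₀, Finset.mem_filter.2 ⟨Finset.mem_powerset.2 hC₀𝔘, hC₀⟩⟩
  obtain ⟨C, hC𝔉, hmin⟩ := Finset.exists_min_image 𝔉 (fun C => ∑ q ∈ C, cost d q) h𝔉
  obtain ⟨hC𝔘, hCcov⟩ := Finset.mem_filter.1 hC𝔉
  rw [Finset.mem_powerset] at hC𝔘
  have hmin' : ∀ C' : Finset (ℕ × (Fin n → ℤ)), C' ⊆ 𝔘 → cov C' →
      ∑ q ∈ C, cost d q ≤ ∑ q ∈ C', cost d q := fun C' h1 h2 =>
    hmin C' (Finset.mem_filter.2 ⟨Finset.mem_powerset.2 h1, h2⟩)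
  have hcost : ∑ q ∈ C, cost d q < min ε ((2:ℝ) ^ (-((m:ℝ) * d))) :=
    (hmin' C₀ hC₀𝔘 hC₀).trans_lt hcost₀
  have hscale : ∀ q ∈ C, m ≤ q.1 := by
    intro q hq
    have h1 : cost d q ≤ ∑ q ∈ C, cost d q :=
      Finset.single_le_sum (f := cost d) (fun q _ => (cost_pos d q).le) hq
    have h2 : cost d q < (2:ℝ) ^ (-((m:ℝ) * d)) :=
      (h1.trans_lt hcost).trans_le (min_le_right _ _)
    unfold cost at h2
    rw [Real.rpow_lt_rpow_left_iff (by norm_num)] at h2
    by_contra hcon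
    have : (q.1:ℝ) ≤ m := by exact_mod_cast (not_le.1 hcon).le
    nlinarith
  -- disjointness
  have hdisj : ∀ q ∈ C, ∀ q' ∈ C, q.1 ≤ q'.1 → ∀ x, x ∈ cube q.1 q.2 → x ∈ cube q'.1 q'.2 → q = q' := by
    intro q hq q' hq' hle x hx hx'
    by_contra hne
    have hsub : cube q'.1 q'.2 ⊆ cube q.1 q.2 := by
      intro y hy
      rw [mem_cube] at hx hx' hy ⊢
      rw [← hx]
      exact dy_coarse hle (by rw [hy, hx'])
    have h1 := hmin' (C.erase q') ((Finset.erase_subset _ _).trans hC𝔘) (by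
      intro y hy
      obtain ⟨a, ha, hya⟩ := hCcov y hy
      by_cases haq : a = q'
      · exact ⟨q, Finset.mem_erase.2 ⟨hne, hq⟩, hsub (haq ▸ hya)⟩
      · exact ⟨a, Finset.mem_erase.2 ⟨haq, ha⟩, hya⟩)
    rw [← Finset.add_sum_erase C (cost d) hq'] at h1
    have := cost_pos d q'
    linarith
  refine ⟨C, hscale, hCcov, ?_, hcost.trans_le (min_le_left _ _)⟩
  intro q hq s hs
  set R : ℕ × (Fin n → ℤ) := (q.1 - m, dy (q.1 - m) (corner q.1 q.2)) with hR
  have hRcost : cost d R = (2:ℝ) ^ ((m:ℝ) * d) * cost d q := by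
    unfold cost
    rw [← Real.rpow_add (by norm_num)]
    congr 1
    rw [hR]
    simp only
    rw [Nat.cast_sub (hscale q hq)]
    ring
  rw [← hRcost]
  have hsC : s ⊆ C := fun a ha => (hs a ha).1
  let C' := insert R (C \ s)
  have hC'𝔘 : C' ⊆ 𝔘 := by
    intro a ha
    rcases Finset.mem_insert.1 ha with rfl | ha
    · exact h𝔘anc q (hC𝔘 hq) _ (Nat.sub_le _ _)
    · exact hC𝔘 (Finset.mem_sdiff.1 ha).1
  have hC'cov : cov C' := by
    intro x hx
    obtain ⟨a, ha, hxa⟩ := hCcov x hx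
    by_cases has : a ∈ s
    · obtain ⟨_, y, hya, hy⟩ := hs a has
      refine ⟨R, Finset.mem_insert_self _ _, ?_⟩
      by_cases hsc : q.1 - m ≤ a.1
      · change dy (q.1 - m) x = dy (q.1 - m) (corner q.1 q.2)
        rw [← hy]
        exact dy_coarse hsc (by rw [mem_cube.1 hxa, mem_cube.1 hya])
      · exfalso
        rw [not_le] at hsc
        have h1 : corner q.1 q.2 ∈ cube a.1 a.2 := by
          rw [mem_cube, ← mem_cube.1 hya]
          exact (dy_coarse hsc.le hy).symm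
        have h2 := hdisj a ha q hq (by omega) _ h1 (mem_cube_corner _ _)
        rw [h2] at hsc
        omega
    · exact ⟨a, Finset.mem_insert_of_mem (Finset.mem_sdiff.2 ⟨ha, has⟩), hxa⟩
  have h1 := hmin' C' hC'𝔘 hC'cov
  have h2 : ∑ q ∈ C', cost d q ≤ cost d R + ∑ q ∈ C \ s, cost d q := by
    by_cases hRm : R ∈ C \ s
    · simp only [C', Finset.insert_eq_of_mem hRm]
      have := cost_pos d R
      linarith
    · simp only [C', Finset.sum_insert hRm, le_refl]
  have h3 := Finset.sum_sdiff hsC (f := cost d)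
  linarith

end Pool.Agent.V8H56.BC
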