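import Pool.Agent.V8H56.BC.UpperB
import Pool.Agent.V8H56.BC.Cover

/-! Construction of test functions on sets of Hausdorff measure zero (for MP_9b3711_an). -/

open MeasureTheory Set Filter SchwartzMap FourierTransform
open scoped ENNReal NNReal Topology SchwartzMap Convolution ContDiff Real

namespace Pool.Agent.V8H56.BC

variable {n : ℕ}

/-- the basic bump: one on the ball of radius `n+1`, supported in the ball of radius `n+2` -/
noncomputable def bump (n : ℕ) : ContDiffBump (0 : EuclideanSpace ℝ (Fin n)) :=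
  ⟨(n:ℝ) + 1, (n:ℝ) + 2, by positivity, by linarith⟩

lemma bump_one {y : EuclideanSpace ℝ (Fin n)} (hy : ‖y‖ ≤ (n:ℝ) + 1) : bump n y = 1 :=
  (bump n).one_of_mem_closedBall (by simpa [bump] using hy)

lemma bump_zero {y : EuclideanSpace ℝ (Fin n)} (hy : (n:ℝ) + 2 ≤ ‖y‖) : bump n y = 0 :=
  (bump n).zero_of_le_dist (by simpa [bump] using hy)

/-- the bump as a Schwartz function -/
noncomputable def bumpS (n : ℕ) : 𝓢(EuclideanSpace ℝ (Fin n), ℂ) :=
  HasCompactSupport.toSchwartzMap (f := fun y => ((bump n y : ℝ) : ℂ))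
    ((bump n).hasCompactSupport.comp_left (g := fun t : ℝ => (t : ℂ)) (by simp))
    (Complex.ofRealCLM.contDiff.comp (bump n).contDiff)

@[simp] lemma bumpS_apply (y : EuclideanSpace ℝ (Fin n)) : bumpS n y = ((bump n y : ℝ) : ℂ) := rfl

/-- direction vectors -/
noncomputable def hv {A : ℕ} (b : Fin n → Bool) (r : Fin n → Fin A) : EuclideanSpace ℝ (Fin n) :=
  WithLp.toLp 2 fun c => if b c then -((n:ℝ) + 2 + (r c : ℕ)) else ((n:ℝ) + 2 + (r c : ℕ))

lemma count_line (A i : ℕ) (hi : 1 ≤ i) (b : Bool) (y : ℝ) :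
    ∑ r : Fin A, (if |y + i * (if b then -((n:ℝ) + 2 + (r : ℕ)) else ((n:ℝ) + 2 + (r : ℕ)))| < (n:ℝ) + 2
      then (1:ℝ) else 0) ≤ 2 * (n + 2) := by
  classical
  set S : Finset (Fin A) := Finset.univ.filter fun r =>
    |y + i * (if b then -((n:ℝ) + 2 + (r : ℕ)) else ((n:ℝ) + 2 + (r : ℕ)))| < (n:ℝ) + 2 with hS
  rw [← Finset.sum_filter, ← hS, Finset.sum_const, nsmul_eq_mul, mul_one]
  have hclose : ∀ r ∈ S, ∀ r' ∈ S, ((r:ℕ):ℝ) - ((r':ℕ):ℝ) < 2 * (n + 2) := by
    intro r hr r' hr'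
    rw [hS, Finset.mem_filter] at hr hr'
    have h1 := abs_lt.1 hr.2
    have h2 := abs_lt.1 hr'.2
    have hi' : (1:ℝ) ≤ i := by exact_mod_cast hi
    by_contra hcon
    rw [not_lt] at hcon
    have h3 : 2 * ((n:ℝ) + 2) ≤ i * (((r:ℕ):ℝ) - ((r':ℕ):ℝ)) := by
      have : 0 ≤ 2 * ((n:ℝ) + 2) := by positivity
      nlinarith
    cases b
    · simp only [Bool.false_eq_true, if_false] at h1 h2
      nlinarith
    · simp only [if_true] at h1 h2
      nlinarith
  rcases S.eq_empty_or_nonempty with he | hne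
  · rw [he]; simp; positivity
  · set m := S.min' hne with hm
    have hsub : S.image (fun r : Fin A => (r : ℕ)) ⊆ Finset.Ico (m:ℕ) ((m:ℕ) + 2 * (n + 2)) := by
      intro a ha
      obtain ⟨r, hr, rfl⟩ := Finset.mem_image.1 ha
      rw [Finset.mem_Ico]
      refine ⟨by exact_mod_cast S.min'_le r hr, ?_⟩
      have := hclose r hr m (S.min'_mem hne)
      have h3 : ((r:ℕ):ℝ) < (((m:ℕ) + 2 * (n + 2) : ℕ) : ℝ) := by push_cast; linarith
      exact_mod_cast h3
    have hcard := Finset.card_le_card hsub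
    rw [Finset.card_image_of_injective _ Fin.val_injective, Nat.card_Ico] at hcard
    have : (S.card : ℝ) ≤ ((2 * (n + 2) : ℕ) : ℝ) := by exact_mod_cast (by omega : S.card ≤ 2 * (n+2))
    push_cast at this
    exact this

lemma coord_le_norm (z : EuclideanSpace ℝ (Fin n)) (c : Fin n) : |z c| ≤ ‖z‖ := by
  have := PiLp.norm_apply_le z c
  simpa using this

/-- counting translates of the bump containing a point -/
lemma count_bump (A i : ℕ) (hi : 1 ≤ i) (b : Fin n → Bool) (y : EuclideanSpace ℝ (Fin n)) :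
    ∑ r : Fin n → Fin A, bump n (y + (i:ℝ) • hv b r) ≤ (2 * ((n:ℝ) + 2)) ^ n := by
  classical
  have h1 : ∀ r : Fin n → Fin A, bump n (y + (i:ℝ) • hv b r) ≤
      ∏ c, (if |y c + i * (if b c then -((n:ℝ) + 2 + (r c : ℕ)) else ((n:ℝ) + 2 + (r c : ℕ)))|
        < (n:ℝ) + 2 then (1:ℝ) else 0) := by
    intro r
    by_cases hall : ∀ c, |y c + i * (if b c then -((n:ℝ) + 2 + (r c : ℕ)) else
        ((n:ℝ) + 2 + (r c : ℕ)))| < (n:ℝ) + 2
    · rw [Finset.prod_congr rfl fun c _ => if_pos (hall c)]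
      simp only [Finset.prod_const_one]
      exact (bump n).le_one
    · push Not at hall
      obtain ⟨c, hc⟩ := hall
      have h2 : bump n (y + (i:ℝ) • hv b r) = 0 := by
        apply bump_zero
        refine hc.trans ?_
        have := coord_le_norm (y + (i:ℝ) • hv b r) c
        simpa [hv] using this
      rw [h2]
      exact Finset.prod_nonneg fun c _ => by split_ifs <;> norm_num
  refine (Finset.sum_le_sum fun r _ => h1 r).trans ?_
  have h3 := Finset.prod_univ_sum (fun _ : Fin n => (Finset.univ : Finset (Fin A)))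
    (fun c (rc : Fin A) => (if |y c + i * (if b c then -((n:ℝ) + 2 + (rc : ℕ)) else
      ((n:ℝ) + 2 + (rc : ℕ)))| < (n:ℝ) + 2 then (1:ℝ) else 0))
  rw [Fintype.piFinset_univ] at h3
  rw [← h3]
  calc _ ≤ ∏ _c : Fin n, (2 * ((n:ℝ) + 2)) := by
        refine Finset.prod_le_prod (fun c _ => Finset.sum_nonneg fun r _ => by split_ifs <;> norm_num)
          fun c _ => count_line A i hi (b c) (y c)
    _ = _ := by simp

/-- evaluation of a block -/
lemma blk_apply (h : EuclideanSpace ℝ (Fin n)) {D : ℕ} (hD : Even D)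
    (x₀ z : EuclideanSpace ℝ (Fin n)) (s : ℝ) (hs : 0 < s) :
    blk (bumpS n) h D x₀ s hs z = ((bump n (s⁻¹ • (z - x₀)) + ∑ i ∈ Finset.range D,
      (-1) ^ (i + 1) * (D.choose (i+1) : ℝ) * bump n (s⁻¹ • (z - x₀) + ((i + 1 : ℕ) : ℝ) • h) : ℝ) : ℂ) := by
  unfold blk
  rw [aff_apply, dif_iterate_apply, fwdDiff_iter_eq_sum_shift, Finset.sum_range_succ']
  simp only [bumpS_apply]
  push_cast
  rw [add_comm]
  congr 1
  · simp [hD.neg_one_pow]
  · refine Finset.sum_congr rfl fun i hi => ?_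
    have hi' := Finset.mem_range.1 hi
    rw [zsmul_eq_mul]
    push_cast
    have e1 : (-1:ℂ) ^ (D - (i + 1)) = (-1) ^ (i + 1) := by
      have h1 : D = (D - (i+1)) + (i+1) := by omega
      have h2 : (-1:ℂ) ^ (D - (i+1)) * (-1) ^ (i+1) = 1 := by
        rw [← pow_add, ← h1]; exact hD.neg_one_pow
      have h3 : ((-1:ℂ) ^ (i+1)) * (-1) ^ (i+1) = 1 := by
        rw [← mul_pow]; norm_num
      have h4 : ((-1:ℂ) ^ (i+1)) ≠ 0 := by
        exact pow_ne_zero _ (by norm_num)
      exact mul_right_cancel₀ h4 (h2.trans h3.symm)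
    rw [e1]
    congr 4
    rw [← Nat.cast_smul_eq_nsmul ℝ]
    push_cast
    rfl

end Pool.Agent.V8H56.BC
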