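import Pool.Agent.V8H56.BC.Construct

/-! Construction of test functions on sets of Hausdorff measure zero, second part
(for MP_9b3711_an). -/

open MeasureTheory Set Filter SchwartzMap FourierTransform
open scoped ENNReal NNReal Topology SchwartzMap Convolution ContDiff Real

namespace Pool.Agent.V8H56.BC

variable {n : ℕ}

/-- the inward direction for the cube `q` inside its `m`-th ancestor -/
def inw (m : ℕ) (k : Fin n → ℤ) : Fin n → Bool := fun c => decide (k c % (2 ^ m : ℕ) < 2 ^ (m - 1))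

lemma ediv_add_eq {k e M : ℤ} (hM : 0 < M) (h1 : 0 ≤ k % M + e) (h2 : k % M + e < M) :
    (k + e) / M = k / M := by
  have h3 : k + e = (k % M + e) + M * (k / M) := by
    have := Int.emod_add_mul_ediv k M
    linarith
  rw [h3, Int.add_mul_ediv_left _ _ hM.ne', Int.ediv_eq_zero_of_lt h1 h2, zero_add]

/-- location of the compensating part -/
lemma location {A D m j : ℕ} (hm1 : 1 ≤ m) (hmj : m ≤ j)
    (hA : D * (n + 2 + A) + (n + 2) ≤ 2 ^ (m - 1)) (k : Fin n → ℤ) (r : Fin n → Fin A)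
    {i : ℕ} (hi1 : 1 ≤ i) (hiD : i ≤ D) (x : EuclideanSpace ℝ (Fin n))
    (hne : bump n ((((2:ℝ) ^ j)⁻¹)⁻¹ • (x - corner j k) + (i:ℝ) • hv (inw m k) r) ≠ 0) :
    dy (j - m) x = dy (j - m) (corner j k) := by
  funext c
  have hlt : ‖(((2:ℝ) ^ j)⁻¹)⁻¹ • (x - corner j k) + (i:ℝ) • hv (inw m k) r‖ < (n:ℝ) + 2 := by
    by_contra hcon
    exact hne (bump_zero (not_lt.1 hcon))
  have hc := (coord_le_norm _ c).trans_lt hlt
  set y : ℝ := (2:ℝ) ^ j * x c - k c with hy
  have e1 : ((((2:ℝ) ^ j)⁻¹)⁻¹ • (x - corner j k) + (i:ℝ) • hv (inw m k) r) c =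
      y + i * (if inw m k c then -((n:ℝ) + 2 + (r c : ℕ)) else ((n:ℝ) + 2 + (r c : ℕ))) := by
    simp [corner, hv, hy, inv_inv]
    field_simp
  rw [e1, abs_lt] at hc
  rw [dy_step (j - m) m x c, dy_step (j - m) m (corner j k) c, Nat.sub_add_cancel hmj, dy_corner]
  have e2 : dy j x c = k c + ⌊y⌋ := by
    simp only [dy, hy]
    rw [Int.floor_sub_intCast]; ring
  rw [e2]
  have hr : ((r c : ℕ) : ℝ) + 1 ≤ A := by exact_mod_cast (r c).2
  have hr0 : (0:ℝ) ≤ ((r c : ℕ) : ℝ) := by positivity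
  have hi1' : (1:ℝ) ≤ i := by exact_mod_cast hi1
  have hiD' : (i:ℝ) ≤ D := by exact_mod_cast hiD
  have hA' : (D:ℝ) * (n + 2 + A) + (n + 2) ≤ ((2 ^ (m - 1) : ℤ) : ℝ) := by
    have : ((D * (n + 2 + A) + (n + 2) : ℕ) : ℝ) ≤ ((2 ^ (m - 1) : ℕ) : ℝ) := by exact_mod_cast hA
    push_cast at this ⊢
    exact this
  have hup : (i:ℝ) * ((n:ℝ) + 2 + (r c : ℕ)) ≤ (D:ℝ) * (n + 2 + A) := by
    have h0 : ((n:ℝ) + 2 + (r c : ℕ)) ≤ n + 2 + A := by linarith
    exact mul_le_mul hiD' h0 (by positivity) (by positivity)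
  have hlow : ((n:ℝ) + 2) ≤ (i:ℝ) * ((n:ℝ) + 2 + (r c : ℕ)) := by
    calc ((n:ℝ) + 2) ≤ 1 * ((n:ℝ) + 2 + (r c : ℕ)) := by linarith
      _ ≤ _ := by gcongr
  have hpow : ((2 ^ m : ℕ) : ℤ) = 2 * 2 ^ (m - 1) := by
    push_cast
    obtain ⟨m', rfl⟩ := Nat.exists_eq_add_of_le' hm1
    rw [Nat.add_sub_cancel, pow_succ]; ring
  have hMpos : (0:ℤ) < ((2 ^ m : ℕ) : ℤ) := by positivity
  have hmod0 := Int.emod_nonneg (k c) hMpos.ne'
  have hmod1 := Int.emod_lt_of_pos (k c) hMpos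
  by_cases hb : k c % ((2 ^ m : ℕ) : ℤ) < 2 ^ (m - 1)
  · have hinw : inw m k c = true := by simp only [inw]; exact decide_eq_true hb
    rw [hinw] at hc
    simp only [if_true] at hc
    have h1 : (0:ℤ) ≤ ⌊y⌋ := by
      rw [Int.le_floor]; push_cast; linarith
    have h2 : ⌊y⌋ < 2 ^ (m - 1) := by
      rw [Int.floor_lt]; linarith
    exact ediv_add_eq hMpos (by linarith) (by linarith)
  · have hinw : inw m k c = false := by simp only [inw]; exact decide_eq_false hb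
    rw [hinw] at hc
    simp only [Bool.false_eq_true, if_false] at hc
    have h1 : ⌊y⌋ < 0 := by
      rw [Int.floor_lt]; push_cast; linarith
    have h2 : -(2 ^ (m - 1)) ≤ ⌊y⌋ := by
      rw [Int.le_floor]; push_cast
      push_cast at hA'
      linarith
    rw [not_lt] at hb
    exact ediv_add_eq hMpos (by linarith) (by linarith)

/-- bound for the compensating part of a block combination -/
lemma comp_bound {A D m j : ℕ} (hA0 : 0 < A) (hm1 : 1 ≤ m) (hmj : m ≤ j)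
    (hA : D * (n + 2 + A) + (n + 2) ≤ 2 ^ (m - 1)) (hDe : Even D) (k : Fin n → ℤ)
    (x : EuclideanSpace ℝ (Fin n)) (hs : (0:ℝ) < ((2:ℝ) ^ j)⁻¹) :
    |∑ r : Fin n → Fin A, ((A:ℝ) ^ n)⁻¹ *
      (blk (bumpS n) (hv (inw m k) r) D (corner j k) (((2:ℝ) ^ j)⁻¹) hs x).re
      - bump n ((((2:ℝ) ^ j)⁻¹)⁻¹ • (x - corner j k))| ≤
    (if dy (j - m) x = dy (j - m) (corner j k) then
      ((A:ℝ) ^ n)⁻¹ * (2 ^ D * (2 * ((n:ℝ) + 2)) ^ n) else 0) := by
  classical
  set y := (((2:ℝ) ^ j)⁻¹)⁻¹ • (x - corner j k) with hy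
  have hAn : (0:ℝ) < (A:ℝ) ^ n := by positivity
  have e1 : ∑ r : Fin n → Fin A, ((A:ℝ) ^ n)⁻¹ *
      (blk (bumpS n) (hv (inw m k) r) D (corner j k) (((2:ℝ) ^ j)⁻¹) hs x).re - bump n y
      = ((A:ℝ) ^ n)⁻¹ * ∑ i ∈ Finset.range D, (-1) ^ (i + 1) * (D.choose (i+1) : ℝ) *
        ∑ r : Fin n → Fin A, bump n (y + ((i + 1 : ℕ) : ℝ) • hv (inw m k) r) := by
    have e2 : ∀ r : Fin n → Fin A,
        (blk (bumpS n) (hv (inw m k) r) D (corner j k) (((2:ℝ) ^ j)⁻¹) hs x).re =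
        bump n y + ∑ i ∈ Finset.range D, (-1) ^ (i + 1) * (D.choose (i+1) : ℝ) *
          bump n (y + ((i + 1 : ℕ) : ℝ) • hv (inw m k) r) := by
      intro r
      rw [blk_apply _ hDe, Complex.ofReal_re]
    simp only [e2, mul_add, Finset.sum_add_distrib]
    rw [Finset.sum_const, Finset.card_univ, Fintype.card_pi_const, Fintype.card_fin, nsmul_eq_mul]
    push_cast
    rw [← mul_assoc, mul_inv_cancel₀ hAn.ne', one_mul, add_sub_cancel_left, ← Finset.mul_sum]
    congr 1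
    rw [Finset.sum_comm]
    refine Finset.sum_congr rfl fun i _ => ?_
    rw [Finset.mul_sum]
  rw [e1]
  by_cases hx : dy (j - m) x = dy (j - m) (corner j k)
  · rw [if_pos hx, abs_mul, abs_of_pos (by positivity)]
    gcongr
    refine (Finset.abs_sum_le_sum_abs _ _).trans ?_
    calc ∑ i ∈ Finset.range D, |(-1) ^ (i + 1) * (D.choose (i+1) : ℝ) *
          ∑ r : Fin n → Fin A, bump n (y + ((i + 1 : ℕ) : ℝ) • hv (inw m k) r)|
        ≤ ∑ i ∈ Finset.range D, (D.choose (i+1) : ℝ) * (2 * ((n:ℝ) + 2)) ^ n := by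
          refine Finset.sum_le_sum fun i _ => ?_
          rw [abs_mul, abs_mul, abs_pow, abs_neg, abs_one, one_pow, one_mul,
            abs_of_nonneg (by positivity : (0:ℝ) ≤ (D.choose (i+1) : ℝ)),
            abs_of_nonneg (Finset.sum_nonneg fun r _ => (bump n).nonneg)]
          gcongr
          exact count_bump A (i+1) (by omega) _ y
      _ = (∑ i ∈ Finset.range D, (D.choose (i+1) : ℝ)) * (2 * ((n:ℝ) + 2)) ^ n := by
          rw [Finset.sum_mul]
      _ ≤ 2 ^ D * (2 * ((n:ℝ) + 2)) ^ n := by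
          gcongr
          have h1 : ∑ i ∈ Finset.range D, D.choose (i+1) ≤ 2 ^ D := by
            have := Nat.sum_range_choose D
            rw [Finset.sum_range_succ'] at this
            omega
          exact_mod_cast h1
  · rw [if_neg hx]
    apply le_of_eq
    rw [abs_eq_zero]
    refine mul_eq_zero_of_right _ (Finset.sum_eq_zero fun i hi => ?_)
    refine mul_eq_zero_of_right _ (Finset.sum_eq_zero fun r _ => ?_)
    by_contra hne
    exact hx (location hm1 hmj hA k r (i := i+1) (by omega)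
      (by have := Finset.mem_range.1 hi; omega) x hne)

end Pool.Agent.V8H56.BC
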