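import Pool.Agent.V8H56.BC.Construct2

/-! Construction of test functions on sets of Hausdorff measure zero, conclusion
(for MP_9b3711_an). -/

open MeasureTheory Set Filter SchwartzMap FourierTransform
open scoped ENNReal NNReal Topology SchwartzMap Convolution ContDiff Real

namespace Pool.Agent.V8H56.BC

variable {n : ℕ}

lemma blk_compact (h : EuclideanSpace ℝ (Fin n)) (D : ℕ) (x₀ : EuclideanSpace ℝ (Fin n)) (s : ℝ)
    (hs : 0 < s) : HasCompactSupport (blk (bumpS n) h D x₀ s hs) := by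
  have h1 : ∀ D, HasCompactSupport ((dif h)^[D] (bumpS n)) := by
    intro D
    induction D with
    | zero =>
      exact (bump n).hasCompactSupport.comp_left (g := fun t : ℝ => (t : ℂ)) (by simp)
    | succ D ih =>
      rw [Function.iterate_succ_apply']
      have e1 : (⇑(dif h ((dif h)^[D] (bumpS n)))) =
          (fun z => ((dif h)^[D] (bumpS n)) (z + h)) - ⇑((dif h)^[D] (bumpS n)) := by
        funext z; simp
      rw [e1]
      exact (ih.comp_homeomorph (Homeomorph.addRight h)).sub ih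
  have e2 : (⇑(blk (bumpS n) h D x₀ s hs)) = (⇑((dif h)^[D] (bumpS n))) ∘
      ((Homeomorph.subRight x₀).trans (Homeomorph.smulOfNeZero s⁻¹ (inv_ne_zero hs.ne'))) := by
    funext z
    simp [blk]
  rw [e2]
  exact (h1 D).comp_homeomorph _

lemma comb_compact {ι : Type} (D : ℕ) (I : Finset ι)
    (a : ι → ℝ) (h x₀ : ι → EuclideanSpace ℝ (Fin n)) (i : ι → ℕ) :
    HasCompactSupport (comb (bumpS n) D I a h x₀ i) := by
  classical
  unfold comb
  induction I using Finset.induction_on with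
  | empty =>
    simp only [Finset.sum_empty]
    exact HasCompactSupport.zero
  | insert k I hk ih =>
    rw [Finset.sum_insert hk]
    refine HasCompactSupport.add ?_ ih
    exact HasCompactSupport.smul_left (f := fun _ => ((a k : ℝ) : ℂ)) (blk_compact _ _ _ _ _)

lemma comb_apply {ι : Type} {D : ℕ} (hD : Even D) (I : Finset ι)
    (a : ι → ℝ) (h x₀ : ι → EuclideanSpace ℝ (Fin n)) (i : ι → ℕ) (x : EuclideanSpace ℝ (Fin n)) :
    comb (bumpS n) D I a h x₀ i x = ((∑ k ∈ I, a k *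
      (blk (bumpS n) (h k) D (x₀ k) (((2:ℝ) ^ (i k))⁻¹) (by positivity) x).re : ℝ) : ℂ) := by
  unfold comb
  rw [sum_apply]
  push_cast
  refine Finset.sum_congr rfl fun k _ => ?_
  have e1 : ∀ z : ℂ, ∀ v : 𝓢(EuclideanSpace ℝ (Fin n), ℂ), (z • ⇑v) x = z * v x := fun z v => rfl
  rw [e1, blk_apply _ hD, Complex.ofReal_re]

lemma exists_parameter {d : ℝ} (hdn : d < n) (B : ℝ) (c₀ : ℕ) :
    ∃ a₀ : ℕ, ((((2:ℝ) ^ a₀) ^ n)⁻¹ * B) * (2:ℝ) ^ (((a₀ + c₀ : ℕ) : ℝ) * d) ≤ 1/2 := by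
  have h1 : Tendsto (fun a : ℕ => (B * (2:ℝ) ^ ((c₀:ℝ) * d)) * ((2:ℝ) ^ (-((n:ℝ) - d))) ^ a) atTop
      (𝓝 ((B * (2:ℝ) ^ ((c₀:ℝ) * d)) * 0)) := by
    refine Tendsto.const_mul _ (tendsto_pow_atTop_nhds_zero_of_lt_one (by positivity) ?_)
    exact Real.rpow_lt_one_of_one_lt_of_neg (by norm_num) (by linarith)
  rw [mul_zero] at h1
  obtain ⟨a, ha⟩ := (h1.eventually (gt_mem_nhds (by norm_num : (0:ℝ) < 1/2))).exists
  refine ⟨a, le_of_eq_of_le ?_ ha.le⟩
  have e1 : (((2:ℝ) ^ a) ^ n)⁻¹ = (2:ℝ) ^ (-((a:ℝ) * n)) := by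
    rw [Real.rpow_neg (by norm_num), ← pow_mul, ← Real.rpow_natCast]; push_cast; rfl
  have e2 : ((2:ℝ) ^ (-((n:ℝ) - d))) ^ a = (2:ℝ) ^ (-((a:ℝ) * n) + a * d) := by
    rw [← Real.rpow_natCast, ← Real.rpow_mul (by norm_num)]; congr 1; ring
  rw [e1, e2, Real.rpow_add (by norm_num)]
  have e3 : (2:ℝ) ^ (((a + c₀ : ℕ) : ℝ) * d) = (2:ℝ) ^ ((a:ℝ) * d) * (2:ℝ) ^ ((c₀:ℝ) * d) := by
    rw [← Real.rpow_add (by norm_num)]; push_cast; congr 1; ring
  rw [e3]; ring

/-- test functions with small data on compact sets of Hausdorff measure zero -/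
theorem exists_comb {K : Set (EuclideanSpace ℝ (Fin n))} (hK : IsCompact K) {d : ℝ} (hd : 0 < d)
    (hdn : d < n) (h0 : μH[d] K = 0) {D : ℕ} (hDe : Even D) {p : ℝ} (hp : 0 < p) (hp1 : p ≤ 1) :
    ∃ Hs : Finset (EuclideanSpace ℝ (Fin n)), ∀ ε : ℝ, 0 < ε →
      ∃ (ι : Type) (I : Finset ι) (a : ι → ℝ) (h x₀ : ι → EuclideanSpace ℝ (Fin n)) (i : ι → ℕ),
        (∀ k ∈ I, h k ∈ Hs) ∧ ∑ k ∈ I, |a k| ^ p * (2:ℝ) ^ (-((i k : ℝ) * d)) ≤ ε ∧
        HasCompactSupport (comb (bumpS n) D I a h x₀ i) ∧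
        (∀ x, (comb (bumpS n) D I a h x₀ i x).im = 0) ∧
        (∀ x ∈ K, 1 ≤ (comb (bumpS n) D I a h x₀ i x).re) := by
  classical
  set B : ℝ := 2 ^ D * (2 * ((n:ℝ) + 2)) ^ n with hB
  have hB0 : 0 < B := by positivity
  set c₀ : ℕ := D * (n + 3) + (n + 2) + 1 with hc₀
  obtain ⟨a₀, ha₀⟩ := exists_parameter hdn B c₀
  set A : ℕ := 2 ^ a₀ with hA
  have hA1 : 1 ≤ A := Nat.one_le_two_pow
  set m : ℕ := a₀ + c₀ with hm
  have hm1 : 1 ≤ m := by omega
  have hAm : D * (n + 2 + A) + (n + 2) ≤ 2 ^ (m - 1) := by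
    have e1 : m - 1 = a₀ + (D * (n + 3) + (n + 2)) := by omega
    rw [e1, pow_add, ← hA]
    have h1 : D * (n + 3) + (n + 2) ≤ 2 ^ (D * (n + 3) + (n + 2)) := Nat.lt_two_pow_self.le
    calc D * (n + 2 + A) + (n + 2) ≤ A * (D * (n + 3) + (n + 2)) := by
          nlinarith [Nat.zero_le (D * (n + 2)), Nat.zero_le (n + 2),
            Nat.mul_le_mul_left (D * (n + 2)) hA1, Nat.mul_le_mul_left (n + 2) hA1]
      _ ≤ _ := Nat.mul_le_mul_left A h1
  have hAR : (0:ℝ) < (A:ℝ) ^ n := by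
    have : (0:ℝ) < A := by exact_mod_cast hA1
    positivity
  have hAR1 : (1:ℝ) ≤ (A:ℝ) ^ n := one_le_pow₀ (by exact_mod_cast hA1)
  set om : ℝ := ((A:ℝ) ^ n)⁻¹ * B with hom
  have hom0 : 0 ≤ om := by positivity
  have homm : om * (2:ℝ) ^ ((m:ℝ) * d) ≤ 1/2 := by
    rw [hom, hA]; push_cast; exact ha₀
  refine ⟨(Finset.univ : Finset ((Fin n → Bool) × (Fin n → Fin A))).image fun br => hv br.1 br.2,
    fun ε hε => ?_⟩
  obtain ⟨C, hCm, hCcov, hCpack, hCcost⟩ := good_cover hK hd h0 m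
    (ε := ε / (4 * (A:ℝ) ^ n)) (by positivity)
  -- the coefficient vector
  obtain ⟨c, hc1, hc2, hc3⟩ := exists_vector (ι := C) (fun q => cost d q.1) (fun q => cost_pos d q.1)
    (fun q' q => if rel m q'.1 q.1 then om else 0) (fun q' q => by split_ifs <;> simp [hom0])
    (by
      intro q
      have h1 : ∑ q' : C, (if rel m q'.1 q.1 then om else 0) * cost d q'.1
          = om * ∑ q' ∈ C.filter (fun q' => rel m q' q.1), cost d q' := by
        rw [Finset.sum_coe_sort C (fun q' => (if rel m q' q.1 then om else 0) * cost d q'),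
          Finset.sum_filter, Finset.mul_sum]
        refine Finset.sum_congr rfl fun q' _ => ?_
        split_ifs <;> simp
      rw [h1]
      have h2 := hCpack q.1 q.2 (C.filter (fun q' => rel m q' q.1))
        (fun q' hq' => Finset.mem_filter.1 hq')
      calc om * ∑ q' ∈ C.filter (fun q' => rel m q' q.1), cost d q'
          ≤ om * ((2:ℝ) ^ ((m:ℝ) * d) * cost d q.1) := by gcongr
        _ = (om * (2:ℝ) ^ ((m:ℝ) * d)) * cost d q.1 := by ring
        _ ≤ 1/2 * cost d q.1 := by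
            gcongr
            exact (cost_pos d q.1).le)
  refine ⟨C × (Fin n → Fin A), Finset.univ, fun qr => 2 * c qr.1 * ((A:ℝ) ^ n)⁻¹,
    fun qr => hv (inw m qr.1.1.2) qr.2, fun qr => corner qr.1.1.1 qr.1.1.2, fun qr => qr.1.1.1,
    ?_, ?_, comb_compact _ _ _ _ _ _, ?_, ?_⟩
  · intro k _
    exact Finset.mem_image.2 ⟨(inw m k.1.1.2, k.2), Finset.mem_univ _, rfl⟩
  · -- cost
    rw [← Finset.univ_product_univ, Finset.sum_product]
    have h1 : ∀ q : C, ∑ r : Fin n → Fin A, |2 * c q * ((A:ℝ) ^ n)⁻¹| ^ p *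
        (2:ℝ) ^ (-((q.1.1 : ℝ) * d)) ≤ (A:ℝ) ^ n * (2 * (c q * cost d q.1)) := by
      intro q
      rw [Finset.sum_const, Finset.card_univ, Fintype.card_pi_const, Fintype.card_fin, nsmul_eq_mul]
      push_cast
      have hcq := hc1 q
      have h2 : |2 * c q * ((A:ℝ) ^ n)⁻¹| ^ p ≤ 2 * c q := by
        rw [abs_of_nonneg (by positivity)]
        have h3 : 2 * c q * ((A:ℝ) ^ n)⁻¹ ≤ 2 * c q := by
          calc 2 * c q * ((A:ℝ) ^ n)⁻¹ ≤ 2 * c q * 1 := by
                gcongr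
                exact inv_le_one_of_one_le₀ hAR1
            _ = _ := mul_one _
        calc (2 * c q * ((A:ℝ) ^ n)⁻¹) ^ p ≤ (2 * c q) ^ p :=
              Real.rpow_le_rpow (by positivity) h3 hp.le
          _ ≤ (2 * c q) ^ (1:ℝ) := Real.rpow_le_rpow_of_exponent_le (by linarith) hp1
          _ = _ := Real.rpow_one _
      have h4 : (2:ℝ) ^ (-((q.1.1 : ℝ) * d)) = cost d q.1 := rfl
      rw [h4]
      have := (cost_pos d q.1).le
      calc (A:ℝ) ^ n * (|2 * c q * ((A:ℝ) ^ n)⁻¹| ^ p * cost d q.1)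
          ≤ (A:ℝ) ^ n * ((2 * c q) * cost d q.1) := by gcongr
        _ = _ := by ring
    refine (Finset.sum_le_sum fun q _ => h1 q).trans ?_
    rw [← Finset.mul_sum, ← Finset.mul_sum]
    have h5 : ∑ q : C, cost d q.1 < ε / (4 * (A:ℝ) ^ n) := by
      rw [Finset.sum_coe_sort C (cost d)]; exact hCcost
    calc (A:ℝ) ^ n * (2 * ∑ q : C, c q * cost d q.1)
        ≤ (A:ℝ) ^ n * (2 * (2 * ∑ q : C, cost d q.1)) := by gcongr
      _ ≤ (A:ℝ) ^ n * (2 * (2 * (ε / (4 * (A:ℝ) ^ n)))) := by gcongr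
      _ = ε := by field_simp; ring
  · intro x
    rw [comb_apply hDe, Complex.ofReal_im]
  · intro x hx
    rw [comb_apply hDe, Complex.ofReal_re]
    rw [← Finset.univ_product_univ, Finset.sum_product]
    simp only
    obtain ⟨q₀, hq₀, hxq⟩ := hCcov x hx
    have hs : ∀ q : C, (0:ℝ) < ((2:ℝ) ^ (q.1.1))⁻¹ := fun q => by positivity
    have h1 : ∀ q : C, ∑ r : Fin n → Fin A, 2 * c q * ((A:ℝ) ^ n)⁻¹ *
        (blk (bumpS n) (hv (inw m q.1.2) r) D (corner q.1.1 q.1.2) (((2:ℝ) ^ (q.1.1))⁻¹) (hs q) x).re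
        ≥ 2 * c q * (bump n ((((2:ℝ) ^ q.1.1)⁻¹)⁻¹ • (x - corner q.1.1 q.1.2)) -
          (if rel m q₀ q.1 then om else 0)) := by
      intro q
      have h2 := comp_bound (A := A) (by omega) hm1 (hCm q.1 q.2) hAm hDe q.1.2 x (hs q)
      have h3 : (if dy (q.1.1 - m) x = dy (q.1.1 - m) (corner q.1.1 q.1.2) then
          ((A:ℝ) ^ n)⁻¹ * (2 ^ D * (2 * ((n:ℝ) + 2)) ^ n) else 0) ≤
          (if rel m q₀ q.1 then om else 0) := by
        by_cases hr : dy (q.1.1 - m) x = dy (q.1.1 - m) (corner q.1.1 q.1.2)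
        · rw [if_pos hr, if_pos (show rel m q₀ q.1 from ⟨x, hxq, hr⟩)]
        · rw [if_neg hr]
          split_ifs
          · exact hom0
          · exact le_rfl
      have h4 := (abs_le.1 (h2.trans h3)).1
      have hcq := hc1 q
      have h5 : ∑ r : Fin n → Fin A, 2 * c q * ((A:ℝ) ^ n)⁻¹ *
        (blk (bumpS n) (hv (inw m q.1.2) r) D (corner q.1.1 q.1.2) (((2:ℝ) ^ (q.1.1))⁻¹) (hs q) x).re
        = 2 * c q * ∑ r : Fin n → Fin A, ((A:ℝ) ^ n)⁻¹ *
        (blk (bumpS n) (hv (inw m q.1.2) r) D (corner q.1.1 q.1.2) (((2:ℝ) ^ (q.1.1))⁻¹) (hs q) x).re := by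
        rw [Finset.mul_sum]
        refine Finset.sum_congr rfl fun r _ => ?_
        ring
      rw [h5, ge_iff_le]
      gcongr
      linarith
    have h6 : (1:ℝ) ≤ ∑ q : C, 2 * c q * (bump n ((((2:ℝ) ^ q.1.1)⁻¹)⁻¹ • (x - corner q.1.1 q.1.2)) -
          (if rel m q₀ q.1 then om else 0)) := by
      have h7 := hc2 ⟨q₀, hq₀⟩
      have h8 : bump n ((((2:ℝ) ^ q₀.1)⁻¹)⁻¹ • (x - corner q₀.1 q₀.2)) = 1 := by
        apply bump_one
        rw [norm_smul, inv_inv, Real.norm_of_nonneg (by positivity)]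
        have h9 : ‖x - corner q₀.1 q₀.2‖ ≤ Real.sqrt n * (2:ℝ) ^ (-(q₀.1:ℝ)) := by
          rw [← dist_eq_norm]
          apply dist_le_of_dy_eq
          rw [dy_corner]; exact hxq
        have h10 : Real.sqrt n ≤ (n:ℝ) + 1 := by
          rw [Real.sqrt_le_left (by positivity)]
          nlinarith [Nat.cast_nonneg (α := ℝ) n]
        calc (2:ℝ) ^ q₀.1 * ‖x - corner q₀.1 q₀.2‖ ≤ (2:ℝ) ^ q₀.1 * (Real.sqrt n * (2:ℝ) ^ (-(q₀.1:ℝ))) := by
              gcongr
          _ = Real.sqrt n := by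
              rw [Real.rpow_neg (by norm_num), Real.rpow_natCast]; field_simp
          _ ≤ _ := h10
      have h11 : ∑ q : C, 2 * c q * bump n ((((2:ℝ) ^ q.1.1)⁻¹)⁻¹ • (x - corner q.1.1 q.1.2))
          ≥ 2 * c ⟨q₀, hq₀⟩ := by
        have := Finset.single_le_sum (f := fun q : C => 2 * c q *
          bump n ((((2:ℝ) ^ q.1.1)⁻¹)⁻¹ • (x - corner q.1.1 q.1.2)))
          (fun q _ => by
            have := hc1 q
            have := (bump n).nonneg (x := (((2:ℝ) ^ q.1.1)⁻¹)⁻¹ • (x - corner q.1.1 q.1.2))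
            positivity) (Finset.mem_univ (⟨q₀, hq₀⟩ : C))
        simp only [h8, mul_one] at this
        exact this
      have h12 : ∑ q : C, 2 * c q * (bump n ((((2:ℝ) ^ q.1.1)⁻¹)⁻¹ • (x - corner q.1.1 q.1.2)) -
          (if rel m q₀ q.1 then om else 0)) =
          ∑ q : C, 2 * c q * bump n ((((2:ℝ) ^ q.1.1)⁻¹)⁻¹ • (x - corner q.1.1 q.1.2)) -
          2 * ∑ q : C, (if rel m q₀ q.1 then om else 0) * c q := by
        rw [Finset.mul_sum, ← Finset.sum_sub_distrib]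
        refine Finset.sum_congr rfl fun q _ => ?_
        ring
      rw [h12]
      simp only at h7
      linarith
    exact h6.trans (Finset.sum_le_sum fun q _ => h1 q)

end Pool.Agent.V8H56.BC
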