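import Mathlib

/-! Convolution estimates for kernels at a given scale (for MP_9b3711_an). -/

open MeasureTheory Set Filter SchwartzMap
open scoped ENNReal Topology SchwartzMap

namespace Pool.Agent.V8H56.BC

variable {n : ℕ}

/-- `q` is a kernel at scale `t`: bounds on derivatives of order up to `L` with decay `M`. -/
def Ker (n M L : ℕ) (A t : ℝ) (q : EuclideanSpace ℝ (Fin n) → ℂ) : Prop :=
  ∀ l ≤ L, ∀ z, t ^ (n + l) * (1 + ‖z‖ / t) ^ M * ‖iteratedFDeriv ℝ l q z‖ ≤ A

/-- `z ↦ ψ ((z - x₀)/s)` as a Schwartz function. -/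
noncomputable def aff (x₀ : EuclideanSpace ℝ (Fin n)) (s : ℝ) (hs : s ≠ 0)
    (ψ : 𝓢(EuclideanSpace ℝ (Fin n), ℂ)) : 𝓢(EuclideanSpace ℝ (Fin n), ℂ) :=
  compSubConstCLM ℂ x₀ (compCLMOfContinuousLinearEquiv ℂ
    (ContinuousLinearEquiv.smulLeft (Units.mk0 s⁻¹ (inv_ne_zero hs))) ψ)

@[simp] lemma aff_apply (x₀ : EuclideanSpace ℝ (Fin n)) (s : ℝ) (hs : s ≠ 0)
    (ψ : 𝓢(EuclideanSpace ℝ (Fin n), ℂ)) (z : EuclideanSpace ℝ (Fin n)) :
    aff x₀ s hs ψ z = ψ (s⁻¹ • (z - x₀)) := by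
  simp [aff]

/-- forward difference on Schwartz functions -/
noncomputable def dif (h : EuclideanSpace ℝ (Fin n)) (g : 𝓢(EuclideanSpace ℝ (Fin n), ℂ)) :
    𝓢(EuclideanSpace ℝ (Fin n), ℂ) := compSubConstCLM ℂ (-h) g - g

@[simp] lemma dif_apply (h : EuclideanSpace ℝ (Fin n)) (g : 𝓢(EuclideanSpace ℝ (Fin n), ℂ))
    (z : EuclideanSpace ℝ (Fin n)) : dif h g z = g (z + h) - g z := by
  simp [dif]

lemma dif_iterate_apply (h : EuclideanSpace ℝ (Fin n)) (D : ℕ) :
    ∀ (g : 𝓢(EuclideanSpace ℝ (Fin n), ℂ)) (z : EuclideanSpace ℝ (Fin n)),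
    (dif h)^[D] g z = (fwdDiff h)^[D] g z := by
  induction D with
  | zero => intro g z; rfl
  | succ D ih =>
    intro g z
    rw [Function.iterate_succ_apply, Function.iterate_succ_apply, ih]
    have : (⇑(dif h g)) = fwdDiff h g := by funext y; simp [fwdDiff]
    rw [this]

lemma dif_iterate_aff (h x₀ : EuclideanSpace ℝ (Fin n)) (s : ℝ) (hs : s ≠ 0) (D : ℕ) :
    ∀ (ψ : 𝓢(EuclideanSpace ℝ (Fin n), ℂ)),
    (dif (s • h))^[D] (aff x₀ s hs ψ) = aff x₀ s hs ((dif h)^[D] ψ) := by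
  induction D with
  | zero => intro g; rfl
  | succ D ih =>
    intro ψ
    rw [Function.iterate_succ_apply, Function.iterate_succ_apply, ← ih]
    congr 1
    ext z
    simp only [dif_apply, aff_apply]
    congr 2
    rw [add_sub_right_comm, smul_add, smul_smul, inv_mul_cancel₀ hs, one_smul]

/-- translation invariance moves differences to the kernel -/
lemma integral_dif (h x : EuclideanSpace ℝ (Fin n)) (D : ℕ) :
    ∀ (q g : 𝓢(EuclideanSpace ℝ (Fin n), ℂ)),
    ∫ z, q (x - z) * ((dif h)^[D] g) z = ∫ z, ((dif h)^[D] q) (x - z) * g z := by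
  have hint : ∀ (q g : 𝓢(EuclideanSpace ℝ (Fin n), ℂ)),
      Integrable (fun z => q (x - z) * g z) := by
    intro q g
    refine Integrable.bdd_mul (c := SchwartzMap.seminorm ℝ 0 0 q) g.integrable ?_ ?_
    · exact (q.continuous.comp (by fun_prop)).aestronglyMeasurable
    · exact Eventually.of_forall fun z => norm_le_seminorm ℝ q _
  have base : ∀ (q g : 𝓢(EuclideanSpace ℝ (Fin n), ℂ)),
      ∫ z, q (x - z) * (dif h g) z = ∫ z, (dif h q) (x - z) * g z := by
    intro q g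
    have h1 : ∫ z, q (x - z) * g (z + h) = ∫ z, q (x - z + h) * g z := by
      have := integral_add_right_eq_self (μ := volume) (fun z => q (x - z + h) * g z) h
      rw [← this]
      refine integral_congr_ae (Eventually.of_forall fun z => ?_)
      simp only
      congr 2
      abel
    have i1 : Integrable (fun z => q (x - z) * g (z + h)) := by
      have := hint q (compSubConstCLM ℂ (-h) g)
      simpa using this
    have i2 : Integrable (fun z => q (x - z + h) * g z) := by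
      have := hint (compSubConstCLM ℂ (-h) q) g
      simpa using this
    simp only [dif_apply, mul_sub, sub_mul]
    rw [integral_sub i1 (hint q g), integral_sub i2 (hint q g), h1]
  induction D with
  | zero => intro q g; rfl
  | succ D ih =>
    intro q g
    rw [Function.iterate_succ_apply', base, ih, ← Function.iterate_succ_apply]

/-- differences are controlled by derivatives -/
lemma dif_bound (h : EuclideanSpace ℝ (Fin n)) (D : ℕ) :
    ∀ (q : 𝓢(EuclideanSpace ℝ (Fin n), ℂ)) (w : EuclideanSpace ℝ (Fin n)) (B : ℝ),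
    (∀ θ ∈ Icc (0:ℝ) D, ‖iteratedFDeriv ℝ D q (w + θ • h)‖ ≤ B) →
    ‖((dif h)^[D] q) w‖ ≤ ‖h‖ ^ D * B := by
  induction D with
  | zero =>
    intro q w B hB
    have := hB 0 (by simp)
    simpa using this
  | succ D ih =>
    intro q w B hB
    rw [Function.iterate_succ_apply, pow_succ, mul_assoc]
    refine ih (dif h q) w (‖h‖ * B) fun θ hθ => ?_
    set y := w + θ • h with hy
    have hfun : (⇑(dif h q)) = (fun z => q (z + h)) - ⇑q := by
      funext z; simp
    have h1 : iteratedFDeriv ℝ D (dif h q) y = iteratedFDeriv ℝ D q (y + h) - iteratedFDeriv ℝ D q y := by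
      have hq1 : ContDiff ℝ D (fun z => q (z + h)) :=
        (q.smooth D).comp (contDiff_id.add contDiff_const)
      rw [hfun, iteratedFDeriv_sub hq1 (q.smooth D), Pi.sub_apply, iteratedFDeriv_comp_add_right]
    rw [h1]
    have hconv : Convex ℝ (segment ℝ y (y + h)) := convex_segment _ _
    have hd : ∀ x ∈ segment ℝ y (y+h), DifferentiableAt ℝ (iteratedFDeriv ℝ D q) x := by
      intro x _
      exact ((q.smooth (D+1)).differentiable_iteratedFDeriv (by exact_mod_cast Nat.lt_succ_self D)).differentiableAt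
    have hbd : ∀ x ∈ segment ℝ y (y+h), ‖fderiv ℝ (iteratedFDeriv ℝ D q) x‖ ≤ B := by
      intro x hx
      rw [norm_fderiv_iteratedFDeriv]
      obtain ⟨a, ha, rfl⟩ := (segment_eq_image' ℝ y (y+h) ▸ hx)
      have : y + a • (y + h - y) = w + (θ + a) • h := by
        rw [hy, add_smul]; simp; abel
      simp only [this]
      apply hB
      obtain ⟨h2, h3⟩ := hθ
      obtain ⟨h4, h5⟩ := ha
      constructor
      · linarith
      · push_cast; linarith
    have := hconv.norm_image_sub_le_of_norm_fderiv_le hd hbd (left_mem_segment ℝ _ _)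
      (right_mem_segment ℝ _ _)
    calc _ ≤ B * ‖y + h - y‖ := this
      _ = ‖h‖ * B := by simp [mul_comm]

/-- the constant `∫ (1+|w|)^{-(n+1)} dw` -/
noncomputable def Cn (n : ℕ) : ℝ := ∫ w : EuclideanSpace ℝ (Fin n), ((1 + ‖w‖) ^ (n + 1))⁻¹

lemma integrable_Cn : Integrable (fun w : EuclideanSpace ℝ (Fin n) => ((1 + ‖w‖) ^ (n + 1))⁻¹) := by
  have h := integrable_one_add_norm (E := EuclideanSpace ℝ (Fin n)) (μ := volume) (r := (n:ℝ) + 1)
    (by simp)
  refine h.congr (Eventually.of_forall fun x => ?_)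
  simp only
  rw [Real.rpow_neg (by positivity)]
  congr 1
  have : ((n:ℝ) + 1) = ((n + 1 : ℕ) : ℝ) := by push_cast; ring
  rw [this, Real.rpow_natCast]

lemma Cn_nonneg : 0 ≤ Cn n := integral_nonneg fun w => by positivity

lemma int_scale {g : EuclideanSpace ℝ (Fin n) → ℝ} (hg : Integrable g)
    (x : EuclideanSpace ℝ (Fin n)) {t : ℝ} (ht : 0 < t) :
    Integrable (fun z => (t ^ n)⁻¹ * g (t⁻¹ • (z - x))) ∧
      ∫ z, (t ^ n)⁻¹ * g (t⁻¹ • (z - x)) = ∫ z, g z := by
  constructor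
  · exact ((hg.comp_smul (inv_ne_zero ht.ne')).comp_sub_right x).const_mul _
  · rw [integral_const_mul, integral_sub_right_eq_self (fun z => g (t⁻¹ • z)) x,
      Measure.integral_comp_inv_smul]
    simp only [finrank_euclideanSpace, Fintype.card_fin, smul_eq_mul]
    rw [abs_of_pos (by positivity), ← mul_assoc, inv_mul_cancel₀ (by positivity), one_mul]

lemma int_scale' {g : EuclideanSpace ℝ (Fin n) → ℝ} (hg : Integrable g)
    (x : EuclideanSpace ℝ (Fin n)) {t : ℝ} (ht : 0 < t) :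
    Integrable (fun z => (t ^ n)⁻¹ * g (t⁻¹ • (x - z))) ∧
      ∫ z, (t ^ n)⁻¹ * g (t⁻¹ • (x - z)) = ∫ z, g z := by
  have h1 : ∀ z, g (t⁻¹ • (x - z)) = (fun w => g (-w)) (t⁻¹ • (z - x)) := by
    intro z; simp only; rw [← smul_neg, neg_sub]
  obtain ⟨h2, h3⟩ := int_scale hg.comp_neg x ht
  simp only [h1]
  refine ⟨h2, h3.trans ?_⟩
  exact integral_neg_eq_self g volume

/-- every Schwartz function is a kernel at scale one -/
lemma ker_of_schwartz (ψ : 𝓢(EuclideanSpace ℝ (Fin n), ℂ)) (M L : ℕ) :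
    ∃ A : ℝ, 0 ≤ A ∧ Ker n M L A 1 ψ := by
  refine ⟨2 ^ M * (Finset.Iic (M, L)).sup (fun m => SchwartzMap.seminorm ℝ m.1 m.2) ψ,
    by positivity, fun l hl z => ?_⟩
  have := one_add_le_sup_seminorm_apply (𝕜 := ℝ) (m := (M, L)) le_rfl hl ψ z
  simpa using this

lemma ker_nonneg {M L : ℕ} {A t : ℝ} (ht : 0 < t) {q : EuclideanSpace ℝ (Fin n) → ℂ}
    (h : Ker n M L A t q) : 0 ≤ A := by
  refine le_trans ?_ (h 0 (Nat.zero_le _) 0)
  positivity

/-- the elementary estimate for convolution with a block having vanishing moments -/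
lemma ce1 (ψ : 𝓢(EuclideanSpace ℝ (Fin n), ℂ)) (h : EuclideanSpace ℝ (Fin n)) (D : ℕ) :
    ∃ C : ℝ, 0 ≤ C ∧ ∀ (q : 𝓢(EuclideanSpace ℝ (Fin n), ℂ)) (A t s : ℝ) (hs : 0 < s)
      (x₀ x : EuclideanSpace ℝ (Fin n)), 0 < t → Ker n (2 * n + D + 1) D A t q →
      (1 + t / s + ‖x - x₀‖ / s) ^ (n + D) *
        ‖∫ z, q (x - z) * (aff x₀ s hs.ne' ((dif h)^[D] ψ)) z‖ ≤ C * A := by
  set M := 2 * n + D + 1 with hM
  obtain ⟨Cψ, hCψ0, hCψ⟩ := ker_of_schwartz ψ (M + n + 1) 0
  obtain ⟨CΨ, hCΨ0, hCΨ⟩ := ker_of_schwartz ((dif h)^[D] ψ) (n + D) 0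
  have hψ : ∀ y, ‖ψ y‖ ≤ Cψ * ((1 + ‖y‖) ^ (M + n + 1))⁻¹ := by
    intro y
    have := hCψ 0 le_rfl y
    simp only [one_pow, one_mul, div_one, norm_iteratedFDeriv_zero] at this
    rw [← div_eq_mul_inv, le_div_iff₀ (by positivity)]; linarith
  have hΨ : ∀ y, ‖((dif h)^[D] ψ) y‖ ≤ CΨ * ((1 + ‖y‖) ^ (n + D))⁻¹ := by
    intro y
    have := hCΨ 0 le_rfl y
    simp only [one_pow, one_mul, div_one, norm_iteratedFDeriv_zero] at this
    rw [← div_eq_mul_inv, le_div_iff₀ (by positivity)]; linarith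
  refine ⟨2 ^ (n + D) * (‖h‖ ^ D * (1 + D * ‖h‖) ^ M * Cψ * Cn n) + 2 ^ (n + D) * (CΨ * Cn n),
    by have := Cn_nonneg (n := n); positivity, ?_⟩
  intro q A t s hs x₀ x ht hq
  have hA := ker_nonneg ht hq
  have hCn := Cn_nonneg (n := n)
  set a := ‖x - x₀‖ with ha
  have ha0 : 0 ≤ a := norm_nonneg _
  rcases le_or_gt s t with hst | hst
  · -- large scale
    rw [← dif_iterate_aff, integral_dif]
    set K := s ^ (n + D) * ‖h‖ ^ D * A * (1 + D * ‖h‖) ^ M * Cψ *
      (t ^ (n + D) * (1 + a / t) ^ M)⁻¹ with hK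
    have hK0 : 0 ≤ K := by positivity
    have hpt : ∀ z, ‖((dif (s • h))^[D] q) (x - z) * (aff x₀ s hs.ne' ψ) z‖
        ≤ K * ((s ^ n)⁻¹ * ((1 + ‖s⁻¹ • (z - x₀)‖) ^ (n + 1))⁻¹) := by
      intro z
      rw [norm_mul, aff_apply]
      set y := s⁻¹ • (z - x₀) with hy
      have hyn : ‖z - x₀‖ = s * ‖y‖ := by
        rw [hy, norm_smul, norm_inv, Real.norm_of_nonneg hs.le]; field_simp
      have h1 : ‖((dif (s • h))^[D] q) (x - z)‖ ≤ ‖s • h‖ ^ D *
          (A * (t ^ (n + D))⁻¹ * (((1 + D * ‖h‖) * (1 + ‖y‖)) ^ M * ((1 + a / t) ^ M)⁻¹)) := by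
        apply dif_bound
        intro θ hθ
        set v := x - z + θ • (s • h) with hv
        have h2 := hq D le_rfl v
        have h3 : a ≤ ‖v‖ + s * ‖y‖ + D * (s * ‖h‖) := by
          have h4 : x - x₀ = v + (z - x₀) - θ • (s • h) := by rw [hv]; abel
          rw [ha, h4]
          refine (norm_sub_le _ _).trans ?_
          refine add_le_add ((norm_add_le _ _).trans (by rw [hyn])) ?_
          rw [norm_smul, norm_smul, Real.norm_of_nonneg hθ.1, Real.norm_of_nonneg hs.le]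
          have := hθ.2
          gcongr
        have h5 : 1 + a / t ≤ (1 + ‖v‖ / t) * ((1 + D * ‖h‖) * (1 + ‖y‖)) := by
          have h6 : a / t ≤ ‖v‖ / t + ‖y‖ + D * ‖h‖ := by
            rw [div_le_iff₀ ht]
            have e1 : (‖v‖ / t + ‖y‖ + D * ‖h‖) * t = ‖v‖ + t * ‖y‖ + D * (t * ‖h‖) := by
              field_simp
            rw [e1]
            refine h3.trans ?_
            gcongr
          have h7 : (0:ℝ) ≤ ‖v‖ / t := by positivity
          have h8 : (0:ℝ) ≤ D * ‖h‖ := by positivity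
          have h9 := norm_nonneg y
          nlinarith [mul_nonneg h7 h8, mul_nonneg h7 h9, mul_nonneg h8 h9,
            mul_nonneg (mul_nonneg h7 h8) h9]
        have h10 : ‖iteratedFDeriv ℝ D q v‖ ≤ A * (t ^ (n + D))⁻¹ * ((1 + ‖v‖ / t) ^ M)⁻¹ := by
          rw [mul_assoc, ← mul_inv, ← div_eq_mul_inv, le_div_iff₀ (by positivity)]
          linarith
        refine h10.trans ?_
        gcongr
        rw [← div_eq_mul_inv, le_div_iff₀ (by positivity), inv_mul_le_iff₀ (by positivity), ← mul_pow]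
        gcongr
      calc ‖((dif (s • h))^[D] q) (x - z)‖ * ‖ψ y‖
          ≤ (‖s • h‖ ^ D * (A * (t ^ (n + D))⁻¹ * (((1 + D * ‖h‖) * (1 + ‖y‖)) ^ M *
              ((1 + a / t) ^ M)⁻¹))) * (Cψ * ((1 + ‖y‖) ^ (M + n + 1))⁻¹) := by
            gcongr
            exact hψ y
        _ = K * ((s ^ n)⁻¹ * ((1 + ‖y‖) ^ (n + 1))⁻¹) := by
            rw [hK, norm_smul, Real.norm_of_nonneg hs.le, mul_pow, mul_pow]
            have : (0:ℝ) < 1 + ‖y‖ := by positivity
            have : (0:ℝ) < 1 + a / t := by positivity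
            field_simp
            ring
    obtain ⟨hi1, hi2⟩ := int_scale (integrable_Cn (n := n)) x₀ hs
    have hnorm : ‖∫ z, ((dif (s • h))^[D] q) (x - z) * (aff x₀ s hs.ne' ψ) z‖ ≤ K * Cn n := by
      refine (norm_integral_le_of_norm_le (hi1.const_mul K) (Eventually.of_forall hpt)).trans ?_
      rw [integral_const_mul, hi2, Cn]
    have hW : (1 + t / s + a / s) ≤ 2 * ((t / s) * (1 + a / t)) := by
      have e1 : 2 * ((t / s) * (1 + a / t)) = 2 * (t / s) + 2 * (a / s) := by field_simp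
      rw [e1]
      have e2 : 1 ≤ t / s := by rw [le_div_iff₀ hs]; linarith
      have e3 : 0 ≤ a / s := by positivity
      linarith
    calc (1 + t / s + a / s) ^ (n + D) * ‖∫ z, ((dif (s • h))^[D] q) (x - z) * (aff x₀ s hs.ne' ψ) z‖
        ≤ (2 * ((t / s) * (1 + a / t))) ^ (n + D) * (K * Cn n) := by gcongr
      _ = (2 ^ (n + D) * (‖h‖ ^ D * (1 + D * ‖h‖) ^ M * Cψ * Cn n)) * A *
            ((1 + a / t) ^ (n + D) * ((1 + a / t) ^ M)⁻¹) := by
          rw [hK, mul_pow, mul_pow, div_pow]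
          have : (0:ℝ) < 1 + a / t := by positivity
          field_simp
      _ ≤ (2 ^ (n + D) * (‖h‖ ^ D * (1 + D * ‖h‖) ^ M * Cψ * Cn n)) * A * 1 := by
          gcongr
          rw [← div_eq_mul_inv, div_le_one (by positivity)]
          apply pow_le_pow_right₀
          · have : 0 ≤ a / t := by positivity
            linarith
          · omega
      _ ≤ _ := by
          rw [mul_one]
          gcongr
          have : 0 ≤ 2 ^ (n + D) * (CΨ * Cn n) := by positivity
          linarith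
  · -- small scale
    set K := A * CΨ * ((1 + a / s) ^ (n + D))⁻¹ with hK
    have hK0 : 0 ≤ K := by positivity
    have hpt : ∀ z, ‖q (x - z) * (aff x₀ s hs.ne' ((dif h)^[D] ψ)) z‖
        ≤ K * ((t ^ n)⁻¹ * ((1 + ‖t⁻¹ • (x - z)‖) ^ (n + 1))⁻¹) := by
      intro z
      rw [norm_mul, aff_apply]
      set y := s⁻¹ • (z - x₀) with hy
      have hyn : ‖z - x₀‖ = s * ‖y‖ := by
        rw [hy, norm_smul, norm_inv, Real.norm_of_nonneg hs.le]; field_simp
      have htn : ‖t⁻¹ • (x - z)‖ = ‖x - z‖ / t := by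
        rw [norm_smul, norm_inv, Real.norm_of_nonneg ht.le]; field_simp
      rw [htn]
      have h2 := hq 0 (Nat.zero_le _) (x - z)
      simp only [add_zero, norm_iteratedFDeriv_zero] at h2
      have h3 : a ≤ ‖x - z‖ + s * ‖y‖ := by
        rw [ha, ← hyn]
        have : x - x₀ = (x - z) + (z - x₀) := by abel
        rw [this]; exact norm_add_le _ _
      have h5 : 1 + a / s ≤ (1 + ‖x - z‖ / t) * (1 + ‖y‖) := by
        have h6 : a / s ≤ ‖x - z‖ / s + ‖y‖ := by
          rw [div_le_iff₀ hs]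
          have e1 : (‖x - z‖ / s + ‖y‖) * s = ‖x - z‖ + s * ‖y‖ := by field_simp
          rw [e1]; exact h3
        have h7 : ‖x - z‖ / s ≤ ‖x - z‖ / t := by gcongr
        have h8 : 0 ≤ ‖x - z‖ / t := by positivity
        have h9 := norm_nonneg y
        nlinarith [mul_nonneg h8 h9]
      have h10 : ‖q (x - z)‖ ≤ A * (t ^ n)⁻¹ * ((1 + ‖x - z‖ / t) ^ M)⁻¹ := by
        rw [mul_assoc, ← mul_inv, ← div_eq_mul_inv, le_div_iff₀ (by positivity)]
        linarith
      calc ‖q (x - z)‖ * ‖((dif h)^[D] ψ) y‖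
          ≤ (A * (t ^ n)⁻¹ * ((1 + ‖x - z‖ / t) ^ M)⁻¹) * (CΨ * ((1 + ‖y‖) ^ (n + D))⁻¹) := by
            gcongr
            exact hΨ y
        _ = A * CΨ * ((t ^ n)⁻¹ * ((1 + ‖x - z‖ / t) ^ (n + 1))⁻¹) *
              (((1 + ‖x - z‖ / t) * (1 + ‖y‖)) ^ (n + D))⁻¹ := by
            have : M = (n + 1) + (n + D) := by omega
            rw [this, pow_add _ (n+1) (n+D), mul_pow]
            field_simp
        _ ≤ A * CΨ * ((t ^ n)⁻¹ * ((1 + ‖x - z‖ / t) ^ (n + 1))⁻¹) *
              ((1 + a / s) ^ (n + D))⁻¹ := by gcongr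
        _ = _ := by rw [hK]; ring
    obtain ⟨hi1, hi2⟩ := int_scale' (integrable_Cn (n := n)) x ht
    have hnorm : ‖∫ z, q (x - z) * (aff x₀ s hs.ne' ((dif h)^[D] ψ)) z‖ ≤ K * Cn n := by
      refine (norm_integral_le_of_norm_le (hi1.const_mul K) (Eventually.of_forall hpt)).trans ?_
      rw [integral_const_mul, hi2, Cn]
    have hW : (1 + t / s + a / s) ≤ 2 * (1 + a / s) := by
      have e2 : t / s ≤ 1 := by rw [div_le_one hs]; exact hst.le
      have e3 : 0 ≤ a / s := by positivity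
      linarith
    calc (1 + t / s + a / s) ^ (n + D) * ‖∫ z, q (x - z) * (aff x₀ s hs.ne' ((dif h)^[D] ψ)) z‖
        ≤ (2 * (1 + a / s)) ^ (n + D) * (K * Cn n) := by gcongr
      _ = 2 ^ (n + D) * (CΨ * Cn n) * A := by
          rw [hK, mul_pow]
          have : (0:ℝ) < 1 + a / s := by positivity
          field_simp
      _ ≤ _ := by
          gcongr
          have : 0 ≤ 2 ^ (n + D) * (‖h‖ ^ D * (1 + D * ‖h‖) ^ M * Cψ * Cn n) := by positivity
          linarith

end Pool.Agent.V8H56.BC
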