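import Pool.Agent.V8H56.BC.Conv

/-! Convolution estimates, second part (for MP_9b3711_an). -/

open MeasureTheory Set Filter SchwartzMap FourierTransform
open scoped ENNReal Topology SchwartzMap Convolution

namespace Pool.Agent.V8H56.BC

variable {n : ℕ}

lemma ker_mono {M M' L L' : ℕ} {A t : ℝ} (ht : 0 < t) {q : EuclideanSpace ℝ (Fin n) → ℂ}
    (h : Ker n M L A t q) (hM : M' ≤ M) (hL : L' ≤ L) : Ker n M' L' A t q := by
  intro l hl z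
  refine le_trans ?_ (h l (hl.trans hL) z)
  gcongr
  have : 0 ≤ ‖z‖ / t := by positivity
  linarith

/-- convolution with a kernel of smaller scale preserves weighted bounds -/
lemma ce2 (m : ℕ) {q : 𝓢(EuclideanSpace ℝ (Fin n), ℂ)} {A a : ℝ} (ha : 0 < a)
    (hq : Ker n (m + n + 1) 0 A a q) {g : EuclideanSpace ℝ (Fin n) → ℂ} {B τ s : ℝ}
    (hs : 0 < s) (hτ : 0 ≤ τ) (haτ : a ≤ τ + s) (x₀ : EuclideanSpace ℝ (Fin n))
    (hg : ∀ z, (1 + τ / s + ‖z - x₀‖ / s) ^ m * ‖g z‖ ≤ B) (x : EuclideanSpace ℝ (Fin n)) :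
    (1 + τ / s + ‖x - x₀‖ / s) ^ m * ‖∫ z, q (x - z) * g z‖ ≤ Cn n * (A * B) := by
  have hA := ker_nonneg ha hq
  have hB : 0 ≤ B := le_trans (by positivity) (hg 0)
  set W := 1 + τ / s + ‖x - x₀‖ / s with hW
  have hW0 : 0 < W := by positivity
  have hpt : ∀ z, ‖q (x - z) * g z‖ ≤
      (A * B * (W ^ m)⁻¹) * ((a ^ n)⁻¹ * ((1 + ‖a⁻¹ • (x - z)‖) ^ (n + 1))⁻¹) := by
    intro z
    have han : ‖a⁻¹ • (x - z)‖ = ‖x - z‖ / a := by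
      rw [norm_smul, norm_inv, Real.norm_of_nonneg ha.le]; field_simp
    rw [norm_mul, han]
    have h2 := hq 0 le_rfl (x - z)
    simp only [add_zero, norm_iteratedFDeriv_zero] at h2
    set Z := 1 + τ / s + ‖z - x₀‖ / s with hZ
    have hZ0 : 0 < Z := by positivity
    have h10 : ‖q (x - z)‖ ≤ A * (a ^ n)⁻¹ * ((1 + ‖x - z‖ / a) ^ (m + n + 1))⁻¹ := by
      rw [mul_assoc, ← mul_inv, ← div_eq_mul_inv, le_div_iff₀ (by positivity)]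
      linarith
    have h11 : ‖g z‖ ≤ B * (Z ^ m)⁻¹ := by
      rw [← div_eq_mul_inv, le_div_iff₀ (by positivity)]
      linarith [hg z]
    have h5 : W ≤ (1 + ‖x - z‖ / a) * Z := by
      have h6 : ‖x - x₀‖ ≤ ‖x - z‖ + ‖z - x₀‖ := by
        have : x - x₀ = (x - z) + (z - x₀) := by abel
        rw [this]; exact norm_add_le _ _
      have h7 : ‖x - x₀‖ / s ≤ ‖x - z‖ / s + ‖z - x₀‖ / s := by
        rw [← add_div]; gcongr
      have h8 : ‖x - z‖ / s ≤ ‖x - z‖ / a * (1 + τ / s) := by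
        have e1 : ‖x - z‖ / a * (1 + τ / s) = ‖x - z‖ * ((τ + s) / (a * s)) := by
          field_simp
          ring
        have e2 : ‖x - z‖ / s = ‖x - z‖ * (a / (a * s)) := by
          field_simp
        rw [e1, e2]
        gcongr
      have h9 : 0 ≤ ‖x - z‖ / a * (‖z - x₀‖ / s) := by positivity
      have e3 : (1 + ‖x - z‖ / a) * Z = Z + ‖x - z‖ / a * (1 + τ / s) + ‖x - z‖ / a * (‖z - x₀‖ / s) := by
        rw [hZ]; ring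
      rw [e3, hW, hZ]
      linarith
    calc ‖q (x - z)‖ * ‖g z‖
        ≤ (A * (a ^ n)⁻¹ * ((1 + ‖x - z‖ / a) ^ (m + n + 1))⁻¹) * (B * (Z ^ m)⁻¹) := by gcongr
      _ = A * B * ((a ^ n)⁻¹ * ((1 + ‖x - z‖ / a) ^ (n + 1))⁻¹) *
            (((1 + ‖x - z‖ / a) * Z) ^ m)⁻¹ := by
          rw [add_assoc, pow_add _ m (n+1), mul_pow]
          field_simp
      _ ≤ A * B * ((a ^ n)⁻¹ * ((1 + ‖x - z‖ / a) ^ (n + 1))⁻¹) * (W ^ m)⁻¹ := by gcongr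
      _ = _ := by ring
  obtain ⟨hi1, hi2⟩ := int_scale' (integrable_Cn (n := n)) x ha
  have hnorm : ‖∫ z, q (x - z) * g z‖ ≤ (A * B * (W ^ m)⁻¹) * Cn n := by
    refine (norm_integral_le_of_norm_le (hi1.const_mul _) (Eventually.of_forall hpt)).trans ?_
    rw [integral_const_mul, hi2, Cn]
  calc W ^ m * ‖∫ z, q (x - z) * g z‖ ≤ W ^ m * ((A * B * (W ^ m)⁻¹) * Cn n) := by gcongr
    _ = Cn n * (A * B) := by field_simp

/-- convolution of Schwartz functions -/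
noncomputable def cS (q u : 𝓢(EuclideanSpace ℝ (Fin n), ℂ)) : 𝓢(EuclideanSpace ℝ (Fin n), ℂ) :=
  SchwartzMap.convolution (ContinuousLinearMap.mul ℂ ℂ) q u

lemma cS_apply (q u : 𝓢(EuclideanSpace ℝ (Fin n), ℂ)) (x : EuclideanSpace ℝ (Fin n)) :
    cS q u x = ∫ z, q (x - z) * u z := by
  rw [cS, SchwartzMap.convolution_apply]
  rw [convolution_eq_swap]
  simp

lemma fourier_cS (q u : 𝓢(EuclideanSpace ℝ (Fin n), ℂ)) (ξ : EuclideanSpace ℝ (Fin n)) :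
    𝓕 (cS q u) ξ = 𝓕 q ξ * 𝓕 u ξ := by
  rw [cS, SchwartzMap.fourier_convolution]
  simp

lemma eq_of_fourier_eq {u v : 𝓢(EuclideanSpace ℝ (Fin n), ℂ)} (h : ∀ ξ, 𝓕 u ξ = 𝓕 v ξ) : u = v := by
  have h1 : 𝓕 u = 𝓕 v := by ext ξ; exact h ξ
  have h2 : 𝓕⁻ (𝓕 u) = 𝓕⁻ (𝓕 v) := by rw [h1]
  simpa using h2

lemma cS_swap (q₁ q₂ u : 𝓢(EuclideanSpace ℝ (Fin n), ℂ)) : cS q₁ (cS q₂ u) = cS q₂ (cS q₁ u) := by
  apply eq_of_fourier_eq
  intro ξ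
  simp only [fourier_cS]
  ring

/-- the main estimate: two kernels applied to a block -/
lemma ce3 (ψ : 𝓢(EuclideanSpace ℝ (Fin n), ℂ)) (h : EuclideanSpace ℝ (Fin n)) (D : ℕ) :
    ∃ C : ℝ, 0 ≤ C ∧ ∀ (q₁ q₂ : 𝓢(EuclideanSpace ℝ (Fin n), ℂ)) (A₁ A₂ a b s : ℝ) (hs : 0 < s)
      (x₀ x : EuclideanSpace ℝ (Fin n)), 0 < a → 0 < b → Ker n (2 * n + D + 1) D A₁ a q₁ →
      Ker n (2 * n + D + 1) D A₂ b q₂ →
      (1 + max a b / s + ‖x - x₀‖ / s) ^ (n + D) *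
        ‖cS q₁ (cS q₂ (aff x₀ s hs.ne' ((dif h)^[D] ψ))) x‖ ≤ C * (A₁ * A₂) := by
  obtain ⟨C, hC0, hC⟩ := ce1 ψ h D
  have main : ∀ (q₁ q₂ : 𝓢(EuclideanSpace ℝ (Fin n), ℂ)) (A₁ A₂ a b s : ℝ) (hs : 0 < s)
      (x₀ x : EuclideanSpace ℝ (Fin n)), 0 < a → 0 < b → a ≤ b → Ker n (2 * n + D + 1) D A₁ a q₁ →
      Ker n (2 * n + D + 1) D A₂ b q₂ →
      (1 + b / s + ‖x - x₀‖ / s) ^ (n + D) *
        ‖cS q₁ (cS q₂ (aff x₀ s hs.ne' ((dif h)^[D] ψ))) x‖ ≤ Cn n * C * (A₁ * A₂) := by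
    intro q₁ q₂ A₁ A₂ a b s hs x₀ x ha hb hab h1 h2
    rw [cS_apply]
    have h3 : Ker n ((n + D) + n + 1) 0 A₁ a q₁ := ker_mono ha h1 (by omega) (Nat.zero_le _)
    have := ce2 (n + D) ha h3 (g := cS q₂ (aff x₀ s hs.ne' ((dif h)^[D] ψ))) (B := C * A₂)
      (τ := b) hs hb.le (by linarith) x₀ (fun z => by
        rw [cS_apply]
        exact hC q₂ A₂ b s hs x₀ z hb h2) x
    calc _ ≤ Cn n * (A₁ * (C * A₂)) := this
      _ = _ := by ring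
  refine ⟨Cn n * C, mul_nonneg Cn_nonneg hC0, ?_⟩
  intro q₁ q₂ A₁ A₂ a b s hs x₀ x ha hb h1 h2
  rcases le_total a b with hab | hab
  · rw [max_eq_right hab]
    exact main q₁ q₂ A₁ A₂ a b s hs x₀ x ha hb hab h1 h2
  · rw [max_eq_left hab, cS_swap]
    rw [mul_comm A₁ A₂]
    exact main q₂ q₁ A₂ A₁ b a s hs x₀ x hb ha hab h2 h1

end Pool.Agent.V8H56.BC
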