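import Pool.Agent.V8H56.BC.LowerC
import Pool.Agent.V8H56.BC.Construct3

/-! Null sets of the Besov and Hardy-Bessel capacities (for MP_9b3711_an). -/

open MeasureTheory Set Filter SchwartzMap FourierTransform
open scoped ENNReal NNReal Topology SchwartzMap Convolution ContDiff Real

namespace Pool.Agent.V8H56.BC

variable {n : ℕ}

lemma sum_ofReal_le {ι : Type} (I : Finset ι) (F : ι → ℝ) (hF : ∀ k, 0 ≤ F k) {δ : ℝ}
    (h : ∑ k ∈ I, F k ≤ δ) : ∑ k ∈ I, ENNReal.ofReal (F k) ≤ ENNReal.ofReal δ := by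
  rw [← ENNReal.ofReal_sum_of_nonneg fun k _ => hF k]
  exact ENNReal.ofReal_le_ofReal h

lemma eq_zero_of_le_mul {x C : ℝ≥0∞} (hC : C ≠ ⊤)
    (h : ∀ δ : ℝ, 0 < δ → x ≤ C * ENNReal.ofReal δ) : x = 0 := by
  refine le_antisymm (ENNReal.le_of_forall_pos_le_add fun ε hε _ => ?_) zero_le
  rw [zero_add]
  have hC1 : C + 1 ≠ ⊤ := by finiteness
  have hpos : 0 < (ε / (C + 1)).toReal :=
    ENNReal.toReal_pos (ENNReal.div_pos (by exact_mod_cast hε.ne') hC1).ne'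
      (ENNReal.div_ne_top (by finiteness) (by simp))
  refine (h _ hpos).trans ?_
  rw [ENNReal.ofReal_toReal (ENNReal.div_ne_top (by finiteness) (by simp))]
  calc C * (ε / (C + 1)) ≤ (C + 1) * (ε / (C + 1)) := by gcongr; exact le_self_add
    _ ≤ _ := ENNReal.mul_div_le

theorem besov_upper {φ : EuclideanSpace ℝ (Fin n) → ℝ} (hφ : IsCutoff φ) {α p : ℝ} (hα : 0 < α)
    (hp : 0 < p) (hp1 : p ≤ 1) {𝒟 : Set 𝓢(EuclideanSpace ℝ (Fin n), ℂ)}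
    (h𝒟 : ∀ u : 𝓢(EuclideanSpace ℝ (Fin n), ℂ), HasCompactSupport u → (∀ x, (u x).im = 0) → u ∈ 𝒟)
    {D : ℕ} (hDe : Even D) (hD : (n:ℝ) < ((n + D : ℕ) : ℝ) * p)
    {K : Set (EuclideanSpace ℝ (Fin n))} (hK : IsCompact K) (hαp : α * p < n)
    (h0 : μH[n - α * p] K = 0) : besovCap φ α p 𝒟 K = 0 := by
  obtain ⟨Hs, hHs⟩ := exists_comb hK (d := n - α * p) (by linarith)
    (by have : 0 < α * p := by positivity
        linarith) h0 hDe hp hp1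
  obtain ⟨C, hC, hbes⟩ := besov_blocks hφ hα hp hp1 (bumpS n) D hD Hs
  refine eq_zero_of_le_mul hC fun δ hδ => ?_
  obtain ⟨ι, I, a, h, x₀, i, h1, h2, h3, h4, h5⟩ := hHs δ hδ
  unfold besovCap
  refine iInf₂_le_of_le (comb (bumpS n) D I a h x₀ i) (h𝒟 _ h3 h4) ?_
  refine iInf₂_le_of_le h4 h5 ?_
  refine (hbes ι I a h x₀ i h1).trans ?_
  gcongr
  exact sum_ofReal_le I _ (fun k => by positivity) h2

theorem hardy_upper {φ : EuclideanSpace ℝ (Fin n) → ℝ} (hφ : IsCutoff φ) {α p : ℝ} (hα : 0 < α)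
    (hp : 0 < p) (hp1 : p ≤ 1) {D : ℕ} (hDe : Even D) (hD : (n:ℝ) < ((n + D : ℕ) : ℝ) * p)
    {N : ℕ} (hN : 2 * n + D + 1 ≤ N) (T : ℝ≥0∞)
    {K : Set (EuclideanSpace ℝ (Fin n))} (hK : IsCompact K) (hαp : α * p < n)
    (h0 : μH[n - α * p] K = 0) : hardyCap N T α p K = 0 := by
  obtain ⟨Hs, hHs⟩ := exists_comb hK (d := n - α * p) (by linarith)
    (by have : 0 < α * p := by positivity
        linarith) h0 hDe hp hp1
  obtain ⟨C, hC, hhar⟩ := hardy_blocks hφ hα hp hp1 (bumpS n) D hD Hs hN T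
  refine eq_zero_of_le_mul hC fun δ hδ => ?_
  obtain ⟨ι, I, a, h, x₀, i, h1, h2, h3, h4, h5⟩ := hHs δ hδ
  set v := comb (bumpS n) D I a h x₀ i with hv
  unfold hardyCap
  refine iInf₂_le_of_le (jup α v : 𝓢'(EuclideanSpace ℝ (Fin n), ℂ)) (fun x => (v x).re) ?_
  refine iInf₂_le_of_le (Complex.reCLM.contDiff.comp v.smooth') (fun g _ => ?_) ?_
  · rw [besselPot_jup, SchwartzMap.coe_apply]
    refine integral_congr_ae (Eventually.of_forall fun x => ?_)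
    have h6 : ((v x).re : ℂ) = v x := by
      apply Complex.ext
      · simp
      · simp [h4 x]
    simp only [smul_eq_mul, h6]
    ring
  · refine iInf_le_of_le h5 ?_
    refine (hhar ι I a h x₀ i h1).trans ?_
    gcongr
    exact sum_ofReal_le I _ (fun k => by positivity) h2

lemma besovCap_empty {φ : EuclideanSpace ℝ (Fin n) → ℝ} {α p : ℝ} (hp : 0 < p)
    {𝒟 : Set 𝓢(EuclideanSpace ℝ (Fin n), ℂ)}
    (h𝒟 : ∀ u : 𝓢(EuclideanSpace ℝ (Fin n), ℂ), HasCompactSupport u → (∀ x, (u x).im = 0) → u ∈ 𝒟) :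
    besovCap φ α p 𝒟 ∅ = 0 := by
  refine le_antisymm ?_ zero_le
  unfold besovCap
  refine iInf₂_le_of_le 0 (h𝒟 _ ?_ (by simp)) ?_
  · exact HasCompactSupport.zero
  refine iInf₂_le_of_le (by simp) (by simp) ?_
  unfold besovPow
  simp [hp]

lemma hardyCap_empty {N : ℕ} {T : ℝ≥0∞} {α p : ℝ} (hp : 0 < p) :
    hardyCap N T α p (∅ : Set (EuclideanSpace ℝ (Fin n))) = 0 := by
  refine le_antisymm ?_ zero_le
  unfold hardyCap
  refine iInf₂_le_of_le 0 (fun _ => 0) ?_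
  refine iInf₂_le_of_le contDiff_const (fun g _ => ?_) ?_
  · unfold besselPot
    rw [map_zero]
    simp
  · refine iInf_le_of_le (by simp) ?_
    have h1 : ∀ x : EuclideanSpace ℝ (Fin n), grandMax N T
        (0 : 𝓢'(EuclideanSpace ℝ (Fin n), ℂ)) x = 0 := by
      intro x
      unfold grandMax
      refine le_antisymm (iSup₂_le fun ψ _ => ?_) zero_le
      have : (0 : 𝓢'(EuclideanSpace ℝ (Fin n), ℂ)) ψ = 0 := rfl
      rw [this]; simp
    simp [h1, hp]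

lemma exists_even (n : ℕ) {p : ℝ} (hp : 0 < p) (hp1 : p ≤ 1) (N : ℕ)
    (hN : (n:ℝ) + n / p + 3 ≤ N) :
    ∃ D : ℕ, Even D ∧ (n:ℝ) < ((n + D : ℕ) : ℝ) * p ∧ 2 * n + D + 1 ≤ N := by
  have h0 : 0 ≤ (n:ℝ) / p - n := by
    rw [sub_nonneg, le_div_iff₀ hp]
    nlinarith [Nat.cast_nonneg (α := ℝ) n]
  set k := ⌊((n:ℝ) / p - n) / 2⌋₊ with hk
  have h1 : ((n:ℝ) / p - n) / 2 < k + 1 := Nat.lt_floor_add_one _
  have h2 : (k:ℝ) ≤ ((n:ℝ) / p - n) / 2 := Nat.floor_le (by linarith)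
  refine ⟨2 * (k + 1), even_two_mul _, ?_, ?_⟩
  · rw [← div_lt_iff₀ hp]; push_cast; linarith
  · have h3 : ((2 * n + 2 * (k + 1) + 1 : ℕ) : ℝ) ≤ N := by push_cast; linarith
    exact_mod_cast h3

/-- null sets of the two capacities -/
theorem main {φ : EuclideanSpace ℝ (Fin n) → ℝ} (hφ : IsCutoff φ) {α p : ℝ} (hα : 0 < α)
    (hp : 0 < p) (hp1 : p ≤ 1) {𝒟 : Set 𝓢(EuclideanSpace ℝ (Fin n), ℂ)}
    (h𝒟 : ∀ u : 𝓢(EuclideanSpace ℝ (Fin n), ℂ), HasCompactSupport u → (∀ x, (u x).im = 0) → u ∈ 𝒟)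
    {N : ℕ} (hN : (n:ℝ) + n / p + 3 ≤ N) {T : ℝ≥0∞} (hT : 1 ≤ T)
    {K : Set (EuclideanSpace ℝ (Fin n))} (hK : IsCompact K) :
    (besovCap φ α p 𝒟 K = 0 ↔ hardyCap N T α p K = 0) ∧
    (α * p < n → (besovCap φ α p 𝒟 K = 0 ↔ μH[n - α * p] K = 0)) ∧
    (n ≤ α * p → (besovCap φ α p 𝒟 K = 0 ↔ K = ∅)) := by
  obtain ⟨D, hDe, hD, hDN⟩ := exists_even n hp hp1 N hN
  have hb := besov_lower hφ (α := α) hp hp1 𝒟 K
  have hh := hardy_lower hφ hα hp hp1 N hT K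
  rcases lt_or_ge (α * p) n with hαp | hαp
  · have hB : besovCap φ α p 𝒟 K = 0 ↔ μH[n - α * p] K = 0 :=
      ⟨fun h => (hb h).1 (by linarith), besov_upper hφ hα hp hp1 h𝒟 hDe hD hK hαp⟩
    have hH : hardyCap N T α p K = 0 ↔ μH[n - α * p] K = 0 :=
      ⟨fun h => (hh h).1 (by linarith), hardy_upper hφ hα hp hp1 hDe hD hDN T hK hαp⟩
    exact ⟨hB.trans hH.symm, fun _ => hB, fun h => absurd hαp (not_lt.2 h)⟩
  · have hB : besovCap φ α p 𝒟 K = 0 ↔ K = ∅ :=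
      ⟨fun h => (hb h).2 (by linarith), fun h => by rw [h]; exact besovCap_empty hp h𝒟⟩
    have hH : hardyCap N T α p K = 0 ↔ K = ∅ :=
      ⟨fun h => (hh h).2 (by linarith), fun h => by rw [h]; exact hardyCap_empty hp⟩
    exact ⟨hB.trans hH.symm, fun h => absurd h (not_lt.2 hαp), fun _ => hB⟩

end Pool.Agent.V8H56.BC
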