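import Pool.Agent.V8H56.BesovHardy
import Pool.Agent.V8H56.BC.Final

/-! Conversion between the definitions used in the statement and the working ones
(for MP_9b3711_an). -/

open MeasureTheory Set Filter SchwartzMap FourierTransform
open scoped ENNReal NNReal Topology SchwartzMap Convolution ContDiff Real

namespace Pool.Agent.V8H56.BC

variable {n : ℕ}

lemma cutoff_conv {φ : EuclideanSpace ℝ (Fin n) → ℝ} (h : BesovHardy.IsCutoff φ) : IsCutoff φ :=
  ⟨h.smooth, h.one, h.zero⟩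

lemma lpPiece_conv {φ : EuclideanSpace ℝ (Fin n) → ℝ} (hφ : IsCutoff φ) (j : ℕ)
    (u : 𝓢(EuclideanSpace ℝ (Fin n), ℂ)) (x : EuclideanSpace ℝ (Fin n)) :
    BesovHardy.lpPiece φ j u x = SchwartzMap.fourierMultiplierCLM ℂ (lpSymbol φ j) u x := by
  rw [SchwartzMap.fourierMultiplierCLM_apply, fourierInv_coe]
  unfold BesovHardy.lpPiece
  have h : (fun ξ => (BesovHardy.lpSymbol φ j ξ : ℂ) * 𝓕 u ξ) =
      ⇑(SchwartzMap.smulLeftCLM ℂ (lpSymbol φ j) (𝓕 u)) := by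
    funext ξ
    rw [SchwartzMap.smulLeftCLM_apply_apply (hasTemperateGrowth_lpSymbol hφ j)]
    rfl
  rw [h]

lemma besovPow_conv {φ : EuclideanSpace ℝ (Fin n) → ℝ} (hφ : IsCutoff φ) (α p : ℝ)
    (u : 𝓢(EuclideanSpace ℝ (Fin n), ℂ)) :
    BesovHardy.besovPow φ α p u = besovPow φ α p u := by
  unfold BesovHardy.besovPow besovPow
  simp only [lpPiece_conv hφ]

lemma besovCap_conv {φ : EuclideanSpace ℝ (Fin n) → ℝ} (hφ : IsCutoff φ) (α p : ℝ)
    (𝒟 : Set 𝓢(EuclideanSpace ℝ (Fin n), ℂ)) (K : Set (EuclideanSpace ℝ (Fin n))) :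
    BesovHardy.besovCap φ α p 𝒟 K = besovCap φ α p 𝒟 K := by
  unfold BesovHardy.besovCap besovCap BesovHardy.AtLeastOne
  simp only [besovPow_conv hφ, iInf_and]

lemma grandMax_conv (N : ℕ) (T : ℝ≥0∞) (f : 𝓢'(EuclideanSpace ℝ (Fin n), ℂ))
    (x : EuclideanSpace ℝ (Fin n)) : BesovHardy.grandMax N T f x = grandMax N T f x := rfl

lemma fourier_refl_zero (g : 𝓢(EuclideanSpace ℝ (Fin n), ℂ)) (ξ : EuclideanSpace ℝ (Fin n)) :
    𝓕 (refl 0 g) ξ = 𝓕 g (-ξ) := by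
  have h1 := fourierInv_refl 0 (refl 0 g) ξ
  have h2 : refl 0 (refl 0 g) = g := by ext w; simp
  rw [h2] at h1
  simp only [inner_zero_left, mul_zero, Complex.ofReal_zero, zero_mul, Complex.exp_zero,
    one_mul] at h1
  rw [← h1, fourierInv_coe, fourier_coe, Real.fourierInv_eq_fourier_neg]

lemma besselPot_conv {α : ℝ} (f : 𝓢'(EuclideanSpace ℝ (Fin n), ℂ))
    {g h : 𝓢(EuclideanSpace ℝ (Fin n), ℂ)} (hgh : BesovHardy.IsBesselPot α g h) :
    besselPot α f g = BesovHardy.pair f h := by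
  have h2 : ∀ g : 𝓢(EuclideanSpace ℝ (Fin n), ℂ), refl 0 (refl 0 g) = g := by
    intro g; ext w; simp
  have h1 := besselPot_refl (α := α) f 0 (θ := refl 0 g) (θ' := refl 0 h) (fun ξ => by
    rw [fourier_refl_zero, fourier_refl_zero, hgh (-ξ)]
    unfold jsym
    rw [norm_neg])
  rw [h2, h2] at h1
  exact h1

lemma isPotential_conv (α : ℝ) (f : 𝓢'(EuclideanSpace ℝ (Fin n), ℂ))
    (u : EuclideanSpace ℝ (Fin n) → ℝ) : BesovHardy.IsPotential α f u ↔
    (ContDiff ℝ ∞ u ∧ ∀ g : 𝓢(EuclideanSpace ℝ (Fin n), ℂ), HasCompactSupport g →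
      besselPot α f g = ∫ x, (u x : ℂ) * g x) := by
  unfold BesovHardy.IsPotential
  refine and_congr_right fun _ => ⟨fun h g hg => ?_, fun h g k hg hgk => ?_⟩
  · have h1 : BesovHardy.IsBesselPot α g (jup (-α) g) := fun ξ => fourier_jup (-α) g ξ
    rw [besselPot_conv f h1]
    exact h g _ hg h1
  · rw [← besselPot_conv f hgk]
    exact h g hg

lemma hardyCap_conv (N : ℕ) (T : ℝ≥0∞) (α p : ℝ) (K : Set (EuclideanSpace ℝ (Fin n))) :
    BesovHardy.hardyCap N T α p K = hardyCap N T α p K := by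
  unfold BesovHardy.hardyCap hardyCap
  simp only [isPotential_conv, grandMax_conv, iInf_exists, iInf_and]

/-- null sets of the two capacities, for the definitions used in the statement -/
theorem main' {φ : EuclideanSpace ℝ (Fin n) → ℝ} (hφ : BesovHardy.IsCutoff φ) {α p : ℝ}
    (hα : 0 < α) (hp : 0 < p) (hp1 : p ≤ 1) {𝒟 : Set (BesovHardy.Sch n)}
    (h𝒟 : ∀ u : BesovHardy.Sch n, HasCompactSupport u → (∀ x, (u x).im = 0) → u ∈ 𝒟)
    {N : ℕ} (hN : (n:ℝ) + n / p + 3 ≤ N) {T : ℝ≥0∞} (hT : 1 ≤ T)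
    {K : Set (EuclideanSpace ℝ (Fin n))} (hK : IsCompact K) :
    (BesovHardy.besovCap φ α p 𝒟 K = 0 ↔ BesovHardy.hardyCap N T α p K = 0) ∧
    (α * p < n → (BesovHardy.besovCap φ α p 𝒟 K = 0 ↔ μH[n - α * p] K = 0)) ∧
    (n ≤ α * p → (BesovHardy.besovCap φ α p 𝒟 K = 0 ↔ K = ∅)) := by
  have h1 := cutoff_conv hφ
  rw [besovCap_conv h1, hardyCap_conv]
  exact main h1 hα hp hp1 h𝒟 hN hT hK

end Pool.Agent.V8H56.BC
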