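import Mathlib

/-! Besov capacities and capacities of Bessel potentials of real Hardy spaces for `0 < p < 1`:
definitions for MP_9b3711_an. -/

open MeasureTheory
open scoped ENNReal SchwartzMap ContDiff

namespace Pool.Agent.V8H56.BC

variable {n : ℕ}

/-- A smooth cut-off on `ℝⁿ`: equal to one on the closed unit ball, zero outside the open ball of
radius two. -/
structure IsCutoff (φ : EuclideanSpace ℝ (Fin n) → ℝ) : Prop where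
  smooth : ContDiff ℝ ∞ φ
  one : ∀ ξ, ‖ξ‖ ≤ 1 → φ ξ = 1
  zero : ∀ ξ, 2 ≤ ‖ξ‖ → φ ξ = 0

/-- The Littlewood-Paley resolution of unity generated by `φ`:
`φ₀ = φ` and `φ_j(ξ) = φ(2^(-j) ξ) - φ(2^(-j+1) ξ)` for `j ≥ 1`. -/
noncomputable def lpSymbol (φ : EuclideanSpace ℝ (Fin n) → ℝ) (j : ℕ)
    (ξ : EuclideanSpace ℝ (Fin n)) : ℝ :=
  if j = 0 then φ ξ else φ (((2:ℝ) ^ j)⁻¹ • ξ) - φ ((2 * ((2:ℝ) ^ j)⁻¹) • ξ)

/-- The `p`-th power of the Besov quasi-norm of `Λ^{p,p}_α = B^α_{p,p}(ℝⁿ)`: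
`∑_j 2^(jαp) ‖F⁻¹(φ_j F u)‖_p^p`. -/
noncomputable def besovPow (φ : EuclideanSpace ℝ (Fin n) → ℝ) (α p : ℝ)
    (u : 𝓢(EuclideanSpace ℝ (Fin n), ℂ)) : ℝ≥0∞ :=
  ∑' j : ℕ, ENNReal.ofReal ((2:ℝ) ^ ((j:ℝ) * (α * p))) *
    ∫⁻ x, ‖SchwartzMap.fourierMultiplierCLM ℂ (lpSymbol φ j) u x‖ₑ ^ p

/-- The Besov capacity `A_{α,p,p}(K)` computed with the class `𝒟` of test functions. -/
noncomputable def besovCap (φ : EuclideanSpace ℝ (Fin n) → ℝ) (α p : ℝ)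
    (𝒟 : Set 𝓢(EuclideanSpace ℝ (Fin n), ℂ)) (K : Set (EuclideanSpace ℝ (Fin n))) : ℝ≥0∞ :=
  ⨅ (u : 𝓢(EuclideanSpace ℝ (Fin n), ℂ)) (_ : u ∈ 𝒟) (_ : ∀ x, (u x).im = 0)
    (_ : ∀ x ∈ K, 1 ≤ (u x).re), besovPow φ α p u

/-- `ψ` is a normalised bump of order `N` at the point `y` and scale `t`, that is,
`ψ(z) = t^(-n) ρ((z - y)/t)` with `|w|^k |D^l ρ(w)| ≤ 1` for all `w` and all `k, l ≤ N`. -/
def IsBump (N : ℕ) (y : EuclideanSpace ℝ (Fin n)) (t : ℝ)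
    (ψ : 𝓢(EuclideanSpace ℝ (Fin n), ℂ)) : Prop :=
  ∀ k ≤ N, ∀ l ≤ N, ∀ z, (‖z - y‖ / t) ^ k * (t ^ (n + l) * ‖iteratedFDeriv ℝ l ψ z‖) ≤ 1

/-- The (nontangential) grand maximal function of order `N` of a tempered distribution, with
scales `0 < t ≤ T`; `T = ∞` gives the grand maximal function of `H^p(ℝⁿ)`, and `T = 1` the one of
the local Hardy space `h^p(ℝⁿ)`. -/
noncomputable def grandMax (N : ℕ) (T : ℝ≥0∞) (f : 𝓢'(EuclideanSpace ℝ (Fin n), ℂ))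
    (x : EuclideanSpace ℝ (Fin n)) : ℝ≥0∞ :=
  ⨆ (ψ : 𝓢(EuclideanSpace ℝ (Fin n), ℂ)) (_ : ∃ y t, 0 < t ∧ ENNReal.ofReal t ≤ T ∧
    dist x y < t ∧ IsBump N y t ψ), ‖f ψ‖ₑ

/-- The Bessel potential `G_α * f` of a tempered distribution: the Fourier multiplier with symbol
`(1 + |2πξ|²)^(-α/2)`. -/
noncomputable def besselPot (α : ℝ) (f : 𝓢'(EuclideanSpace ℝ (Fin n), ℂ)) :
    𝓢'(EuclideanSpace ℝ (Fin n), ℂ) :=
  TemperedDistribution.fourierMultiplierCLM ℂ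
    (fun ξ => (((1 + (2 * Real.pi * ‖ξ‖) ^ 2) ^ (-α / 2) : ℝ) : ℂ)) f

/-- The capacity `B_{α,p}(K)` of the space of Bessel potentials `G_α * f`, `f ∈ H^p`: the infimum
of `‖f‖_{H^p}^p` over the smooth functions `u` with `u = G_α * f` and `u ≥ 1` on `K`. -/
noncomputable def hardyCap (N : ℕ) (T : ℝ≥0∞) (α p : ℝ) (K : Set (EuclideanSpace ℝ (Fin n))) :
    ℝ≥0∞ :=
  ⨅ (f : 𝓢'(EuclideanSpace ℝ (Fin n), ℂ)) (u : EuclideanSpace ℝ (Fin n) → ℝ)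
    (_ : ContDiff ℝ ∞ u)
    (_ : ∀ g : 𝓢(EuclideanSpace ℝ (Fin n), ℂ), HasCompactSupport g →
      besselPot α f g = ∫ x, (u x : ℂ) * g x)
    (_ : ∀ x ∈ K, 1 ≤ u x), ∫⁻ x, grandMax N T f x ^ p

end Pool.Agent.V8H56.BC
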