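import Mathlib

/-! Dyadic cubes, the layer argument producing a dyadic cover, and the passage to Hausdorff
measure (for MP_9b3711_an). -/

open MeasureTheory Set Filter
open scoped ENNReal Topology

namespace Pool.Agent.V8H56.BC

variable {n : ℕ}

/-- Index of the half-open dyadic cube of side `2^(-j)` containing `x`. -/
noncomputable def dy (j : ℕ) (x : EuclideanSpace ℝ (Fin n)) : Fin n → ℤ :=
  fun i => ⌊(2:ℝ) ^ j * x i⌋

/-- Lower corner of the dyadic cube of scale `j` with index `k`. -/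
noncomputable def corner (j : ℕ) (k : Fin n → ℤ) : EuclideanSpace ℝ (Fin n) :=
  WithLp.toLp 2 (fun i => (k i : ℝ) / 2 ^ j)

/-- The dyadic cube. -/
def cube (j : ℕ) (k : Fin n → ℤ) : Set (EuclideanSpace ℝ (Fin n)) := {x | dy j x = k}

lemma dy_corner (j : ℕ) (k : Fin n → ℤ) : dy j (corner j k) = k := by
  funext i
  simp only [dy, corner]
  have : (2:ℝ) ^ j * ((k i : ℝ) / 2 ^ j) = k i := by field_simp
  rw [this]; simp

lemma dy_step (j m : ℕ) (x : EuclideanSpace ℝ (Fin n)) (i : Fin n) :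
    dy j x i = dy (j + m) x i / (2 ^ m : ℕ) := by
  simp only [dy]
  rw [← Int.floor_div_natCast]
  congr 1
  push_cast
  rw [pow_add]; field_simp

lemma dy_coarse {i j : ℕ} (h : i ≤ j) {x y : EuclideanSpace ℝ (Fin n)} (hxy : dy j x = dy j y) :
    dy i x = dy i y := by
  obtain ⟨m, rfl⟩ := Nat.exists_eq_add_of_le h
  funext a
  rw [dy_step i m x, dy_step i m y, hxy]

lemma mem_cube {j : ℕ} {k : Fin n → ℤ} {x : EuclideanSpace ℝ (Fin n)} :
    x ∈ cube j k ↔ dy j x = k := Iff.rfl

lemma cube_eq (j : ℕ) (k : Fin n → ℤ) :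
    cube j k = (WithLp.ofLp) ⁻¹' (Set.pi univ fun i => Ico ((k i : ℝ) / 2 ^ j) (((k i : ℝ) + 1) / 2 ^ j)) := by
  ext x
  rw [mem_cube]
  simp only [mem_preimage, Set.mem_pi, mem_univ, forall_true_left, mem_Ico]
  constructor
  · intro h i
    have := congrFun h i
    simp only [dy, Int.floor_eq_iff] at this
    have h2 : (0:ℝ) < 2 ^ j := by positivity
    constructor
    · rw [div_le_iff₀ h2]; linarith [this.1]
    · rw [lt_div_iff₀ h2]; linarith [this.2]
  · intro h
    funext i
    simp only [dy, Int.floor_eq_iff]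
    have h2 : (0:ℝ) < 2 ^ j := by positivity
    have := h i
    rw [div_le_iff₀ h2, lt_div_iff₀ h2] at this
    constructor <;> linarith [this.1, this.2]

lemma measurableSet_cube (j : ℕ) (k : Fin n → ℤ) : MeasurableSet (cube j k) := by
  rw [cube_eq]
  refine (PiLp.volume_preserving_ofLp (Fin n)).measurable ?_
  exact MeasurableSet.univ_pi fun i => measurableSet_Ico

lemma volume_cube (j : ℕ) (k : Fin n → ℤ) :
    volume (cube j k) = ENNReal.ofReal ((2:ℝ) ^ (-(j * n : ℝ))) := by
  rw [cube_eq, (PiLp.volume_preserving_ofLp (Fin n)).measure_preimage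
    (MeasurableSet.univ_pi fun i => measurableSet_Ico).nullMeasurableSet, Real.volume_pi_Ico]
  have : ∀ i : Fin n, ((k i : ℝ) + 1) / 2 ^ j - (k i : ℝ) / 2 ^ j = (2:ℝ) ^ (-(j:ℝ)) := by
    intro i
    rw [Real.rpow_neg (by norm_num), Real.rpow_natCast]; ring
  simp only [this, Finset.prod_const, Finset.card_univ, Fintype.card_fin]
  rw [← ENNReal.ofReal_pow (by positivity)]
  congr 1
  rw [← Real.rpow_natCast, ← Real.rpow_mul (by norm_num)]
  ring_nf

lemma mem_cube_corner (j : ℕ) (k : Fin n → ℤ) : corner j k ∈ cube j k := dy_corner j k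

/-- Points in the same cube are close. -/
lemma dist_le_of_dy_eq {j : ℕ} {x y : EuclideanSpace ℝ (Fin n)} (h : dy j x = dy j y) :
    dist x y ≤ Real.sqrt n * (2:ℝ) ^ (-(j:ℝ)) := by
  rw [EuclideanSpace.dist_eq]
  have h1 : ∀ i, (dist (x i) (y i)) ^ 2 ≤ ((2:ℝ) ^ (-(j:ℝ))) ^ 2 := by
    intro i
    have hi := congrFun h i
    simp only [dy] at hi
    have hx := Int.floor_le ((2:ℝ) ^ j * x i)
    have hx' := Int.lt_floor_add_one ((2:ℝ) ^ j * x i)
    have hy := Int.floor_le ((2:ℝ) ^ j * y i)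
    have hy' := Int.lt_floor_add_one ((2:ℝ) ^ j * y i)
    rw [hi] at hx hx'
    have h2 : (0:ℝ) < 2 ^ j := by positivity
    have habs : |(2:ℝ) ^ j * x i - (2:ℝ) ^ j * y i| ≤ 1 := by
      rw [abs_le]; constructor <;> linarith
    have h3 : dist (x i) (y i) ≤ (2:ℝ) ^ (-(j:ℝ)) := by
      rw [Real.dist_eq, Real.rpow_neg (by norm_num), Real.rpow_natCast]
      rw [← mul_sub, abs_mul, abs_of_pos h2] at habs
      rw [← one_div, le_div_iff₀ h2]; linarith
    gcongr
  calc Real.sqrt (∑ i, (dist (x i) (y i)) ^ 2)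
      ≤ Real.sqrt (∑ _i : Fin n, ((2:ℝ) ^ (-(j:ℝ))) ^ 2) := by
        apply Real.sqrt_le_sqrt
        exact Finset.sum_le_sum fun i _ => h1 i
    _ = Real.sqrt n * (2:ℝ) ^ (-(j:ℝ)) := by
        simp only [Finset.sum_const, Finset.card_univ, Fintype.card_fin, nsmul_eq_mul]
        rw [Real.sqrt_mul (by positivity), Real.sqrt_sq (by positivity)]

/-- Integral of a function constant on dyadic cubes. -/
lemma lintegral_dyadic {j : ℕ} {b : EuclideanSpace ℝ (Fin n) → ℝ≥0∞}
    (hb : ∀ x y, dy j x = dy j y → b x = b y) :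
    ∫⁻ x, b x = ∑' k : Fin n → ℤ, ENNReal.ofReal ((2:ℝ) ^ (-(j * n : ℝ))) * b (corner j k) := by
  have h1 : ∀ x, b x = ∑' k : Fin n → ℤ, (cube j k).indicator (fun _ => b (corner j k)) x := by
    intro x
    rw [tsum_eq_single (dy j x)]
    · rw [indicator_of_mem (show x ∈ cube j (dy j x) from rfl)]
      exact hb _ _ (by rw [dy_corner])
    · intro k hk
      exact indicator_of_notMem (fun h => hk (mem_cube.1 h).symm) _
  calc ∫⁻ x, b x = ∫⁻ x, ∑' k : Fin n → ℤ, (cube j k).indicator (fun _ => b (corner j k)) x :=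
        lintegral_congr h1
    _ = ∑' k : Fin n → ℤ, ∫⁻ x, (cube j k).indicator (fun _ => b (corner j k)) x := by
        apply lintegral_tsum
        intro k
        exact (measurable_const.indicator (measurableSet_cube j k)).aemeasurable
    _ = _ := by
        congr 1; ext k
        rw [lintegral_indicator (measurableSet_cube j k), setLIntegral_const, volume_cube, mul_comm]

/-- Layer argument: weights with sum at least one at each point of `K` give a dyadic cover. -/
theorem layer {K : Set (EuclideanSpace ℝ (Fin n))} {b : ℕ → EuclideanSpace ℝ (Fin n) → ℝ≥0∞}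
    (hb : ∀ j x y, dy j x = dy j y → b j x = b j y) (hK : ∀ x ∈ K, 1 ≤ ∑' j, b j x)
    (w : ℕ → ℝ≥0∞) :
    ∃ C : Set (ℕ × (Fin n → ℤ)), (∀ x ∈ K, ∃ j, (j, dy j x) ∈ C) ∧
      ∑' q : ℕ × (Fin n → ℤ), C.indicator (fun q => w q.1) q
        ≤ ∑' q : ℕ × (Fin n → ℤ), w q.1 * b q.1 (corner q.1 q.2) := by
  classical
  let S : ℕ → EuclideanSpace ℝ (Fin n) → ℝ≥0∞ := fun j x => ∑ i ∈ Finset.range j, b i x
  have hS : ∀ j x y, dy j x = dy j y → S (j+1) x = S (j+1) y := by
    intro j x y h
    refine Finset.sum_congr rfl fun i hi => hb i x y (dy_coarse ?_ h)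
    have := Finset.mem_range.1 hi; omega
  have hS' : ∀ j x y, dy j x = dy j y → S j x = S j y := by
    intro j x y h
    refine Finset.sum_congr rfl fun i hi => hb i x y (dy_coarse ?_ h)
    have := Finset.mem_range.1 hi; omega
  let I : ℕ × (Fin n → ℤ) → Set ℝ := fun q =>
    {θ | S q.1 (corner q.1 q.2) ≤ ENNReal.ofReal θ ∧ ENNReal.ofReal θ < S (q.1+1) (corner q.1 q.2)}
  have hImeas : ∀ q, MeasurableSet (I q) := by
    intro q
    apply MeasurableSet.inter
    · exact measurableSet_le measurable_const ENNReal.measurable_ofReal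
    · exact measurableSet_lt ENNReal.measurable_ofReal measurable_const
  have hIvol : ∀ q, volume (I q ∩ Ioo 0 1) ≤ b q.1 (corner q.1 q.2) := by
    intro q
    set a := S q.1 (corner q.1 q.2) with ha
    have hsucc : S (q.1+1) (corner q.1 q.2) = a + b q.1 (corner q.1 q.2) := by
      simp only [S, ha, Finset.sum_range_succ]
    by_cases hbtop : b q.1 (corner q.1 q.2) = ⊤
    · rw [hbtop]; exact le_top
    by_cases hatop : a = ⊤
    · have : I q ∩ Ioo 0 1 = ∅ := by
        ext θ
        simp only [I, mem_inter_iff, mem_empty_iff_false, iff_false, not_and]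
        intro h
        exfalso
        have h1 := h.1
        rw [← ha, hatop] at h1
        exact absurd (top_le_iff.1 h1) ENNReal.ofReal_ne_top
      rw [this]; simp
    · have hsub : I q ∩ Ioo 0 1 ⊆ Ico a.toReal (a + b q.1 (corner q.1 q.2)).toReal := by
        rintro θ ⟨⟨h1, h2⟩, h3, h4⟩
        rw [hsucc] at h2
        constructor
        · rw [← ha] at h1
          exact ENNReal.toReal_le_of_le_ofReal h3.le h1
        · exact (ENNReal.ofReal_lt_iff_lt_toReal h3.le (by finiteness)).1 h2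
      refine (measure_mono hsub).trans ?_
      rw [Real.volume_Ico, ENNReal.toReal_add hatop hbtop]
      simp [ENNReal.ofReal_toReal hbtop]
  let F : ℝ → ℝ≥0∞ := fun θ => ∑' q, w q.1 * (I q).indicator (fun _ => 1) θ
  have hF : AEMeasurable F (volume.restrict (Ioo (0:ℝ) 1)) := by
    apply Measurable.aemeasurable
    refine Measurable.tsum fun q => ?_
    exact (measurable_const.indicator (hImeas q)).const_mul _
  have : IsProbabilityMeasure (volume.restrict (Ioo (0:ℝ) 1)) := ⟨by simp⟩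
  have hFint : ∫⁻ θ in Ioo (0:ℝ) 1, F θ ≤ ∑' q : ℕ × (Fin n → ℤ), w q.1 * b q.1 (corner q.1 q.2) := by
    rw [lintegral_tsum]
    · refine ENNReal.tsum_le_tsum fun q => ?_
      rw [lintegral_const_mul _ (measurable_const.indicator (hImeas q)),
        lintegral_indicator (hImeas q)]
      simp only [lintegral_const, one_mul]
      rw [Measure.restrict_restrict (hImeas q), Measure.restrict_apply MeasurableSet.univ, univ_inter]
      gcongr
      exact hIvol q
    · intro q
      exact ((measurable_const.indicator (hImeas q)).const_mul _).aemeasurable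
  -- choose a good level inside the unit interval
  have hae : ∀ᵐ θ ∂(volume.restrict (Ioo (0:ℝ) 1)), θ ∈ Ioo (0:ℝ) 1 :=
    ae_restrict_mem measurableSet_Ioo
  obtain ⟨θ, hθ, hθF⟩ : ∃ θ ∈ Ioo (0:ℝ) 1, F θ ≤ ∫⁻ θ in Ioo (0:ℝ) 1, F θ := by
    by_contra hcon
    push Not at hcon
    have hlt : ∀ᵐ θ ∂(volume.restrict (Ioo (0:ℝ) 1)), (∫⁻ θ in Ioo (0:ℝ) 1, F θ) < F θ := by
      filter_upwards [hae] with θ hθ using hcon θ hθ
    let G : ℝ → ℝ≥0∞ := fun θ => if θ ∈ Ioo (0:ℝ) 1 then F θ else ⊤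
    have hG : F =ᵐ[volume.restrict (Ioo (0:ℝ) 1)] G := by
      filter_upwards [hae] with θ hθ
      simp only [G, if_pos hθ]
    have hGm : AEMeasurable G (volume.restrict (Ioo (0:ℝ) 1)) := hF.congr hG
    obtain ⟨x, hx⟩ := exists_le_lintegral hGm
    rw [← lintegral_congr_ae hG] at hx
    by_cases hxI : x ∈ Ioo (0:ℝ) 1
    · have := hcon x hxI
      simp only [G, if_pos hxI] at hx
      exact absurd hx (not_le.2 this)
    · simp only [G, if_neg hxI, top_le_iff] at hx
      have := hcon (1/2) (by constructor <;> norm_num)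
      rw [hx] at this
      exact absurd this not_top_lt
  refine ⟨{q | θ ∈ I q}, ?_, ?_⟩
  · intro x hx
    have h1 : ENNReal.ofReal θ < ∑' j, b j x := by
      refine lt_of_lt_of_le ?_ (hK x hx)
      rw [ENNReal.ofReal_lt_one]; exact hθ.2
    have h2 : ∃ j, ENNReal.ofReal θ < S j x := by
      have ht := ENNReal.tendsto_nat_tsum (fun j => b j x)
      exact (ht.eventually (lt_mem_nhds h1)).exists
    have hex := h2
    let j := Nat.find hex
    have hj : ENNReal.ofReal θ < S j x := Nat.find_spec hex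
    have hj0 : j ≠ 0 := by
      intro h0
      rw [h0] at hj
      simp [S] at hj
    obtain ⟨i, hi⟩ := Nat.exists_eq_succ_of_ne_zero hj0
    have hi' : S i x ≤ ENNReal.ofReal θ := by
      by_contra hcon
      have := Nat.find_min' hex (not_le.1 hcon)
      change j ≤ i at this
      omega
    refine ⟨i, ?_⟩
    change θ ∈ I (i, dy i x)
    constructor
    · change S i (corner i (dy i x)) ≤ _
      rw [hS' i _ x (dy_corner i _)]; exact hi'
    · change _ < S (i+1) (corner i (dy i x))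
      rw [hS i _ x (dy_corner i _)]
      rw [hi] at hj; exact hj
  · refine le_trans (le_of_eq ?_) (hθF.trans hFint)
    refine tsum_congr fun q => ?_
    by_cases hq : θ ∈ I q
    · rw [indicator_of_mem (show q ∈ {q | θ ∈ I q} from hq), indicator_of_mem hq, mul_one]
    · rw [indicator_of_notMem (show q ∉ {q | θ ∈ I q} from hq), indicator_of_notMem hq, mul_zero]

lemma ediam_cube_le (j : ℕ) (k : Fin n → ℤ) :
    Metric.ediam (cube j k) ≤ ENNReal.ofReal (Real.sqrt n * (2:ℝ) ^ (-(j:ℝ))) := by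
  refine Metric.ediam_le fun x hx y hy => ?_
  rw [edist_dist]
  exact ENNReal.ofReal_le_ofReal (dist_le_of_dy_eq (by rw [mem_cube.1 hx, mem_cube.1 hy]))

/-- Small dyadic weights force `K` to be null. -/
theorem null_of_small {K : Set (EuclideanSpace ℝ (Fin n))} {d : ℝ}
    (h : ∀ ε : ℝ≥0∞, 0 < ε → ∃ b : ℕ → EuclideanSpace ℝ (Fin n) → ℝ≥0∞,
      (∀ j x y, dy j x = dy j y → b j x = b j y) ∧ (∀ x ∈ K, 1 ≤ ∑' j, b j x) ∧
      ∑' j : ℕ, ENNReal.ofReal ((2:ℝ) ^ ((j:ℝ) * (n - d))) * ∫⁻ x, b j x ≤ ε) :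
    (0 < d → μH[d] K = 0) ∧ (d ≤ 0 → K = ∅) := by
  classical
  have key : ∀ ε : ℝ≥0∞, 0 < ε → ∃ C : Set (ℕ × (Fin n → ℤ)), (∀ x ∈ K, ∃ j, (j, dy j x) ∈ C) ∧
      ∑' q : ℕ × (Fin n → ℤ), C.indicator (fun q => ENNReal.ofReal ((2:ℝ) ^ (-((q.1:ℝ) * d)))) q ≤ ε := by
    intro ε hε
    obtain ⟨b, hb, hK, hsum⟩ := h ε hε
    obtain ⟨C, hC, hCs⟩ := layer hb hK (fun j => ENNReal.ofReal ((2:ℝ) ^ (-((j:ℝ) * d))))
    refine ⟨C, hC, hCs.trans (le_trans (le_of_eq ?_) hsum)⟩
    rw [ENNReal.tsum_prod']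
    refine tsum_congr fun j => ?_
    rw [lintegral_dyadic (hb j), ← ENNReal.tsum_mul_left]
    refine tsum_congr fun k => ?_
    simp only
    rw [← mul_assoc, ← ENNReal.ofReal_mul (by positivity), ← Real.rpow_add (by norm_num)]
    congr 3
    ring
  constructor
  · intro hd
    let ε : ℕ → ℝ := fun m => 1 / ((m:ℝ) + 1)
    have hε : ∀ m, 0 < ε m := fun m => Nat.one_div_pos_of_nat
    have hεt : Tendsto ε atTop (𝓝 0) := tendsto_one_div_add_atTop_nhds_zero_nat
    choose C hC hCs using fun m => key (ENNReal.ofReal (ε m)) (by simpa using hε m)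
    let r : ℕ → ℝ≥0∞ := fun m => ENNReal.ofReal (Real.sqrt n * (ε m) ^ (1/d))
    have hr : Tendsto r atTop (𝓝 0) := by
      have : Tendsto (fun m => Real.sqrt n * (ε m) ^ (1/d)) atTop (𝓝 (Real.sqrt n * (0:ℝ) ^ (1/d))) := by
        refine Tendsto.const_mul _ ?_
        exact ((Real.continuous_rpow_const (by positivity)).tendsto 0).comp hεt
      rw [Real.zero_rpow (by positivity), mul_zero] at this
      have := (ENNReal.continuous_ofReal.tendsto 0).comp this
      rw [ENNReal.ofReal_zero] at this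
      exact this
    have hwle : ∀ m, ∀ q ∈ C m, (2:ℝ) ^ (-((q.1:ℝ) * d)) ≤ ε m := by
      intro m q hq
      have h1 : (C m).indicator (fun q => ENNReal.ofReal ((2:ℝ) ^ (-((q.1:ℝ) * d)))) q ≤ ENNReal.ofReal (ε m) :=
        (ENNReal.le_tsum q).trans (hCs m)
      rw [indicator_of_mem hq] at h1
      exact (ENNReal.ofReal_le_ofReal_iff (hε m).le).1 h1
    have hside : ∀ m, ∀ q ∈ C m, (2:ℝ) ^ (-(q.1:ℝ)) ≤ (ε m) ^ (1/d) := by
      intro m q hq
      have h1 := hwle m q hq
      have h2 : (2:ℝ) ^ (-(q.1:ℝ)) = ((2:ℝ) ^ (-((q.1:ℝ) * d))) ^ (1/d) := by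
        rw [← Real.rpow_mul (by norm_num)]
        congr 1; field_simp
      rw [h2]
      exact Real.rpow_le_rpow (by positivity) h1 (by positivity)
    have hmain := Measure.hausdorffMeasure_le_liminf_tsum (ι := fun m => (C m)) d K r hr
      (fun m q => cube q.1.1 q.1.2) ?_ ?_
    · refine le_antisymm (hmain.trans ?_) zero_le
      have hub : ∀ m, ∑' q : C m, Metric.ediam (cube q.1.1 q.1.2) ^ d
          ≤ ENNReal.ofReal ((Real.sqrt n) ^ d) * ENNReal.ofReal (ε m) := by
        intro m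
        calc ∑' q : C m, Metric.ediam (cube q.1.1 q.1.2) ^ d
            ≤ ∑' q : C m, ENNReal.ofReal ((Real.sqrt n) ^ d) *
                ENNReal.ofReal ((2:ℝ) ^ (-((q.1.1:ℝ) * d))) := by
              refine ENNReal.tsum_le_tsum fun q => ?_
              refine (ENNReal.rpow_le_rpow (ediam_cube_le _ _) hd.le).trans ?_
              rw [ENNReal.ofReal_rpow_of_nonneg (by positivity) hd.le,
                Real.mul_rpow (by positivity) (by positivity), ← Real.rpow_mul (by norm_num),
                ENNReal.ofReal_mul (by positivity)]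
              apply le_of_eq
              congr 3; ring
          _ = ENNReal.ofReal ((Real.sqrt n) ^ d) * ∑' q : C m,
                ENNReal.ofReal ((2:ℝ) ^ (-((q.1.1:ℝ) * d))) := ENNReal.tsum_mul_left
          _ ≤ _ := by
              gcongr
              rw [tsum_subtype (C m) (fun q => ENNReal.ofReal ((2:ℝ) ^ (-((q.1:ℝ) * d))))]
              exact hCs m
      refine (liminf_le_liminf (Eventually.of_forall hub)).trans ?_
      have ht : Tendsto (fun m => ENNReal.ofReal ((Real.sqrt n) ^ d) * ENNReal.ofReal (ε m)) atTop (𝓝 0) := by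
        have := ENNReal.Tendsto.const_mul (a := ENNReal.ofReal ((Real.sqrt n) ^ d))
          ((ENNReal.continuous_ofReal.tendsto 0).comp hεt) (Or.inr ENNReal.ofReal_ne_top)
        simpa using this
      rw [ht.liminf_eq]
    · refine Eventually.of_forall fun m q => (ediam_cube_le _ _).trans ?_
      apply ENNReal.ofReal_le_ofReal
      gcongr
      exact hside m q.1 q.2
    · refine Eventually.of_forall fun m x hx => ?_
      obtain ⟨j, hj⟩ := hC m x hx
      exact mem_iUnion.2 ⟨⟨(j, dy j x), hj⟩, rfl⟩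
  · intro hd
    by_contra hne
    obtain ⟨x, hx⟩ := nonempty_iff_ne_empty.2 hne
    obtain ⟨C, hC, hCs⟩ := key (1/2) (by simp)
    obtain ⟨j, hj⟩ := hC x hx
    have h1 := (ENNReal.le_tsum (f := C.indicator (fun q : ℕ × (Fin n → ℤ) =>
      ENNReal.ofReal ((2:ℝ) ^ (-((q.1:ℝ) * d))))) (j, dy j x)).trans hCs
    rw [indicator_of_mem hj] at h1
    have h2 : (1:ℝ≥0∞) ≤ ENNReal.ofReal ((2:ℝ) ^ (-((j:ℝ) * d))) := by
      rw [ENNReal.one_le_ofReal]
      apply Real.one_le_rpow (by norm_num)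
      nlinarith [Nat.cast_nonneg (α := ℝ) j]
    have h3 : (1:ℝ≥0∞) ≤ 1/2 := h2.trans h1
    have h4 : (1/2 : ℝ≥0∞) < 1 := by
      rw [one_div]; exact ENNReal.inv_lt_one.2 (by norm_num)
    exact absurd h3 (not_le.2 h4)

end Pool.Agent.V8H56.BC
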