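import Pool.Agent.V8H56.BC.Conv2

/-! Uniform kernel bounds for families of symbols (for MP_9b3711_an). -/

open MeasureTheory Set Filter SchwartzMap FourierTransform
open scoped ENNReal NNReal Topology SchwartzMap Convolution ContDiff

namespace Pool.Agent.V8H56.BC

variable {n : ℕ}

/-- Uniform derivative bounds for a smooth family, compactly supported in the second variable. -/
theorem fam_bound {H : ℝ × EuclideanSpace ℝ (Fin n) → ℂ} (hH : ContDiff ℝ ∞ H)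
    (h0 : ∀ δ η, 2 ≤ ‖η‖ → H (δ, η) = 0) (k l : ℕ) :
    ∃ C : ℝ, 0 ≤ C ∧ ∀ δ ∈ Icc (0:ℝ) 1, ∀ η : EuclideanSpace ℝ (Fin n),
      ‖η‖ ^ k * ‖iteratedFDeriv ℝ l (fun η => H (δ, η)) η‖ ≤ C := by
  have hcont : Continuous (fun p => ‖iteratedFDeriv ℝ l H p‖) :=
    (hH.continuous_iteratedFDeriv (m := l) (by exact_mod_cast le_top)).norm
  obtain ⟨C₀, hC₀⟩ := ((isCompact_Icc (a := (0:ℝ)) (b := 1)).prod
    (isCompact_closedBall (0 : EuclideanSpace ℝ (Fin n)) 2)).exists_bound_of_continuousOn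
    (f := fun p => ‖iteratedFDeriv ℝ l H p‖) hcont.continuousOn
  set g : EuclideanSpace ℝ (Fin n) →L[ℝ] ℝ × EuclideanSpace ℝ (Fin n) :=
    ContinuousLinearMap.inr ℝ ℝ (EuclideanSpace ℝ (Fin n)) with hg
  refine ⟨2 ^ k * (max C₀ 0 * ‖g‖ ^ l), by positivity, fun δ hδ η => ?_⟩
  by_cases hη : ‖η‖ ≤ 2
  · have h1 : (fun η => H (δ, η)) = (fun p => H ((δ, 0) + p)) ∘ g := by
      funext η; simp [hg]
    have h2 : ContDiff ℝ l (fun p => H ((δ, (0 : EuclideanSpace ℝ (Fin n))) + p)) :=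
      (hH.of_le (by exact_mod_cast le_top)).comp (contDiff_const.add contDiff_id)
    rw [h1, ContinuousLinearMap.iteratedFDeriv_comp_right g h2 η le_rfl]
    rw [iteratedFDeriv_comp_add_left]
    have h3 : ((δ, (0 : EuclideanSpace ℝ (Fin n))) + g η) = (δ, η) := by simp [hg]
    rw [h3]
    have h4 := ContinuousMultilinearMap.norm_compContinuousLinearMap_le
      (iteratedFDeriv ℝ l H (δ, η)) (fun _ => g)
    have h5 : ‖iteratedFDeriv ℝ l H (δ, η)‖ ≤ max C₀ 0 := by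
      have := hC₀ (δ, η) ⟨hδ, by simpa using hη⟩
      rw [norm_norm] at this
      exact this.trans (le_max_left _ _)
    simp only [Finset.prod_const, Finset.card_univ, Fintype.card_fin] at h4
    refine mul_le_mul (pow_le_pow_left₀ (norm_nonneg _) hη k) (h4.trans ?_) (norm_nonneg _) (by positivity)
    gcongr
  · have h1 : (fun η => H (δ, η)) =ᶠ[𝓝 η] fun _ => 0 := by
      have : {η : EuclideanSpace ℝ (Fin n) | 2 < ‖η‖} ∈ 𝓝 η :=
        (isOpen_lt continuous_const continuous_norm).mem_nhds (not_le.1 hη)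
      filter_upwards [this] with y hy using h0 δ y (le_of_lt hy)
    have h2 : iteratedFDeriv ℝ l (fun η => H (δ, η)) η = 0 := by
      rw [(Filter.EventuallyEq.iteratedFDeriv (𝕜 := ℝ) h1 l).self_of_nhds]
      simp
    rw [h2]; simp; positivity

/-- Schwartz function attached to a member of the family. -/
noncomputable def famS (H : ℝ × EuclideanSpace ℝ (Fin n) → ℂ) (hH : ContDiff ℝ ∞ H)
    (h0 : ∀ δ η, 2 ≤ ‖η‖ → H (δ, η) = 0) (δ : ℝ) : 𝓢(EuclideanSpace ℝ (Fin n), ℂ) :=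
  HasCompactSupport.toSchwartzMap (f := fun η => H (δ, η))
    (HasCompactSupport.of_support_subset_isCompact (isCompact_closedBall 0 2) (by
      intro η hη
      by_contra hcon
      simp only [Metric.mem_closedBall, dist_zero_right, not_le] at hcon
      exact hη (h0 δ η hcon.le)))
    (hH.comp (contDiff_const.prodMk contDiff_id))

@[simp] lemma famS_apply (H : ℝ × EuclideanSpace ℝ (Fin n) → ℂ) (hH : ContDiff ℝ ∞ H)
    (h0 : ∀ δ η, 2 ≤ ‖η‖ → H (δ, η) = 0) (δ : ℝ) (η : EuclideanSpace ℝ (Fin n)) :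
    famS H hH h0 δ η = H (δ, η) := rfl

/-- a Schwartz function with bounded seminorms has kernel bounds for its inverse transform -/
lemma ker_fourierInv_of_bound (M L : ℕ) : ∃ (s : Finset (ℕ × ℕ)) (C : ℝ), 0 ≤ C ∧
    ∀ g : 𝓢(EuclideanSpace ℝ (Fin n), ℂ), ∀ B : ℝ, 0 ≤ B →
      (∀ m ∈ s, SchwartzMap.seminorm ℝ m.1 m.2 g ≤ B) →
        Ker n M L (C * B) 1 ⇑(𝓕⁻ g : 𝓢(EuclideanSpace ℝ (Fin n), ℂ)) := by
  let T : 𝓢(EuclideanSpace ℝ (Fin n), ℂ) →L[ℝ] 𝓢(EuclideanSpace ℝ (Fin n), ℂ) :=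
    fourierInvCLM ℝ 𝓢(EuclideanSpace ℝ (Fin n), ℂ)
  let P : Seminorm ℝ 𝓢(EuclideanSpace ℝ (Fin n), ℂ) :=
    (Finset.Iic (M, L)).sup fun m : ℕ × ℕ => SchwartzMap.seminorm ℝ m.1 m.2
  let Q : Seminorm ℝ 𝓢(EuclideanSpace ℝ (Fin n), ℂ) := P.comp T.toLinearMap
  have hQc : Continuous Q := by
    have h1 : Continuous P := by
      refine Seminorm.continuous_of_le ?_ (Seminorm.finset_sup_le_sum _ _)
      have : Continuous (fun x : 𝓢(EuclideanSpace ℝ (Fin n), ℂ) => ∑ i ∈ Finset.Iic (M, L),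
          SchwartzMap.seminorm ℝ i.1 i.2 x) := by
        refine continuous_finset_sum _ fun i _ => ?_
        exact (schwartz_withSeminorms ℝ (EuclideanSpace ℝ (Fin n)) ℂ).continuous_seminorm i
      convert this using 1
      ext x
      simp
    exact h1.comp T.continuous
  obtain ⟨s, C, _, hC⟩ := Seminorm.bound_of_continuous
    (schwartz_withSeminorms ℝ (EuclideanSpace ℝ (Fin n)) ℂ) Q hQc
  refine ⟨s, 2 ^ M * C, by positivity, fun g B hB hg l hl z => ?_⟩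
  have h2 : Q g ≤ C * B := by
    refine (hC g).trans ?_
    rw [Seminorm.smul_apply]
    refine mul_le_mul_of_nonneg_left ?_ C.2
    refine Seminorm.finset_sup_apply_le hB fun i hi => hg i hi
  have h3 := one_add_le_sup_seminorm_apply (𝕜 := ℝ) (m := (M, L)) le_rfl hl (T g) z
  simp only [one_pow, one_mul, div_one]
  refine h3.trans ?_
  calc 2 ^ M * Q g ≤ 2 ^ M * (C * B) := by gcongr
    _ = _ := by ring

theorem fam_ker {H : ℝ × EuclideanSpace ℝ (Fin n) → ℂ} (hH : ContDiff ℝ ∞ H)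
    (h0 : ∀ δ η, 2 ≤ ‖η‖ → H (δ, η) = 0) (M L : ℕ) :
    ∃ A : ℝ, 0 ≤ A ∧ ∀ δ ∈ Icc (0:ℝ) 1, Ker n M L A 1
      ⇑(𝓕⁻ (famS H hH h0 δ) : 𝓢(EuclideanSpace ℝ (Fin n), ℂ)) := by
  obtain ⟨s, C, hC0, hC⟩ := ker_fourierInv_of_bound (n := n) M L
  choose B hB0 hB using fun m : ℕ × ℕ => fam_bound hH h0 m.1 m.2
  refine ⟨C * ∑ m ∈ s, B m, mul_nonneg hC0 (Finset.sum_nonneg fun m _ => hB0 m), fun δ hδ => ?_⟩
  refine hC _ _ (Finset.sum_nonneg fun m _ => hB0 m) fun m hm => ?_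
  refine le_trans ?_ (Finset.single_le_sum (f := B) (fun i _ => hB0 i) hm)
  exact SchwartzMap.seminorm_le_bound ℝ m.1 m.2 _ (hB0 m) (fun x => hB m δ hδ x)

end Pool.Agent.V8H56.BC
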