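import Pool.Agent.V8H56.BC.Symbols

/-! The Littlewood-Paley kernels with Bessel factors, and high frequency decay through powers of
the Laplacian (for MP_9b3711_an). -/

open MeasureTheory Set Filter SchwartzMap FourierTransform
open scoped ENNReal NNReal Topology SchwartzMap Convolution ContDiff Real

namespace Pool.Agent.V8H56.BC

variable {n : ℕ}

/-- kernel at frequency `2^j` with Bessel factor of order `β` and `r` powers of the Laplacian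
removed (the latter only for `j ≥ 1`) -/
noncomputable def kap {φ : EuclideanSpace ℝ (Fin n) → ℝ} (hφ : IsCutoff φ) (β : ℝ) (r j : ℕ) :
    𝓢(EuclideanSpace ℝ (Fin n), ℂ) :=
  if j = 0 then 𝓕⁻ (famS (Lf φ β) (contDiff_Lf hφ β) (Lf_zero hφ β) 1)
  else (((2:ℝ) ^ ((j:ℝ) * β) : ℝ) : ℂ) •
    (𝓕⁻ (aff 0 ((2:ℝ) ^ j) (by positivity)
      (famS (Hf φ β r) (contDiff_Hf hφ β r) (Hf_zero hφ β r) ((2:ℝ) ^ j)⁻¹)) :
        𝓢(EuclideanSpace ℝ (Fin n), ℂ))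

lemma fourier_kap_zero {φ : EuclideanSpace ℝ (Fin n) → ℝ} (hφ : IsCutoff φ) (β : ℝ) (r : ℕ)
    (ξ : EuclideanSpace ℝ (Fin n)) :
    𝓕 (kap hφ β r 0) ξ = ((lpSymbol φ 0 ξ * (1 + (2 * π * ‖ξ‖) ^ 2) ^ (β / 2) : ℝ) : ℂ) := by
  simp [kap, lpSymbol, Lf]

lemma fourier_kap {φ : EuclideanSpace ℝ (Fin n) → ℝ} (hφ : IsCutoff φ) (β : ℝ) (r : ℕ) {j : ℕ}
    (hj : j ≠ 0) (ξ : EuclideanSpace ℝ (Fin n)) :
    𝓕 (kap hφ β r j) ξ = ((lpSymbol φ j ξ * (1 + (2 * π * ‖ξ‖) ^ 2) ^ (β / 2) *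
      (((((2:ℝ) ^ j)⁻¹ * ‖ξ‖) ^ 2)⁻¹) ^ r : ℝ) : ℂ) := by
  have h2 : (0:ℝ) < ((2:ℝ) ^ j)⁻¹ := by positivity
  simp only [kap, if_neg hj, FourierTransform.fourier_smul, FourierTransform.fourier_fourierInv_eq,
    smul_apply, aff_apply, famS_apply, sub_zero, smul_eq_mul, Hf, lpSymbol]
  rw [← Complex.ofReal_mul]
  congr 1
  rw [norm_smul, Real.norm_of_nonneg h2.le, smul_smul]
  have h3 : (1 + (2 * π * ‖ξ‖) ^ 2) ^ (β / 2) = (2:ℝ) ^ ((j:ℝ) * β) *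
      ((((2:ℝ) ^ j)⁻¹) ^ 2 + (2 * π * (((2:ℝ) ^ j)⁻¹ * ‖ξ‖)) ^ 2) ^ (β / 2) := by
    have e1 : (2:ℝ) ^ ((j:ℝ) * β) = (((2:ℝ) ^ j) ^ 2) ^ (β / 2) := by
      rw [← Real.rpow_natCast, ← Real.rpow_natCast, ← Real.rpow_mul (by norm_num),
        ← Real.rpow_mul (by norm_num)]
      congr 1
      push_cast; ring
    rw [e1, ← Real.mul_rpow (by positivity) (by positivity)]
    congr 1
    field_simp
  rw [h3]
  ring

lemma ker_smul {M L : ℕ} {A t : ℝ} (c : ℂ) {q : 𝓢(EuclideanSpace ℝ (Fin n), ℂ)}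
    (h : Ker n M L A t q) : Ker n M L (‖c‖ * A) t (c • q : 𝓢(EuclideanSpace ℝ (Fin n), ℂ)) := by
  intro l hl z
  have e1 : (⇑(c • q : 𝓢(EuclideanSpace ℝ (Fin n), ℂ))) = c • (⇑q) := by
    funext x; rfl
  rw [e1, iteratedFDeriv_const_smul_apply (q.smooth l).contDiffAt, norm_smul]
  calc _ = ‖c‖ * (t ^ (n + l) * (1 + ‖z‖ / t) ^ M * ‖iteratedFDeriv ℝ l (⇑q) z‖) := by ring
    _ ≤ _ := by
      gcongr
      exact h l hl z

/-- uniform kernel bounds -/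
theorem ker_kap {φ : EuclideanSpace ℝ (Fin n) → ℝ} (hφ : IsCutoff φ) (β : ℝ) (r M L : ℕ) :
    ∃ A : ℝ, 0 ≤ A ∧ ∀ j : ℕ, Ker n M L (A * (2:ℝ) ^ ((j:ℝ) * β)) (((2:ℝ) ^ j)⁻¹)
      (kap hφ β r j) := by
  obtain ⟨A₁, hA₁, h1⟩ := fam_ker (contDiff_Lf hφ β) (Lf_zero hφ β) M L
  obtain ⟨A₂, hA₂, h2⟩ := fam_ker (contDiff_Hf hφ β r) (Hf_zero hφ β r) M L
  refine ⟨max A₁ A₂, le_max_of_le_left hA₁, fun j => ?_⟩
  have hmono : ∀ {A A' t : ℝ} {q : EuclideanSpace ℝ (Fin n) → ℂ}, A ≤ A' → Ker n M L A t q →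
      Ker n M L A' t q := fun hAA h l hl z => (h l hl z).trans hAA
  rcases eq_or_ne j 0 with rfl | hj
  · simp only [kap, if_true, pow_zero, inv_one, Nat.cast_zero, zero_mul, Real.rpow_zero, mul_one]
    exact hmono (le_max_left _ _) (h1 1 (by simp))
  · have h3 : (((2:ℝ) ^ j)⁻¹) ∈ Icc (0:ℝ) 1 :=
      ⟨by positivity, inv_le_one_of_one_le₀ (one_le_pow₀ (by norm_num))⟩
    have h4 := ker_scale (h2 _ h3) (s := (2:ℝ) ^ j) (by positivity)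
      (q := (𝓕⁻ (aff 0 ((2:ℝ) ^ j) (by positivity)
      (famS (Hf φ β r) (contDiff_Hf hφ β r) (Hf_zero hφ β r) ((2:ℝ) ^ j)⁻¹)) :
        𝓢(EuclideanSpace ℝ (Fin n), ℂ))) (fun x => by
          rw [fourierInv_aff _ (by positivity)])
    have h5 := ker_smul ((((2:ℝ) ^ ((j:ℝ) * β) : ℝ) : ℂ)) h4
    simp only [kap, if_neg hj]
    refine hmono ?_ h5
    rw [Complex.norm_real, Real.norm_of_nonneg (by positivity), mul_comm]
    gcongr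
    exact le_max_right _ _

lemma contDiff_lpSymbol {φ : EuclideanSpace ℝ (Fin n) → ℝ} (hφ : IsCutoff φ) (j : ℕ) :
    ContDiff ℝ ∞ (lpSymbol φ j) := by
  unfold lpSymbol
  by_cases hj : j = 0
  · simp only [hj, if_true]; exact hφ.smooth
  · simp only [hj, if_false]
    exact (hφ.smooth.comp (contDiff_id.const_smul _)).sub (hφ.smooth.comp (contDiff_id.const_smul _))

lemma lpSymbol_zero {φ : EuclideanSpace ℝ (Fin n) → ℝ} (hφ : IsCutoff φ) (j : ℕ)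
    (ξ : EuclideanSpace ℝ (Fin n)) (hξ : 2 ^ (j+1) ≤ ‖ξ‖) : lpSymbol φ j ξ = 0 := by
  have h1 : (0:ℝ) < (2:ℝ) ^ j := by positivity
  have h2 : (2:ℝ) ≤ ((2:ℝ) ^ j)⁻¹ * ‖ξ‖ := by
    rw [← div_eq_inv_mul, le_div_iff₀ h1, mul_comm, ← pow_succ]; exact hξ
  unfold lpSymbol
  split_ifs with hj
  · apply hφ.zero; rw [hj] at hξ; simpa using hξ
  · rw [hφ.zero _ (by rw [norm_smul, Real.norm_of_nonneg (by positivity)]; exact h2),
      hφ.zero _ (by rw [norm_smul, Real.norm_of_nonneg (by positivity)]; linarith), sub_zero]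

lemma hasTemperateGrowth_lpSymbol {φ : EuclideanSpace ℝ (Fin n) → ℝ} (hφ : IsCutoff φ) (j : ℕ) :
    (lpSymbol φ j).HasTemperateGrowth := by
  refine HasCompactSupport.hasTemperateGrowth ?_ (contDiff_lpSymbol hφ j)
  refine HasCompactSupport.of_support_subset_isCompact (isCompact_closedBall 0 ((2:ℝ) ^ (j+1))) ?_
  intro ξ hξ
  by_contra hcon
  simp only [Metric.mem_closedBall, dist_zero_right, not_le] at hcon
  exact hξ (lpSymbol_zero hφ j ξ hcon.le)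

/-- Littlewood-Paley pieces are convolutions -/
lemma lp_eq_cS {φ : EuclideanSpace ℝ (Fin n) → ℝ} (hφ : IsCutoff φ) (j : ℕ)
    (u : 𝓢(EuclideanSpace ℝ (Fin n), ℂ)) :
    SchwartzMap.fourierMultiplierCLM ℂ (lpSymbol φ j) u = cS (kap hφ 0 0 j) u := by
  apply eq_of_fourier_eq
  intro ξ
  rw [SchwartzMap.fourierMultiplierCLM_apply, FourierTransform.fourier_fourierInv_eq,
    SchwartzMap.smulLeftCLM_apply_apply (hasTemperateGrowth_lpSymbol hφ j), fourier_cS]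
  rcases eq_or_ne j 0 with rfl | hj
  · rw [fourier_kap_zero]; simp
  · rw [fourier_kap hφ _ _ hj]; simp

/-- minus the Laplacian, normalised -/
noncomputable def Lam (u : 𝓢(EuclideanSpace ℝ (Fin n), ℂ)) : 𝓢(EuclideanSpace ℝ (Fin n), ℂ) :=
  SchwartzMap.fourierMultiplierCLM ℂ (fun ξ : EuclideanSpace ℝ (Fin n) => ‖ξ‖ ^ 2) u

lemma fourier_Lam (u : 𝓢(EuclideanSpace ℝ (Fin n), ℂ)) (ξ : EuclideanSpace ℝ (Fin n)) :
    𝓕 (Lam u) ξ = ((‖ξ‖ ^ 2 : ℝ) : ℂ) * 𝓕 u ξ := by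
  rw [Lam, SchwartzMap.fourierMultiplierCLM_apply, FourierTransform.fourier_fourierInv_eq,
    SchwartzMap.smulLeftCLM_apply_apply (by fun_prop)]
  rfl

lemma fourier_Lam_iterate (r : ℕ) (u : 𝓢(EuclideanSpace ℝ (Fin n), ℂ))
    (ξ : EuclideanSpace ℝ (Fin n)) :
    𝓕 (Lam^[r] u) ξ = (((‖ξ‖ ^ 2) ^ r : ℝ) : ℂ) * 𝓕 u ξ := by
  induction r with
  | zero => simp
  | succ r ih =>
    rw [Function.iterate_succ_apply', fourier_Lam, ih, pow_succ]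
    push_cast; ring

lemma dif_eq_aff (h : EuclideanSpace ℝ (Fin n)) (g : 𝓢(EuclideanSpace ℝ (Fin n), ℂ)) :
    dif h g = aff (-h) 1 one_ne_zero g + (-1 : ℂ) • g := by
  ext x; simp; ring

lemma Lam_dif (h : EuclideanSpace ℝ (Fin n)) (g : 𝓢(EuclideanSpace ℝ (Fin n), ℂ)) :
    Lam (dif h g) = dif h (Lam g) := by
  apply eq_of_fourier_eq
  intro ξ
  rw [fourier_Lam, dif_eq_aff, dif_eq_aff]
  simp only [FourierTransform.fourier_add, FourierTransform.fourier_smul, add_apply, smul_apply]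
  rw [fourier_aff _ _ one_pos, fourier_aff _ _ one_pos, one_smul, fourier_Lam]
  simp only [smul_eq_mul]
  ring

lemma Lam_aff (x₀ : EuclideanSpace ℝ (Fin n)) (s : ℝ) (hs : 0 < s)
    (g : 𝓢(EuclideanSpace ℝ (Fin n), ℂ)) :
    Lam (aff x₀ s hs.ne' g) = (((s ^ 2)⁻¹ : ℝ) : ℂ) • aff x₀ s hs.ne' (Lam g) := by
  apply eq_of_fourier_eq
  intro ξ
  rw [fourier_Lam]
  simp only [FourierTransform.fourier_smul, smul_apply]
  rw [fourier_aff _ _ hs, fourier_aff _ _ hs, fourier_Lam]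
  rw [norm_smul, Real.norm_of_nonneg hs.le]
  have : (s:ℂ) ≠ 0 := by exact_mod_cast hs.ne'
  push_cast
  simp only [smul_eq_mul]
  field_simp

lemma Lam_smul (c : ℂ) (g : 𝓢(EuclideanSpace ℝ (Fin n), ℂ)) : Lam (c • g) = c • Lam g := by
  apply eq_of_fourier_eq
  intro ξ
  rw [fourier_Lam]
  simp only [FourierTransform.fourier_smul, smul_apply]
  rw [fourier_Lam]
  simp only [smul_eq_mul]; ring

lemma Lam_block (h x₀ : EuclideanSpace ℝ (Fin n)) (D : ℕ) (s : ℝ) (hs : 0 < s) (r : ℕ)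
    (ψ : 𝓢(EuclideanSpace ℝ (Fin n), ℂ)) :
    Lam^[r] (aff x₀ s hs.ne' ((dif h)^[D] ψ)) =
      ((((s ^ 2)⁻¹) ^ r : ℝ) : ℂ) • aff x₀ s hs.ne' ((dif h)^[D] (Lam^[r] ψ)) := by
  have hcomm : ∀ D (g : 𝓢(EuclideanSpace ℝ (Fin n), ℂ)), Lam ((dif h)^[D] g) = (dif h)^[D] (Lam g) := by
    intro D
    induction D with
    | zero => intro g; rfl
    | succ D ih => intro g; rw [Function.iterate_succ_apply, ih, Lam_dif, ← Function.iterate_succ_apply]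
  induction r with
  | zero => simp
  | succ r ih =>
    rw [Function.iterate_succ_apply', ih, Lam_smul, Lam_aff _ _ hs, hcomm,
      Function.iterate_succ_apply', smul_smul]
    congr 1
    push_cast
    ring

/-- high frequency identity -/
lemma cS_kap_high {φ : EuclideanSpace ℝ (Fin n) → ℝ} (hφ : IsCutoff φ) (β : ℝ) (r : ℕ) {j : ℕ}
    (hj : j ≠ 0) (u : 𝓢(EuclideanSpace ℝ (Fin n), ℂ)) :
    cS (kap hφ β 0 j) u =
      ((((((2:ℝ) ^ j)⁻¹) ^ 2) ^ r : ℝ) : ℂ) • cS (kap hφ β r j) (Lam^[r] u) := by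
  apply eq_of_fourier_eq
  intro ξ
  simp only [FourierTransform.fourier_smul, smul_apply]
  rw [fourier_cS, fourier_cS, fourier_Lam_iterate, fourier_kap hφ _ _ hj, fourier_kap hφ _ _ hj]
  by_cases hξ : ξ = 0
  · have : lpSymbol φ j ξ = 0 := by
      simp only [lpSymbol, if_neg hj, hξ, smul_zero, sub_self]
    rw [this]; simp
  · have h1 : (0:ℝ) < ‖ξ‖ := norm_pos_iff.2 hξ
    have h2 : (((2:ℝ) ^ j)⁻¹ ^ 2) ^ r * ((((((2:ℝ) ^ j)⁻¹ * ‖ξ‖) ^ 2)⁻¹) ^ r * (‖ξ‖ ^ 2) ^ r) = 1 := by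
      rw [← mul_pow, ← mul_pow]
      have : (((2:ℝ) ^ j)⁻¹ ^ 2) * ((((((2:ℝ) ^ j)⁻¹ * ‖ξ‖) ^ 2)⁻¹) * (‖ξ‖ ^ 2)) = 1 := by
        field_simp
      rw [this, one_pow]
    simp only [smul_eq_mul, pow_zero, mul_one]
    rw [show ((lpSymbol φ j ξ * (1 + (2 * π * ‖ξ‖) ^ 2) ^ (β / 2) : ℝ) : ℂ) =
      ((lpSymbol φ j ξ * (1 + (2 * π * ‖ξ‖) ^ 2) ^ (β / 2) *
        ((((2:ℝ) ^ j)⁻¹ ^ 2) ^ r * ((((((2:ℝ) ^ j)⁻¹ * ‖ξ‖) ^ 2)⁻¹) ^ r * (‖ξ‖ ^ 2) ^ r)) : ℝ) : ℂ) by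
      rw [h2, mul_one]]
    push_cast
    ring

end Pool.Agent.V8H56.BC
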