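import Pool.Agent.V8H56.BC.UpperA

/-! Convergence of Littlewood-Paley sums; bumps as kernels (for MP_9b3711_an). -/

open MeasureTheory Set Filter SchwartzMap FourierTransform
open scoped ENNReal NNReal Topology SchwartzMap Convolution ContDiff Real

namespace Pool.Agent.V8H56.BC

variable {n : ℕ}

lemma lp_sum (φ : EuclideanSpace ℝ (Fin n) → ℝ) (J : ℕ) (ξ : EuclideanSpace ℝ (Fin n)) :
    ∑ j ∈ Finset.range (J+1), lpSymbol φ j ξ = φ (((2:ℝ) ^ J)⁻¹ • ξ) := by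
  induction J with
  | zero => simp [lpSymbol]
  | succ J ih =>
    rw [Finset.sum_range_succ, ih]
    unfold lpSymbol
    rw [if_neg (Nat.succ_ne_zero J)]
    have : 2 * ((2:ℝ) ^ (J+1))⁻¹ = ((2:ℝ) ^ J)⁻¹ := by
      rw [pow_succ]; field_simp
    rw [this]; ring

lemma cutoff_bounded {φ : EuclideanSpace ℝ (Fin n) → ℝ} (hφ : IsCutoff φ) :
    ∃ M : ℝ, 0 ≤ M ∧ ∀ ξ, |φ ξ| ≤ M := by
  obtain ⟨M, hM⟩ := (isCompact_closedBall (0 : EuclideanSpace ℝ (Fin n)) 2).exists_bound_of_continuousOn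
    (f := φ) hφ.smooth.continuous.continuousOn
  refine ⟨max M 0, le_max_right _ _, fun ξ => ?_⟩
  by_cases h : ‖ξ‖ ≤ 2
  · exact (hM ξ (by simpa using h)).trans (le_max_left _ _)
  · rw [hφ.zero ξ (le_of_lt (not_le.1 h))]; simp

lemma cut_conv {φ : EuclideanSpace ℝ (Fin n) → ℝ} (hφ : IsCutoff φ)
    {k : EuclideanSpace ℝ (Fin n) → ℂ} (hk : Integrable k) :
    Tendsto (fun J : ℕ => ∫ ξ, ((φ (((2:ℝ) ^ J)⁻¹ • ξ) : ℝ) : ℂ) * k ξ) atTop (𝓝 (∫ ξ, k ξ)) := by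
  obtain ⟨M, hM0, hM⟩ := cutoff_bounded hφ
  refine tendsto_integral_of_dominated_convergence (fun ξ => M * ‖k ξ‖) ?_ (hk.norm.const_mul M) ?_ ?_
  · intro J
    refine AEStronglyMeasurable.mul ?_ hk.aestronglyMeasurable
    exact (Complex.continuous_ofReal.comp
      (hφ.smooth.continuous.comp (continuous_const_smul _))).aestronglyMeasurable
  · intro J
    refine Eventually.of_forall fun ξ => ?_
    rw [norm_mul, Complex.norm_real, Real.norm_eq_abs]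
    gcongr
    exact hM _
  · refine Eventually.of_forall fun ξ => ?_
    have h1 : ∀ᶠ J : ℕ in atTop, ((φ (((2:ℝ) ^ J)⁻¹ • ξ) : ℝ) : ℂ) * k ξ = k ξ := by
      have h2 : Tendsto (fun J : ℕ => (2:ℝ) ^ J) atTop atTop :=
        tendsto_pow_atTop_atTop_of_one_lt (by norm_num)
      filter_upwards [h2.eventually_ge_atTop ‖ξ‖] with J hJ
      rw [hφ.one _ (by
        rw [norm_smul, norm_inv, norm_pow, Real.norm_ofNat]
        rw [inv_mul_le_iff₀ (by positivity), mul_one]; exact hJ)]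
      simp
    exact tendsto_const_nhds.congr' (h1.mono fun J hJ => hJ.symm)

/-- partial sums of Littlewood-Paley pieces converge pointwise -/
lemma lp_conv_eval {φ : EuclideanSpace ℝ (Fin n) → ℝ} (hφ : IsCutoff φ)
    (f : 𝓢(EuclideanSpace ℝ (Fin n), ℂ)) (fj : ℕ → 𝓢(EuclideanSpace ℝ (Fin n), ℂ))
    (hfj : ∀ j ξ, 𝓕 (fj j) ξ = ((lpSymbol φ j ξ : ℝ) : ℂ) * 𝓕 f ξ)
    (x : EuclideanSpace ℝ (Fin n)) :
    Tendsto (fun J : ℕ => ∑ j ∈ Finset.range (J+1), fj j x) atTop (𝓝 (f x)) := by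
  have h1 : ∀ g : 𝓢(EuclideanSpace ℝ (Fin n), ℂ), g x =
      ∫ ξ, Complex.exp (((2 * π * (inner ℝ ξ x : ℝ) : ℝ) : ℂ) * Complex.I) • 𝓕 g ξ := by
    intro g
    have e1 : g = 𝓕⁻ (𝓕 g) := by simp
    conv_lhs => rw [e1, fourierInv_coe, Real.fourierInv_eq']
  have hint : Integrable (fun ξ =>
      Complex.exp (((2 * π * (inner ℝ ξ x : ℝ) : ℝ) : ℂ) * Complex.I) • 𝓕 f ξ) := by
    refine ((𝓕 f).integrable (μ := volume)).mono ?_ ?_
    · exact ((by fun_prop : Continuous fun ξ : EuclideanSpace ℝ (Fin n) =>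
        Complex.exp (((2 * π * (inner ℝ ξ x : ℝ) : ℝ) : ℂ) * Complex.I)).smul
        (𝓕 f).continuous).aestronglyMeasurable
    · refine Eventually.of_forall fun ξ => ?_
      rw [norm_smul, Complex.norm_exp_ofReal_mul_I, one_mul]
  have h2 := cut_conv hφ hint
  rw [← h1 f] at h2
  refine h2.congr fun J => ?_
  have h3 : ∑ j ∈ Finset.range (J+1), fj j x = (∑ j ∈ Finset.range (J+1), fj j) x := by
    rw [sum_apply]
  rw [h3, h1]
  refine integral_congr_ae (Eventually.of_forall fun ξ => ?_)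
  simp only
  have h4 : 𝓕 (∑ j ∈ Finset.range (J+1), fj j) ξ = ((φ (((2:ℝ) ^ J)⁻¹ • ξ) : ℝ) : ℂ) * 𝓕 f ξ := by
    have e1 : 𝓕 (∑ j ∈ Finset.range (J+1), fj j) = ∑ j ∈ Finset.range (J+1), 𝓕 (fj j) :=
      map_sum (fourierCLM ℂ 𝓢(EuclideanSpace ℝ (Fin n), ℂ)) _ _
    rw [e1, sum_apply, ← lp_sum φ J ξ]
    push_cast
    rw [Finset.sum_mul]
    exact Finset.sum_congr rfl fun j _ => hfj j ξ
  rw [h4]
  simp only [smul_eq_mul]
  ring

/-- partial sums of Littlewood-Paley pieces converge weakly -/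
lemma lp_conv_pair {φ : EuclideanSpace ℝ (Fin n) → ℝ} (hφ : IsCutoff φ)
    (f g : 𝓢(EuclideanSpace ℝ (Fin n), ℂ)) (fj : ℕ → 𝓢(EuclideanSpace ℝ (Fin n), ℂ))
    (hfj : ∀ j ξ, 𝓕 (fj j) ξ = ((lpSymbol φ j ξ : ℝ) : ℂ) * 𝓕 f ξ) :
    Tendsto (fun J : ℕ => ∑ j ∈ Finset.range (J+1), ∫ x, g x * fj j x) atTop
      (𝓝 (∫ x, g x * f x)) := by
  have h1 : ∀ u : 𝓢(EuclideanSpace ℝ (Fin n), ℂ), ∫ x, g x * u x =
      ∫ ξ, (𝓕⁻ g : 𝓢(EuclideanSpace ℝ (Fin n), ℂ)) ξ * 𝓕 u ξ := by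
    intro u
    rw [SchwartzMap.integral_fourierInv_mul_eq]
    refine integral_congr_ae (Eventually.of_forall fun x => ?_)
    simp
  have hint : Integrable (fun ξ => (𝓕⁻ g : 𝓢(EuclideanSpace ℝ (Fin n), ℂ)) ξ * 𝓕 f ξ) := by
    refine Integrable.bdd_mul (c := SchwartzMap.seminorm ℝ 0 0
      (𝓕⁻ g : 𝓢(EuclideanSpace ℝ (Fin n), ℂ))) (𝓕 f).integrable ?_ ?_
    · exact (SchwartzMap.continuous _).aestronglyMeasurable
    · exact Eventually.of_forall fun z => norm_le_seminorm ℝ _ _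
  have h2 := cut_conv hφ hint
  rw [← h1 f] at h2
  refine h2.congr fun J => ?_
  have h3 : ∑ j ∈ Finset.range (J+1), ∫ x, g x * fj j x =
      ∫ ξ, ∑ j ∈ Finset.range (J+1), (𝓕⁻ g : 𝓢(EuclideanSpace ℝ (Fin n), ℂ)) ξ * 𝓕 (fj j) ξ := by
    rw [integral_finsetSum]
    · exact Finset.sum_congr rfl fun j _ => h1 (fj j)
    · intro j _
      refine Integrable.bdd_mul (c := SchwartzMap.seminorm ℝ 0 0
        (𝓕⁻ g : 𝓢(EuclideanSpace ℝ (Fin n), ℂ))) (𝓕 (fj j)).integrable ?_ ?_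
      · exact (SchwartzMap.continuous _).aestronglyMeasurable
      · exact Eventually.of_forall fun z => norm_le_seminorm ℝ _ _
  rw [h3]
  refine integral_congr_ae (Eventually.of_forall fun ξ => ?_)
  simp only
  rw [← lp_sum φ J ξ]
  push_cast
  rw [Finset.sum_mul]
  refine Finset.sum_congr rfl fun j _ => ?_
  rw [hfj]; ring

lemma enorm_le_tsum_of_tendsto {a : ℕ → ℂ} {L : ℂ}
    (h : Tendsto (fun J : ℕ => ∑ j ∈ Finset.range (J+1), a j) atTop (𝓝 L)) :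
    ‖L‖ₑ ≤ ∑' j, ‖a j‖ₑ := by
  refine le_of_tendsto (continuous_enorm.tendsto L |>.comp h) (Eventually.of_forall fun J => ?_)
  exact (enorm_sum_le _ _).trans (ENNReal.sum_le_tsum _)

/-- reflection and translation -/
noncomputable def refl (y : EuclideanSpace ℝ (Fin n)) (ψ : 𝓢(EuclideanSpace ℝ (Fin n), ℂ)) :
    𝓢(EuclideanSpace ℝ (Fin n), ℂ) :=
  compSubConstCLM ℂ y (compCLMOfContinuousLinearEquiv ℂ (ContinuousLinearEquiv.neg ℝ) ψ)

@[simp] lemma refl_apply (y : EuclideanSpace ℝ (Fin n)) (ψ : 𝓢(EuclideanSpace ℝ (Fin n), ℂ))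
    (w : EuclideanSpace ℝ (Fin n)) : refl y ψ w = ψ (y - w) := by
  simp [refl]

lemma norm_iteratedFDeriv_refl_le (y : EuclideanSpace ℝ (Fin n))
    (ψ : 𝓢(EuclideanSpace ℝ (Fin n), ℂ)) (l : ℕ) (w : EuclideanSpace ℝ (Fin n)) :
    ‖iteratedFDeriv ℝ l (refl y ψ) w‖ ≤ ‖iteratedFDeriv ℝ l ψ (y - w)‖ := by
  set G : EuclideanSpace ℝ (Fin n) →L[ℝ] EuclideanSpace ℝ (Fin n) :=
    -ContinuousLinearMap.id ℝ _ with hG
  have h1 : (⇑(refl y ψ)) = (fun v => ψ (y + v)) ∘ G := by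
    funext v; simp [hG, sub_eq_add_neg]
  have h2 : ContDiff ℝ l (fun v => ψ (y + v)) := (ψ.smooth l).comp (contDiff_const.add contDiff_id)
  rw [h1, ContinuousLinearMap.iteratedFDeriv_comp_right G h2 w le_rfl,
    iteratedFDeriv_comp_add_left]
  have h4 := ContinuousMultilinearMap.norm_compContinuousLinearMap_le
    (iteratedFDeriv ℝ l ψ (y + G w)) (fun _ => G)
  simp only [Finset.prod_const, Finset.card_univ, Fintype.card_fin] at h4
  have h5 : y + G w = y - w := by simp [hG, sub_eq_add_neg]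
  rw [h5] at h4 ⊢
  refine h4.trans ?_
  have h6 : ‖G‖ ≤ 1 := by
    rw [hG, norm_neg]; exact ContinuousLinearMap.norm_id_le
  calc _ ≤ ‖iteratedFDeriv ℝ l ψ (y - w)‖ * 1 ^ l := by gcongr
    _ = _ := by simp

lemma ker_of_bump {N M L : ℕ} (hM : M ≤ N) (hL : L ≤ N) {y : EuclideanSpace ℝ (Fin n)} {a : ℝ}
    (ha : 0 < a) {ψ : 𝓢(EuclideanSpace ℝ (Fin n), ℂ)} (hψ : IsBump N y a ψ) :
    Ker n M L (2 ^ (M + 1)) a (refl y ψ) := by
  intro l hl w
  have h1 := hψ 0 (Nat.zero_le _) l (hl.trans hL) (y - w)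
  have h2 := hψ M hM l (hl.trans hL) (y - w)
  have e1 : ‖y - w - y‖ = ‖w‖ := by
    rw [sub_sub_cancel_left, norm_neg]
  rw [e1] at h1 h2
  rw [pow_zero, one_mul] at h1
  set Y := a ^ (n + l) * ‖iteratedFDeriv ℝ l ψ (y - w)‖ with hY
  have hY0 : 0 ≤ Y := by positivity
  set ρ := ‖w‖ / a with hρ
  have hρ0 : 0 ≤ ρ := by positivity
  have h3 : (1 + ρ) ^ M ≤ 2 ^ M * (1 + ρ ^ M) := by
    have h4 : 1 + ρ ≤ 2 * max 1 ρ := by
      have := le_max_left 1 ρ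
      have := le_max_right 1 ρ
      linarith
    calc (1 + ρ) ^ M ≤ (2 * max 1 ρ) ^ M := by gcongr
      _ = 2 ^ M * (max 1 ρ) ^ M := by rw [mul_pow]
      _ ≤ 2 ^ M * (1 + ρ ^ M) := by
          gcongr
          rcases le_total 1 ρ with h | h
          · rw [max_eq_right h]; linarith
          · rw [max_eq_left h, one_pow]; have : 0 ≤ ρ ^ M := by positivity
            linarith
  calc a ^ (n + l) * (1 + ρ) ^ M * ‖iteratedFDeriv ℝ l (refl y ψ) w‖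
      ≤ a ^ (n + l) * (2 ^ M * (1 + ρ ^ M)) * ‖iteratedFDeriv ℝ l ψ (y - w)‖ := by
        gcongr
        exact norm_iteratedFDeriv_refl_le y ψ l w
    _ = 2 ^ M * (Y + ρ ^ M * Y) := by rw [hY]; ring
    _ ≤ 2 ^ M * (1 + 1) := by gcongr
    _ = _ := by rw [pow_succ]; ring

end Pool.Agent.V8H56.BC
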