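import Pool.Agent.V8H56.BC.UpperB
import Pool.Agent.V8H56.BC.Dyadic

/-! Lower bound for the Besov capacity by the dyadic content (for MP_9b3711_an). -/

open MeasureTheory Set Filter SchwartzMap FourierTransform
open scoped ENNReal NNReal Topology SchwartzMap Convolution ContDiff Real

namespace Pool.Agent.V8H56.BC

variable {n : ℕ}

/-- the dilated cut-off as a Schwartz function -/
noncomputable def cutS {φ : EuclideanSpace ℝ (Fin n) → ℝ} (hφ : IsCutoff φ) (J : ℕ) :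
    𝓢(EuclideanSpace ℝ (Fin n), ℂ) :=
  aff 0 ((2:ℝ) ^ J) (by positivity) (famS (Lf φ 0) (contDiff_Lf hφ 0) (Lf_zero hφ 0) 1)

lemma cutS_apply {φ : EuclideanSpace ℝ (Fin n) → ℝ} (hφ : IsCutoff φ) (J : ℕ)
    (ξ : EuclideanSpace ℝ (Fin n)) : cutS hφ J ξ = ((φ (((2:ℝ) ^ J)⁻¹ • ξ) : ℝ) : ℂ) := by
  simp [cutS, Lf]

lemma ker_cutS {φ : EuclideanSpace ℝ (Fin n) → ℝ} (hφ : IsCutoff φ) (M L : ℕ) :
    ∃ A : ℝ, 0 ≤ A ∧ ∀ J : ℕ, Ker n M L A (((2:ℝ) ^ J)⁻¹)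
      ⇑(𝓕⁻ (cutS hφ J) : 𝓢(EuclideanSpace ℝ (Fin n), ℂ)) := by
  obtain ⟨A, hA, h1⟩ := fam_ker (contDiff_Lf hφ 0) (Lf_zero hφ 0) M L
  refine ⟨A, hA, fun J => ?_⟩
  exact ker_scale (h1 1 (by simp)) (s := (2:ℝ) ^ J) (by positivity) (fun x => by
    rw [cutS, fourierInv_aff _ (by positivity)])

lemma fourier_kap_lp {φ : EuclideanSpace ℝ (Fin n) → ℝ} (hφ : IsCutoff φ) (j : ℕ)
    (u : 𝓢(EuclideanSpace ℝ (Fin n), ℂ)) (ξ : EuclideanSpace ℝ (Fin n)) :
    𝓕 (cS (kap hφ 0 0 j) u) ξ = ((lpSymbol φ j ξ : ℝ) : ℂ) * 𝓕 u ξ := by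
  rw [fourier_kap_jup, fourier_jup]
  unfold jsym
  simp

/-- Littlewood-Paley pieces are reproduced by a slightly larger cut-off -/
lemma reproduce {φ : EuclideanSpace ℝ (Fin n) → ℝ} (hφ : IsCutoff φ) (j : ℕ)
    (u : 𝓢(EuclideanSpace ℝ (Fin n), ℂ)) :
    cS (𝓕⁻ (cutS hφ (j+1)) : 𝓢(EuclideanSpace ℝ (Fin n), ℂ)) (cS (kap hφ 0 0 j) u)
      = cS (kap hφ 0 0 j) u := by
  apply eq_of_fourier_eq
  intro ξ
  rw [fourier_cS, fourier_kap_lp, FourierTransform.fourier_fourierInv_eq, cutS_apply]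
  by_cases h : 2 ^ (j+1) ≤ ‖ξ‖
  · rw [lpSymbol_zero hφ j ξ h]; simp
  · rw [hφ.one _ (by
      rw [norm_smul, norm_inv, norm_pow, Real.norm_ofNat, inv_mul_le_iff₀ (by positivity), mul_one]
      exact (not_le.1 h).le)]
    simp

/-- the Plancherel-Polya-Peetre inequality -/
theorem peetre {p : ℝ} (hp : 0 < p) (hp1 : p ≤ 1) {m : ℕ} {A t : ℝ} (ht : 0 < t)
    {κ g : 𝓢(EuclideanSpace ℝ (Fin n), ℂ)} (hκ : Ker n m 0 A t κ) (hg : cS κ g = g)
    (x y : EuclideanSpace ℝ (Fin n)) :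
    ‖g y‖ₑ ^ p ≤ ENNReal.ofReal ((1 + ‖x - y‖ / t) ^ m) ^ p *
      (ENNReal.ofReal (A * (t ^ n)⁻¹) *
        ∫⁻ z, ‖g z‖ₑ ^ p * ENNReal.ofReal (((1 + ‖x - z‖ / t) ^ m)⁻¹) ^ p) := by
  have hA := ker_nonneg ht hκ
  set om : EuclideanSpace ℝ (Fin n) → EuclideanSpace ℝ (Fin n) → ℝ≥0∞ := fun a b =>
    ENNReal.ofReal ((1 + ‖a - b‖ / t) ^ m) with hom
  have hom0 : ∀ a b, om a b ≠ 0 := fun a b => by
    simp only [hom, ne_eq, ENNReal.ofReal_eq_zero, not_le]; positivity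
  have homt : ∀ a b, om a b ≠ ⊤ := fun a b => ENNReal.ofReal_ne_top
  have hominv : ∀ a b, ENNReal.ofReal (((1 + ‖a - b‖ / t) ^ m)⁻¹) = (om a b)⁻¹ := fun a b => by
    simp only [hom]; rw [ENNReal.ofReal_inv_of_pos (by positivity)]
  have homtri : ∀ a b c, om a c ≤ om a b * om b c := by
    intro a b c
    simp only [hom]
    rw [← ENNReal.ofReal_mul (by positivity), ← mul_pow]
    apply ENNReal.ofReal_le_ofReal
    gcongr
    have h1 : ‖a - c‖ ≤ ‖a - b‖ + ‖b - c‖ := by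
      have : a - c = (a - b) + (b - c) := by abel
      rw [this]; exact norm_add_le _ _
    have h2 : ‖a - c‖ / t ≤ ‖a - b‖ / t + ‖b - c‖ / t := by rw [← add_div]; gcongr
    have h3 : 0 ≤ ‖a - b‖ / t * (‖b - c‖ / t) := by positivity
    nlinarith
  set A' := ENNReal.ofReal (A * (t ^ n)⁻¹) with hA'
  set I := ∫⁻ z, ‖g z‖ₑ ^ p * ENNReal.ofReal (((1 + ‖x - z‖ / t) ^ m)⁻¹) ^ p with hI
  set G : ℝ≥0∞ := ⨆ y, ‖g y‖ₑ * (om x y)⁻¹ with hG
  have hGle : ∀ z, ‖g z‖ₑ ≤ G * om x z := by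
    intro z
    have h1 : ‖g z‖ₑ * (om x z)⁻¹ ≤ G := le_iSup (fun y => ‖g y‖ₑ * (om x y)⁻¹) z
    calc ‖g z‖ₑ = ‖g z‖ₑ * (om x z)⁻¹ * om x z := by
          rw [mul_assoc, ENNReal.inv_mul_cancel (hom0 _ _) (homt _ _), mul_one]
      _ ≤ _ := by gcongr
  have hGtop : G ≠ ⊤ := by
    refine ne_top_of_le_ne_top (b := ENNReal.ofReal (SchwartzMap.seminorm ℝ 0 0 g))
      ENNReal.ofReal_ne_top ?_
    refine iSup_le fun z => ?_
    have h1 : (om x z)⁻¹ ≤ 1 := by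
      rw [ENNReal.inv_le_one]
      simp only [hom]
      rw [ENNReal.one_le_ofReal]
      exact one_le_pow₀ (by have : 0 ≤ ‖x - z‖ / t := by positivity
                            linarith)
    calc ‖g z‖ₑ * (om x z)⁻¹ ≤ ‖g z‖ₑ * 1 := by gcongr
      _ = ENNReal.ofReal ‖g z‖ := by rw [mul_one, ofReal_norm]
      _ ≤ _ := ENNReal.ofReal_le_ofReal (norm_le_seminorm ℝ _ _)
  have hkey : ∀ z, ‖g z‖ₑ * (om x z)⁻¹ ≤ G ^ (1 - p) * (A' * I) := by
    intro y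
    have h1 : ‖g y‖ₑ ≤ ∫⁻ z, ‖κ (y - z) * g z‖ₑ := by
      conv_lhs => rw [← hg, cS_apply]
      exact enorm_integral_le_lintegral_enorm _
    have h2 : ∀ z, ‖κ (y - z) * g z‖ₑ ≤ (om x y * G ^ (1 - p) * A') *
        (‖g z‖ₑ ^ p * ENNReal.ofReal (((1 + ‖x - z‖ / t) ^ m)⁻¹) ^ p) := by
      intro z
      rw [hominv]
      have h3 : ‖κ (y - z)‖ₑ ≤ A' * (om y z)⁻¹ := by
        have h4 := hκ 0 le_rfl (y - z)
        simp only [add_zero, norm_iteratedFDeriv_zero] at h4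
        rw [← hominv, hA', ← ENNReal.ofReal_mul (by positivity), ← ofReal_norm]
        apply ENNReal.ofReal_le_ofReal
        rw [mul_assoc, ← mul_inv, ← div_eq_mul_inv, le_div_iff₀ (by positivity)]
        linarith
      have h5 : (om y z)⁻¹ ≤ om x y * (om x z)⁻¹ := by
        have h6 := homtri x y z
        calc (om y z)⁻¹ = (om y z)⁻¹ * (om x z * (om x z)⁻¹) := by
              rw [ENNReal.mul_inv_cancel (hom0 _ _) (homt _ _), mul_one]
          _ ≤ (om y z)⁻¹ * ((om x y * om y z) * (om x z)⁻¹) := by gcongr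
          _ = ((om y z)⁻¹ * om y z) * (om x y * (om x z)⁻¹) := by ring
          _ = _ := by rw [ENNReal.inv_mul_cancel (hom0 _ _) (homt _ _), one_mul]
      have h7 : ‖g z‖ₑ ≤ ‖g z‖ₑ ^ p * (G ^ (1 - p) * om x z ^ (1 - p)) := by
        rw [← ENNReal.mul_rpow_of_nonneg _ _ (by linarith)]
        calc ‖g z‖ₑ = ‖g z‖ₑ ^ (p + (1 - p)) := by rw [add_sub_cancel, ENNReal.rpow_one]
          _ = ‖g z‖ₑ ^ p * ‖g z‖ₑ ^ (1 - p) :=
              ENNReal.rpow_add_of_nonneg _ _ hp.le (by linarith)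
          _ ≤ _ := by
              gcongr
              exact hGle z
      have h8 : (om x z)⁻¹ * om x z ^ (1 - p) = ((om x z)⁻¹) ^ p := by
        have h9 : om x z ^ (1 - p) = om x z * (om x z ^ p)⁻¹ := by
          rw [ENNReal.rpow_sub _ _ (hom0 _ _) (homt _ _), ENNReal.rpow_one, div_eq_mul_inv]
        rw [h9, ← mul_assoc, ENNReal.inv_mul_cancel (hom0 _ _) (homt _ _), one_mul,
          ENNReal.inv_rpow]
      calc ‖κ (y - z) * g z‖ₑ = ‖κ (y - z)‖ₑ * ‖g z‖ₑ := enorm_mul _ _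
        _ ≤ (A' * (om x y * (om x z)⁻¹)) * (‖g z‖ₑ ^ p * (G ^ (1 - p) * om x z ^ (1 - p))) := by
            gcongr
            exact h3.trans (by gcongr)
        _ = (om x y * G ^ (1 - p) * A') * (‖g z‖ₑ ^ p * ((om x z)⁻¹ * om x z ^ (1 - p))) := by ring
        _ = _ := by rw [h8]
    have hmeas : Measurable fun z => ‖g z‖ₑ ^ p *
        ENNReal.ofReal (((1 + ‖x - z‖ / t) ^ m)⁻¹) ^ p := by
      refine Measurable.mul ?_ ?_
      · exact (g.continuous.enorm.measurable).pow_const _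
      · refine Measurable.pow_const ?_ _
        refine ENNReal.measurable_ofReal.comp ?_
        exact Continuous.measurable (by
          refine Continuous.inv₀ (by fun_prop) fun x => ?_
          positivity)
    have h10 : ‖g y‖ₑ ≤ (om x y * G ^ (1 - p) * A') * I := by
      refine (h1.trans (lintegral_mono h2)).trans ?_
      rw [lintegral_const_mul _ hmeas]
    calc ‖g y‖ₑ * (om x y)⁻¹ ≤ ((om x y * G ^ (1 - p) * A') * I) * (om x y)⁻¹ := by gcongr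
      _ = (om x y * (om x y)⁻¹) * (G ^ (1 - p) * (A' * I)) := by ring
      _ = _ := by rw [ENNReal.mul_inv_cancel (hom0 _ _) (homt _ _), one_mul]
  have hGp : G ^ p ≤ A' * I := by
    rcases eq_or_ne G 0 with h0 | h0
    · rw [h0, ENNReal.zero_rpow_of_pos hp]; exact zero_le
    · have h1 : G ≤ G ^ (1 - p) * (A' * I) := iSup_le hkey
      have h2 : G ^ p = G * (G ^ (1 - p))⁻¹ := by
        have : p = 1 - (1 - p) := by ring
        conv_lhs => rw [this]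
        rw [ENNReal.rpow_sub _ _ h0 hGtop, ENNReal.rpow_one, div_eq_mul_inv]
      have h3 : G ^ (1 - p) ≠ 0 := by
        simp [ENNReal.rpow_eq_zero_iff, h0, hGtop]
      have h4 : G ^ (1 - p) ≠ ⊤ := ENNReal.rpow_ne_top_of_nonneg (by linarith) hGtop
      rw [h2]
      calc G * (G ^ (1 - p))⁻¹ ≤ (G ^ (1 - p) * (A' * I)) * (G ^ (1 - p))⁻¹ := by gcongr
        _ = (G ^ (1 - p) * (G ^ (1 - p))⁻¹) * (A' * I) := by ring
        _ = _ := by rw [ENNReal.mul_inv_cancel h3 h4, one_mul]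
  calc ‖g y‖ₑ ^ p ≤ (G * om x y) ^ p := by gcongr; exact hGle y
    _ = om x y ^ p * G ^ p := by rw [ENNReal.mul_rpow_of_nonneg _ _ hp.le, mul_comm]
    _ ≤ _ := by gcongr

lemma measurable_dyadic {j : ℕ} {b : EuclideanSpace ℝ (Fin n) → ℝ≥0∞}
    (hb : ∀ x y, dy j x = dy j y → b x = b y) : Measurable b := by
  have h1 : b = (fun k : Fin n → ℤ => b (corner j k)) ∘ dy j := by
    funext x
    simp only [Function.comp_apply]
    exact hb _ _ (dy_corner j _).symm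
  have h2 : Measurable (dy j : EuclideanSpace ℝ (Fin n) → Fin n → ℤ) := by
    rw [measurable_pi_iff]
    intro i
    refine Int.measurable_floor.comp ?_
    refine Measurable.const_mul ?_ _
    exact Continuous.measurable (by fun_prop)
  rw [h1]
  exact (measurable_of_countable _).comp h2

/-- supremum over the dyadic cube -/
noncomputable def cubeSup (j : ℕ) (F : EuclideanSpace ℝ (Fin n) → ℝ≥0∞)
    (x : EuclideanSpace ℝ (Fin n)) : ℝ≥0∞ := ⨆ (y) (_ : dy j y = dy j x), F y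

lemma cubeSup_congr (j : ℕ) (F : EuclideanSpace ℝ (Fin n) → ℝ≥0∞)
    (x y : EuclideanSpace ℝ (Fin n)) (h : dy j x = dy j y) : cubeSup j F x = cubeSup j F y := by
  unfold cubeSup
  rw [h]

lemma le_cubeSup (j : ℕ) (F : EuclideanSpace ℝ (Fin n) → ℝ≥0∞) (x : EuclideanSpace ℝ (Fin n)) :
    F x ≤ cubeSup j F x := le_iSup₂_of_le (f := fun y (_ : dy j y = dy j x) => F y) x rfl le_rfl

/-- integral form of the Plancherel-Polya-Peetre inequality for the Littlewood-Paley pieces -/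
theorem peetre_int {φ : EuclideanSpace ℝ (Fin n) → ℝ} (hφ : IsCutoff φ) {p : ℝ} (hp : 0 < p)
    (hp1 : p ≤ 1) : ∃ C : ℝ≥0∞, C ≠ ⊤ ∧ ∀ (j : ℕ) (u : 𝓢(EuclideanSpace ℝ (Fin n), ℂ)),
      ∫⁻ x, cubeSup j (fun y => ‖cS (kap hφ 0 0 j) u y‖ₑ ^ p) x ≤
        C * ∫⁻ x, ‖cS (kap hφ 0 0 j) u x‖ₑ ^ p := by
  obtain ⟨m, hm⟩ : ∃ m : ℕ, (n:ℝ) < m * p := by
    obtain ⟨m, hm⟩ := exists_nat_gt ((n:ℝ) / p)
    exact ⟨m, by rwa [div_lt_iff₀ hp] at hm⟩
  obtain ⟨A, hA, hker⟩ := ker_cutS hφ m 0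
  obtain ⟨C₂, hC₂, hw⟩ := lintegral_weight (n := n) hp hm
  set c₀ := ENNReal.ofReal ((1 + 2 * Real.sqrt n) ^ m) ^ p with hc₀
  refine ⟨c₀ * ENNReal.ofReal A * C₂, by finiteness, fun j u => ?_⟩
  set g := cS (kap hφ 0 0 j) u with hg
  set t : ℝ := ((2:ℝ) ^ (j+1))⁻¹ with ht
  have ht0 : 0 < t := by positivity
  set F : EuclideanSpace ℝ (Fin n) → EuclideanSpace ℝ (Fin n) → ℝ≥0∞ := fun x z =>
    ‖g z‖ₑ ^ p * ENNReal.ofReal (((1 + ‖x - z‖ / t) ^ m)⁻¹) ^ p with hF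
  have h1 : ∀ x, cubeSup j (fun y => ‖g y‖ₑ ^ p) x ≤
      (c₀ * ENNReal.ofReal (A * (t ^ n)⁻¹)) * ∫⁻ z, F x z := by
    intro x
    refine iSup₂_le fun y hy => ?_
    refine (peetre hp hp1 ht0 (hker (j+1)) (reproduce hφ j u) x y).trans ?_
    rw [← mul_assoc]
    gcongr
    have h2 := dist_le_of_dy_eq hy
    rw [dist_eq_norm, norm_sub_rev] at h2
    have h3 : (2:ℝ) ^ (-(j:ℝ)) = 2 * t := by
      rw [ht, Real.rpow_neg (by norm_num), Real.rpow_natCast, pow_succ]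
      field_simp
    rw [h3] at h2
    have h4 : ‖x - y‖ / t ≤ 2 * Real.sqrt n := by
      rw [div_le_iff₀ ht0]
      linarith
    rw [hc₀]
    gcongr
  have hFm : Measurable (Function.uncurry F) := by
    simp only [hF, Function.uncurry_def]
    refine Measurable.mul ?_ ?_
    · exact ((g.continuous.comp continuous_snd).enorm.measurable).pow_const _
    · refine Measurable.pow_const ?_ _
      refine ENNReal.measurable_ofReal.comp ?_
      exact Continuous.measurable (by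
        refine Continuous.inv₀ (by fun_prop) fun x => ?_
        positivity)
  calc ∫⁻ x, cubeSup j (fun y => ‖g y‖ₑ ^ p) x
      ≤ ∫⁻ x, (c₀ * ENNReal.ofReal (A * (t ^ n)⁻¹)) * ∫⁻ z, F x z := lintegral_mono h1
    _ = (c₀ * ENNReal.ofReal (A * (t ^ n)⁻¹)) * ∫⁻ x, ∫⁻ z, F x z :=
        lintegral_const_mul' _ _ (by finiteness)
    _ = (c₀ * ENNReal.ofReal (A * (t ^ n)⁻¹)) * ∫⁻ z, ∫⁻ x, F x z := by
        rw [lintegral_lintegral_swap hFm.aemeasurable]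
    _ ≤ (c₀ * ENNReal.ofReal (A * (t ^ n)⁻¹)) * ∫⁻ z, ‖g z‖ₑ ^ p *
          (C₂ * ENNReal.ofReal (t ^ n)) := by
        gcongr with z
        rw [lintegral_const_mul']
        · gcongr
          exact hw z t ht0
        · finiteness
    _ = (c₀ * ENNReal.ofReal (A * (t ^ n)⁻¹)) * ((∫⁻ z, ‖g z‖ₑ ^ p) *
          (C₂ * ENNReal.ofReal (t ^ n))) := by
        rw [lintegral_mul_const' _ _ (by finiteness)]
    _ = c₀ * (ENNReal.ofReal (A * (t ^ n)⁻¹) * ENNReal.ofReal (t ^ n)) * C₂ *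
          ∫⁻ z, ‖g z‖ₑ ^ p := by ring
    _ = _ := by
        rw [← ENNReal.ofReal_mul (by positivity)]
        have : A * (t ^ n)⁻¹ * t ^ n = A := by field_simp
        rw [this]

lemma rpow_tsum_le (f : ℕ → ℝ≥0∞) {p : ℝ} (hp : 0 < p) (hp1 : p ≤ 1) :
    (∑' k, f k) ^ p ≤ ∑' k, f k ^ p := by
  have h1 : Tendsto (fun s : Finset ℕ => (∑ k ∈ s, f k) ^ p) atTop (𝓝 ((∑' k, f k) ^ p)) :=
    (ENNReal.continuous_rpow_const.tendsto _).comp (ENNReal.summable.hasSum)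
  refine le_of_tendsto h1 (Eventually.of_forall fun s => ?_)
  exact (rpow_sum_le s f hp hp1).trans (ENNReal.sum_le_tsum s)

/-- a set of vanishing Besov capacity has vanishing Hausdorff measure -/
theorem besov_lower {φ : EuclideanSpace ℝ (Fin n) → ℝ} (hφ : IsCutoff φ) {α p : ℝ}
    (hp : 0 < p) (hp1 : p ≤ 1) (𝒟 : Set 𝓢(EuclideanSpace ℝ (Fin n), ℂ))
    (K : Set (EuclideanSpace ℝ (Fin n))) (h0 : besovCap φ α p 𝒟 K = 0) :
    (0 < n - α * p → μH[n - α * p] K = 0) ∧ (n - α * p ≤ 0 → K = ∅) := by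
  obtain ⟨C, hC, hint⟩ := peetre_int hφ hp hp1
  apply null_of_small
  intro ε hε
  have hδ : 0 < ε / (C + 1) := ENNReal.div_pos hε.ne' (by finiteness)
  have h1 : besovCap φ α p 𝒟 K < ε / (C + 1) := by rw [h0]; exact hδ
  unfold besovCap at h1
  simp only [iInf_lt_iff] at h1
  obtain ⟨u, -, hre, h1K, hu⟩ := h1
  refine ⟨fun j => cubeSup j (fun y => ‖cS (kap hφ 0 0 j) u y‖ₑ ^ p),
    fun j x y h => cubeSup_congr j _ x y h, fun x hx => ?_, ?_⟩
  · have h2 : (1:ℝ≥0∞) ≤ ‖u x‖ₑ := by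
      have h3 : (1:ℝ) ≤ ‖u x‖ := (h1K x hx).trans (Complex.re_le_norm _)
      rw [← ofReal_norm]
      exact ENNReal.one_le_ofReal.2 h3
    have h4 := enorm_le_tsum_of_tendsto (lp_conv_eval hφ u (fun j => cS (kap hφ 0 0 j) u)
      (fun j ξ => fourier_kap_lp hφ j u ξ) x)
    calc (1:ℝ≥0∞) = 1 ^ p := (ENNReal.one_rpow p).symm
      _ ≤ (∑' j, ‖cS (kap hφ 0 0 j) u x‖ₑ) ^ p := by gcongr; exact h2.trans h4
      _ ≤ ∑' j, ‖cS (kap hφ 0 0 j) u x‖ₑ ^ p := rpow_tsum_le _ hp hp1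
      _ ≤ _ := ENNReal.tsum_le_tsum fun j =>
          le_cubeSup j (fun y => ‖cS (kap hφ 0 0 j) u y‖ₑ ^ p) x
  · calc _ ≤ ∑' j : ℕ, ENNReal.ofReal ((2:ℝ) ^ ((j:ℝ) * (α * p))) *
            (C * ∫⁻ x, ‖cS (kap hφ 0 0 j) u x‖ₑ ^ p) := by
          refine ENNReal.tsum_le_tsum fun j => ?_
          rw [sub_sub_cancel]
          gcongr
          exact hint j u
      _ = C * besovPow φ α p u := by
          unfold besovPow
          rw [← ENNReal.tsum_mul_left]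
          refine tsum_congr fun j => ?_
          rw [lp_eq_cS hφ]
          ring
      _ ≤ (C + 1) * (ε / (C + 1)) := by
          gcongr
          exact le_self_add
      _ ≤ ε := ENNReal.mul_div_le

end Pool.Agent.V8H56.BC
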