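import Pool.Agent.V8H56.BC.LowerA

/-! Lower bound for the Hardy-Bessel capacity by the dyadic content (for MP_9b3711_an). -/

open MeasureTheory Set Filter SchwartzMap FourierTransform
open scoped ENNReal NNReal Topology SchwartzMap Convolution ContDiff Real

namespace Pool.Agent.V8H56.BC

variable {n : ℕ}

lemma fourierInv_refl (x : EuclideanSpace ℝ (Fin n)) (θ : 𝓢(EuclideanSpace ℝ (Fin n), ℂ))
    (ξ : EuclideanSpace ℝ (Fin n)) :
    (𝓕⁻ (refl x θ) : 𝓢(EuclideanSpace ℝ (Fin n), ℂ)) ξ =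
      Complex.exp (((2 * π * (inner ℝ x ξ : ℝ) : ℝ) : ℂ) * Complex.I) * 𝓕 θ ξ := by
  rw [fourierInv_coe, fourier_coe, Real.fourierInv_eq', Real.fourier_eq', ← integral_const_mul]
  rw [← integral_sub_left_eq_self _ volume x]
  refine integral_congr_ae (Eventually.of_forall fun v => ?_)
  simp only [refl_apply, sub_sub_cancel, smul_eq_mul]
  rw [← mul_assoc, ← Complex.exp_add]
  congr 2
  rw [inner_sub_left]
  push_cast
  ring

lemma besselPot_refl {α : ℝ} (f : 𝓢'(EuclideanSpace ℝ (Fin n), ℂ))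
    (x : EuclideanSpace ℝ (Fin n)) {θ θ' : 𝓢(EuclideanSpace ℝ (Fin n), ℂ)}
    (h : ∀ ξ, 𝓕 θ' ξ = ((jsym (-α) ξ : ℝ) : ℂ) * 𝓕 θ ξ) :
    besselPot α f (refl x θ) = f (refl x θ') := by
  have hg : (fun ξ : EuclideanSpace ℝ (Fin n) =>
      (((1 + (2 * Real.pi * ‖ξ‖) ^ 2) ^ (-α / 2) : ℝ) : ℂ)).HasTemperateGrowth := by
    exact Function.HasTemperateGrowth.comp Function.Complex.hasTemperateGrowth_ofReal
      (hasTemperateGrowth_jsym (n := n) (-α))
  have h1 : besselPot α f (refl x θ) = f (𝓕 (SchwartzMap.smulLeftCLM ℂ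
      (fun ξ : EuclideanSpace ℝ (Fin n) => (((1 + (2 * Real.pi * ‖ξ‖) ^ 2) ^ (-α / 2) : ℝ) : ℂ))
      (𝓕⁻ (refl x θ) : 𝓢(EuclideanSpace ℝ (Fin n), ℂ)))) := rfl
  rw [h1]
  congr 1
  have h2 : SchwartzMap.smulLeftCLM ℂ
      (fun ξ : EuclideanSpace ℝ (Fin n) => (((1 + (2 * Real.pi * ‖ξ‖) ^ 2) ^ (-α / 2) : ℝ) : ℂ))
      (𝓕⁻ (refl x θ) : 𝓢(EuclideanSpace ℝ (Fin n), ℂ)) = 𝓕⁻ (refl x θ') := by
    ext ξ
    rw [SchwartzMap.smulLeftCLM_apply_apply hg, fourierInv_refl, fourierInv_refl, h]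
    unfold jsym
    simp only [smul_eq_mul]
    ring
  rw [h2]
  simp

/-- the distribution tested against the reflected cut-off kernel -/
lemma besselPot_cut {φ : EuclideanSpace ℝ (Fin n) → ℝ} (hφ : IsCutoff φ) (α : ℝ)
    (f : 𝓢'(EuclideanSpace ℝ (Fin n), ℂ)) (x : EuclideanSpace ℝ (Fin n)) (J : ℕ) :
    besselPot α f (refl x (𝓕⁻ (cutS hφ J) : 𝓢(EuclideanSpace ℝ (Fin n), ℂ))) =
      ∑ j ∈ Finset.range (J+1), f (refl x (kap hφ (-α) 0 j)) := by
  have h1 : ∑ j ∈ Finset.range (J+1), refl x (kap hφ (-α) 0 j) =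
      refl x (∑ j ∈ Finset.range (J+1), kap hφ (-α) 0 j) := by
    ext w
    rw [sum_apply, refl_apply, sum_apply]
    exact Finset.sum_congr rfl fun i _ => refl_apply _ _ _
  rw [← map_sum, h1]
  apply besselPot_refl
  intro ξ
  rw [FourierTransform.fourier_fourierInv_eq, cutS_apply, ← lp_sum φ J ξ]
  have e1 : 𝓕 (∑ j ∈ Finset.range (J+1), kap hφ (-α) 0 j) =
      ∑ j ∈ Finset.range (J+1), 𝓕 (kap hφ (-α) 0 j) :=
    map_sum (fourierCLM ℂ 𝓢(EuclideanSpace ℝ (Fin n), ℂ)) _ _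
  rw [e1, sum_apply]
  push_cast
  rw [Finset.mul_sum]
  refine Finset.sum_congr rfl fun j _ => ?_
  rcases eq_or_ne j 0 with rfl | hj
  · rw [fourier_kap_zero]; unfold jsym; push_cast; ring
  · rw [fourier_kap hφ _ _ hj]; unfold jsym; push_cast; ring

/-- translated cut-off -/
noncomputable def chi (φ : EuclideanSpace ℝ (Fin n) → ℝ) (x w : EuclideanSpace ℝ (Fin n)) : ℂ :=
  ((φ (w - x) : ℝ) : ℂ)

lemma contDiff_chi {φ : EuclideanSpace ℝ (Fin n) → ℝ} (hφ : IsCutoff φ)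
    (x : EuclideanSpace ℝ (Fin n)) : ContDiff ℝ ∞ (chi φ x) := by
  unfold chi
  exact Complex.ofRealCLM.contDiff.comp (hφ.smooth.comp (contDiff_id.sub contDiff_const))

lemma hasCompactSupport_chi {φ : EuclideanSpace ℝ (Fin n) → ℝ} (hφ : IsCutoff φ)
    (x : EuclideanSpace ℝ (Fin n)) : HasCompactSupport (chi φ x) := by
  refine HasCompactSupport.of_support_subset_isCompact (isCompact_closedBall x 2) ?_
  intro w hw
  by_contra hcon
  simp only [Metric.mem_closedBall, not_le] at hcon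
  apply hw
  unfold chi
  rw [hφ.zero _ (by rw [← dist_eq_norm]; exact hcon.le)]
  simp

lemma hasTemperateGrowth_chi {φ : EuclideanSpace ℝ (Fin n) → ℝ} (hφ : IsCutoff φ)
    (x : EuclideanSpace ℝ (Fin n)) : (chi φ x).HasTemperateGrowth :=
  (hasCompactSupport_chi hφ x).hasTemperateGrowth (contDiff_chi hφ x)

/-- off-diagonal part of the reflected kernels tends to zero -/
lemma tail_tendsto {φ : EuclideanSpace ℝ (Fin n) → ℝ} (hφ : IsCutoff φ)
    (x : EuclideanSpace ℝ (Fin n)) :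
    Tendsto (fun J : ℕ => refl x (𝓕⁻ (cutS hφ J) : 𝓢(EuclideanSpace ℝ (Fin n), ℂ)) -
      SchwartzMap.smulLeftCLM ℂ (chi φ x)
        (refl x (𝓕⁻ (cutS hφ J) : 𝓢(EuclideanSpace ℝ (Fin n), ℂ)))) atTop (𝓝 0) := by
  rw [(schwartz_withSeminorms ℝ (EuclideanSpace ℝ (Fin n)) ℂ).tendsto_nhds]
  rintro ⟨k, l⟩ ε hε
  set P : EuclideanSpace ℝ (Fin n) → ℂ := fun w => 1 - chi φ x w with hP
  have hPt : P.HasTemperateGrowth :=
    (Function.HasTemperateGrowth.const (1:ℂ)).sub (hasTemperateGrowth_chi hφ x)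
  obtain ⟨k', C', hC', hPb⟩ := hPt.norm_iteratedFDeriv_le_uniform l
  set M := n + l + 1 + (k + k') with hM
  obtain ⟨A, hA, hker⟩ := ker_cutS hφ M l
  set B : ℝ := 2 ^ l * C' * (2 * (1 + ‖x‖)) ^ (k + k') * A with hB
  have hB0 : 0 ≤ B := by positivity
  have key : ∀ J : ℕ, SchwartzMap.seminorm ℝ k l
      (refl x (𝓕⁻ (cutS hφ J) : 𝓢(EuclideanSpace ℝ (Fin n), ℂ)) -
      SchwartzMap.smulLeftCLM ℂ (chi φ x)
        (refl x (𝓕⁻ (cutS hφ J) : 𝓢(EuclideanSpace ℝ (Fin n), ℂ)))) ≤ B * ((2:ℝ) ^ J)⁻¹ := by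
    intro J
    set θ : 𝓢(EuclideanSpace ℝ (Fin n), ℂ) := 𝓕⁻ (cutS hφ J) with hθ
    set t : ℝ := ((2:ℝ) ^ J)⁻¹ with ht
    have ht0 : 0 < t := by positivity
    have ht1 : t ≤ 1 := inv_le_one_of_one_le₀ (one_le_pow₀ (by norm_num))
    set g := refl x θ - SchwartzMap.smulLeftCLM ℂ (chi φ x) (refl x θ) with hg
    have hgf : (⇑g : EuclideanSpace ℝ (Fin n) → ℂ) = fun w => P w * refl x θ w := by
      funext w
      rw [hg, sub_apply, SchwartzMap.smulLeftCLM_apply_apply (hasTemperateGrowth_chi hφ x), hP,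
        smul_eq_mul]
      ring
    refine seminorm_le_bound ℝ k l g (by positivity) fun w => ?_
    rcases lt_or_ge ‖x - w‖ 1 with hw | hw
    · have h1 : (⇑g : EuclideanSpace ℝ (Fin n) → ℂ) =ᶠ[𝓝 w] fun _ => 0 := by
        have h2 : ∀ᶠ v in 𝓝 w, ‖x - v‖ < 1 :=
          (continuous_norm.comp (continuous_const.sub continuous_id)).continuousAt.eventually_lt
            continuousAt_const hw
        filter_upwards [h2] with v hv
        rw [hgf]
        simp only [hP, chi]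
        rw [hφ.one _ (by rw [norm_sub_rev]; exact hv.le)]
        simp
      have h3 := (h1.iteratedFDeriv ℝ l).eq_of_nhds
      have h4 : iteratedFDeriv ℝ l (fun _ : EuclideanSpace ℝ (Fin n) => (0:ℂ)) w = 0 := by
        rw [iteratedFDeriv_zero_fun]; rfl
      rw [h3, h4, norm_zero, mul_zero]
      positivity
    · set ρ := ‖x - w‖ with hρ
      have hρ0 : 0 < ρ := by linarith
      have h1 : ∀ i ≤ l, ‖iteratedFDeriv ℝ i (refl x θ) w‖ ≤ A * t * (ρ ^ (k + k'))⁻¹ := by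
        intro i hi
        refine (norm_iteratedFDeriv_refl_le x θ i w).trans ?_
        have h2 := hker J i hi (x - w)
        rw [← ht, ← hρ] at h2
        have h3 : t * t ^ (n + i) * (1 + ρ / t) ^ M ≥ t * t ^ (n+i) * (t ^ (n + l + 1))⁻¹ * ρ ^ (k + k') := by
          have h5 : (1 + ρ / t) ^ M ≥ (t ^ (n + l + 1))⁻¹ * ρ ^ (k + k') := by
            rw [hM, pow_add]
            have h6 : 1 / t ≤ 1 + ρ / t := by
              have : 1 / t ≤ ρ / t := by gcongr
              linarith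
            have h7 : ρ ≤ 1 + ρ / t := by
              have : ρ ≤ ρ / t := by
                rw [le_div_iff₀ ht0]
                nlinarith
              linarith
            calc (t ^ (n + l + 1))⁻¹ * ρ ^ (k + k') = (1 / t) ^ (n + l + 1) * ρ ^ (k + k') := by
                  rw [one_div, inv_pow t (n + l + 1)]
              _ ≤ _ := by gcongr
          calc _ ≤ t * t ^ (n + i) * ((t ^ (n + l + 1))⁻¹ * ρ ^ (k + k')) := by rw [mul_assoc]
            _ ≤ _ := by gcongr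
        have h8 : (1:ℝ) ≤ t * t ^ (n+i) * (t ^ (n + l + 1))⁻¹ := by
          rw [← pow_succ', ← div_eq_mul_inv, le_div_iff₀ (by positivity), one_mul]
          exact pow_le_pow_of_le_one ht0.le ht1 (by omega)
        set Y := ‖iteratedFDeriv ℝ i (⇑θ) (x - w)‖ with hY
        have hY0 : 0 ≤ Y := norm_nonneg _
        rw [← div_eq_mul_inv, le_div_iff₀ (by positivity)]
        calc Y * ρ ^ (k + k') ≤ Y * ((t * t ^ (n+i) * (t ^ (n + l + 1))⁻¹) * ρ ^ (k + k')) := by
              gcongr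
              exact le_mul_of_one_le_left (by positivity) h8
          _ ≤ Y * (t * t ^ (n + i) * (1 + ρ / t) ^ M) := by gcongr
          _ = t * (t ^ (n + i) * (1 + ρ / t) ^ M * Y) := by ring
          _ ≤ t * A := by gcongr
          _ = A * t := by ring
      have h9 : ‖iteratedFDeriv ℝ l g w‖ ≤ 2 ^ l * (C' * (1 + ‖w‖) ^ k') *
          (A * t * (ρ ^ (k + k'))⁻¹) := by
        rw [hgf]
        have h10 := norm_iteratedFDeriv_mul_le (𝕜 := ℝ) (N := ∞) (n := l) (f := P)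
          (g := fun w => refl x θ w) hPt.1 (refl x θ).smooth' w (by exact_mod_cast le_top)
        refine h10.trans ?_
        have h11 : (2:ℝ) ^ l = ∑ i ∈ Finset.range (l + 1), (l.choose i : ℝ) := by
          exact_mod_cast (Nat.sum_range_choose l).symm
        rw [h11, Finset.sum_mul, Finset.sum_mul]
        refine Finset.sum_le_sum fun i hi => ?_
        have hi' : i ≤ l := by have := Finset.mem_range.1 hi; omega
        gcongr
        · exact hPb i hi' w
        · exact h1 (l - i) (by omega)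
      have h12 : ‖w‖ ^ k * (1 + ‖w‖) ^ k' ≤ (2 * (1 + ‖x‖)) ^ (k + k') * ρ ^ (k + k') := by
        have h13 : 1 + ‖w‖ ≤ 2 * (1 + ‖x‖) * ρ := by
          have h14 : ‖w‖ ≤ ‖x‖ + ρ := by
            have : w = x - (x - w) := by abel
            calc ‖w‖ = ‖x - (x - w)‖ := by rw [← this]
              _ ≤ _ := norm_sub_le _ _
          have := norm_nonneg x
          nlinarith
        have h15 : ‖w‖ ≤ 1 + ‖w‖ := by linarith
        calc ‖w‖ ^ k * (1 + ‖w‖) ^ k' ≤ (1 + ‖w‖) ^ k * (1 + ‖w‖) ^ k' := by gcongr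
          _ = (1 + ‖w‖) ^ (k + k') := by rw [pow_add]
          _ ≤ (2 * (1 + ‖x‖) * ρ) ^ (k + k') := by gcongr
          _ = _ := by rw [mul_pow]
      calc ‖w‖ ^ k * ‖iteratedFDeriv ℝ l g w‖
          ≤ ‖w‖ ^ k * (2 ^ l * (C' * (1 + ‖w‖) ^ k') * (A * t * (ρ ^ (k + k'))⁻¹)) := by gcongr
        _ = (‖w‖ ^ k * (1 + ‖w‖) ^ k') * (2 ^ l * C' * A * t * (ρ ^ (k + k'))⁻¹) := by ring
        _ ≤ ((2 * (1 + ‖x‖)) ^ (k + k') * ρ ^ (k + k')) * (2 ^ l * C' * A * t * (ρ ^ (k + k'))⁻¹) := by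
            gcongr
        _ = B * t := by rw [hB]; field_simp
  have hlim : Tendsto (fun J : ℕ => B * ((2:ℝ) ^ J)⁻¹) atTop (𝓝 0) := by
    have h1 : Tendsto (fun J : ℕ => ((2:ℝ) ^ J)⁻¹) atTop (𝓝 0) :=
      (tendsto_pow_atTop_atTop_of_one_lt (by norm_num : (1:ℝ) < 2)).inv_tendsto_atTop
    simpa using h1.const_mul B
  filter_upwards [hlim.eventually_lt_const hε] with J hJ
  rw [sub_zero]
  exact (key J).trans_lt hJ

/-- the representing smooth function is recovered from the kernels -/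
theorem rep_tendsto {φ : EuclideanSpace ℝ (Fin n) → ℝ} (hφ : IsCutoff φ) {α : ℝ}
    (f : 𝓢'(EuclideanSpace ℝ (Fin n), ℂ)) (u : EuclideanSpace ℝ (Fin n) → ℝ)
    (hu : ContDiff ℝ ∞ u)
    (hrep : ∀ g : 𝓢(EuclideanSpace ℝ (Fin n), ℂ), HasCompactSupport g →
      besselPot α f g = ∫ x, (u x : ℂ) * g x) (x : EuclideanSpace ℝ (Fin n)) :
    Tendsto (fun J : ℕ => ∑ j ∈ Finset.range (J+1), f (refl x (kap hφ (-α) 0 j))) atTop
      (𝓝 (u x : ℂ)) := by
  set T := besselPot α f with hT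
  set r : ℕ → 𝓢(EuclideanSpace ℝ (Fin n), ℂ) := fun J =>
    refl x (𝓕⁻ (cutS hφ J) : 𝓢(EuclideanSpace ℝ (Fin n), ℂ)) with hr
  have hTc : Continuous T := map_continuous T
  have h1 : Tendsto (fun J => T (r J - SchwartzMap.smulLeftCLM ℂ (chi φ x) (r J))) atTop (𝓝 0) := by
    have := (hTc.tendsto 0).comp (tail_tendsto hφ x)
    rw [map_zero] at this
    exact this
  -- the local part
  have hvc : HasCompactSupport (fun w => (u w : ℂ) * chi φ x w) :=
    (hasCompactSupport_chi hφ x).mul_left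
  have hvs : ContDiff ℝ ∞ (fun w => (u w : ℂ) * chi φ x w) :=
    (Complex.ofRealCLM.contDiff.comp hu).mul (contDiff_chi hφ x)
  set v : 𝓢(EuclideanSpace ℝ (Fin n), ℂ) := hvc.toSchwartzMap hvs with hv
  have hvx : ∀ w, v w = (u w : ℂ) * chi φ x w := fun w => rfl
  have h2 : ∀ J, T (SchwartzMap.smulLeftCLM ℂ (chi φ x) (r J)) =
      ∑ j ∈ Finset.range (J+1), cS (kap hφ 0 0 j) v x := by
    intro J
    rw [hrep]
    · have e1 : cS (𝓕⁻ (cutS hφ J) : 𝓢(EuclideanSpace ℝ (Fin n), ℂ)) v =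
          ∑ j ∈ Finset.range (J+1), cS (kap hφ 0 0 j) v := by
        apply eq_of_fourier_eq
        intro ξ
        have e2 : 𝓕 (∑ j ∈ Finset.range (J+1), cS (kap hφ 0 0 j) v) =
            ∑ j ∈ Finset.range (J+1), 𝓕 (cS (kap hφ 0 0 j) v) :=
          map_sum (fourierCLM ℂ 𝓢(EuclideanSpace ℝ (Fin n), ℂ)) _ _
        rw [e2, sum_apply, fourier_cS, FourierTransform.fourier_fourierInv_eq, cutS_apply,
          ← lp_sum φ J ξ]
        push_cast
        rw [Finset.sum_mul]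
        exact Finset.sum_congr rfl fun j _ => (fourier_kap_lp hφ j v ξ).symm
      have e3 : ∑ j ∈ Finset.range (J+1), cS (kap hφ 0 0 j) v x =
          cS (𝓕⁻ (cutS hφ J) : 𝓢(EuclideanSpace ℝ (Fin n), ℂ)) v x := by
        rw [e1, sum_apply]
      rw [e3, cS_apply]
      refine integral_congr_ae (Eventually.of_forall fun w => ?_)
      simp only
      rw [SchwartzMap.smulLeftCLM_apply_apply (hasTemperateGrowth_chi hφ x), hvx, hr]
      simp only [refl_apply, smul_eq_mul]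
      ring
    · have e4 : (⇑(SchwartzMap.smulLeftCLM ℂ (chi φ x) (r J)) : EuclideanSpace ℝ (Fin n) → ℂ) =
          fun w => chi φ x w * r J w := by
        funext w
        rw [SchwartzMap.smulLeftCLM_apply_apply (hasTemperateGrowth_chi hφ x), smul_eq_mul]
      rw [e4]
      exact (hasCompactSupport_chi hφ x).mul_right
  have h3 : Tendsto (fun J => T (SchwartzMap.smulLeftCLM ℂ (chi φ x) (r J))) atTop
      (𝓝 (u x : ℂ)) := by
    have h4 := lp_conv_eval hφ v (fun j => cS (kap hφ 0 0 j) v)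
      (fun j ξ => fourier_kap_lp hφ j v ξ) x
    have h5 : v x = (u x : ℂ) := by
      rw [hvx]
      unfold chi
      rw [sub_self, hφ.one 0 (by simp)]
      simp
    rw [h5] at h4
    exact h4.congr fun J => (h2 J).symm
  have h6 := h1.add h3
  rw [zero_add] at h6
  refine h6.congr fun J => ?_
  rw [← map_add, sub_add_cancel, ← besselPot_cut hφ α f x J]

end Pool.Agent.V8H56.BC
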