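import Pool.Agent.V8H56.BC.LowerB

/-! Lower bound for the Hardy-Bessel capacity by the dyadic content, second part
(for MP_9b3711_an). -/

open MeasureTheory Set Filter SchwartzMap FourierTransform
open scoped ENNReal NNReal Topology SchwartzMap Convolution ContDiff Real

namespace Pool.Agent.V8H56.BC

variable {n : ℕ}

/-- the kernels are bumps up to constants -/
lemma isBump_kap {φ : EuclideanSpace ℝ (Fin n) → ℝ} (hφ : IsCutoff φ) (β : ℝ) (N : ℕ) :
    ∃ A : ℝ, 0 < A ∧ ∀ (j : ℕ) (x : EuclideanSpace ℝ (Fin n)), IsBump N x (((2:ℝ) ^ j)⁻¹)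
      ((((A * (2:ℝ) ^ ((j:ℝ) * β))⁻¹ : ℝ) : ℂ) • refl x (kap hφ β 0 j)) := by
  obtain ⟨A, hA, hker⟩ := ker_kap hφ β 0 N N
  refine ⟨A + 1, by linarith, fun j x k hk l hl z => ?_⟩
  set t : ℝ := ((2:ℝ) ^ j)⁻¹ with ht
  have ht0 : 0 < t := by positivity
  set c : ℝ := ((A + 1) * (2:ℝ) ^ ((j:ℝ) * β))⁻¹ with hc
  have hc0 : 0 < c := by positivity
  have h1 := hker j l hl (x - z)
  rw [← ht] at h1
  have e1 : (⇑(((c : ℝ) : ℂ) • refl x (kap hφ β 0 j)) : EuclideanSpace ℝ (Fin n) → ℂ) =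
      ((c : ℝ) : ℂ) • (⇑(refl x (kap hφ β 0 j))) := by
    funext x; rfl
  rw [e1, iteratedFDeriv_const_smul_apply ((refl x (kap hφ β 0 j)).smooth l).contDiffAt, norm_smul,
    Complex.norm_real, Real.norm_of_nonneg hc0.le]
  have h2 := norm_iteratedFDeriv_refl_le x (kap hφ β 0 j) l z
  have h3 : (‖z - x‖ / t) ^ k ≤ (1 + ‖x - z‖ / t) ^ N := by
    rw [norm_sub_rev z x]
    have h4 : 0 ≤ ‖x - z‖ / t := by positivity
    calc (‖x - z‖ / t) ^ k ≤ (1 + ‖x - z‖ / t) ^ k := by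
          gcongr; linarith
      _ ≤ _ := pow_le_pow_right₀ (by linarith) hk
  calc (‖z - x‖ / t) ^ k * (t ^ (n + l) * (c * ‖iteratedFDeriv ℝ l (⇑(refl x (kap hφ β 0 j))) z‖))
      ≤ (1 + ‖x - z‖ / t) ^ N * (t ^ (n + l) *
          (c * ‖iteratedFDeriv ℝ l (⇑(kap hφ β 0 j)) (x - z)‖)) := by gcongr
    _ = c * (t ^ (n + l) * (1 + ‖x - z‖ / t) ^ N *
          ‖iteratedFDeriv ℝ l (⇑(kap hφ β 0 j)) (x - z)‖) := by ring
    _ ≤ c * (A * (2:ℝ) ^ ((j:ℝ) * β)) := by gcongr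
    _ ≤ c * ((A + 1) * (2:ℝ) ^ ((j:ℝ) * β)) := by gcongr; linarith
    _ = 1 := by rw [hc]; field_simp

lemma pair_le {φ : EuclideanSpace ℝ (Fin n) → ℝ} (hφ : IsCutoff φ) (β : ℝ) (N : ℕ) :
    ∃ A : ℝ, 0 < A ∧ ∀ (T : ℝ≥0∞), 1 ≤ T → ∀ (f : 𝓢'(EuclideanSpace ℝ (Fin n), ℂ)) (j : ℕ)
      (x y : EuclideanSpace ℝ (Fin n)), dist y x < ((2:ℝ) ^ j)⁻¹ →
      ‖f (refl x (kap hφ β 0 j))‖ₑ ≤
        ENNReal.ofReal (A * (2:ℝ) ^ ((j:ℝ) * β)) * grandMax N T f y := by
  obtain ⟨A, hA, hb⟩ := isBump_kap hφ β N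
  refine ⟨A, hA, fun T hT f j x y hxy => ?_⟩
  set c : ℝ := A * (2:ℝ) ^ ((j:ℝ) * β) with hc
  have hc0 : 0 < c := by positivity
  have h1 := hb j x
  rw [← hc] at h1
  have h2 : f (refl x (kap hφ β 0 j)) =
      ((c : ℝ) : ℂ) * f ((((c⁻¹ : ℝ)) : ℂ) • refl x (kap hφ β 0 j)) := by
    rw [map_smul, smul_eq_mul, ← mul_assoc, ← Complex.ofReal_mul, mul_inv_cancel₀ hc0.ne']
    simp
  have h3 : ‖f ((((c⁻¹ : ℝ)) : ℂ) • refl x (kap hφ β 0 j))‖ₑ ≤ grandMax N T f y := by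
    unfold grandMax
    refine le_iSup₂_of_le (f := fun (ψ : 𝓢(EuclideanSpace ℝ (Fin n), ℂ)) (_ : ∃ y' t, 0 < t ∧
      ENNReal.ofReal t ≤ T ∧ dist y y' < t ∧ IsBump N y' t ψ) => ‖f ψ‖ₑ)
      ((((c⁻¹ : ℝ)) : ℂ) • refl x (kap hφ β 0 j)) ⟨x, ((2:ℝ) ^ j)⁻¹, by positivity, ?_, hxy, h1⟩ le_rfl
    refine le_trans ?_ hT
    rw [ENNReal.ofReal_le_one]
    exact inv_le_one_of_one_le₀ (one_le_pow₀ (by norm_num))
  rw [h2, enorm_mul]
  gcongr
  rw [← ofReal_norm, Complex.norm_real, Real.norm_of_nonneg hc0.le]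

/-- summation by parts -/
theorem abel_null {K : Set (EuclideanSpace ℝ (Fin n))} {θ : ℝ} (hθ : 0 < θ) {W : ℝ≥0∞}
    (hW : W ≠ ⊤) (s : ℕ)
    (h : ∀ ε : ℝ≥0∞, 0 < ε → ∃ (e : ℕ → EuclideanSpace ℝ (Fin n) → ℝ≥0∞)
      (G : EuclideanSpace ℝ (Fin n) → ℝ≥0∞), (∀ j x, e j x ≤ e (j+1) x) ∧
      (∀ j x y, dy (j+s) x = dy (j+s) y → e j x = e j y) ∧ (∀ j x, e j x ≤ G x) ∧
      (∀ x ∈ K, 1 ≤ ∑' j : ℕ, W * ENNReal.ofReal ((2:ℝ) ^ (-θ)) ^ j * e j x) ∧ ∫⁻ x, G x ≤ ε) :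
    (0 < n - θ → μH[n - θ] K = 0) ∧ (n - θ ≤ 0 → K = ∅) := by
  set Q := ENNReal.ofReal ((2:ℝ) ^ (-θ)) with hQ
  have hQ1 : Q < 1 := by
    rw [hQ, ENNReal.ofReal_lt_one]
    exact Real.rpow_lt_one_of_one_lt_of_neg (by norm_num) (by linarith)
  have hQ2 : (1 - Q)⁻¹ ≠ ⊤ := by
    rw [ENNReal.inv_ne_top, ne_eq, tsub_eq_zero_iff_le, not_le]; exact hQ1
  set R := ENNReal.ofReal ((2:ℝ) ^ ((s:ℝ) * θ)) with hR
  set C := R * W * (1 - Q)⁻¹ with hC
  have hCt : C ≠ ⊤ := by finiteness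
  apply null_of_small
  intro ε hε
  obtain ⟨e, G, he1, he2, he3, he4, he5⟩ := h (ε / (C + 1)) (ENNReal.div_pos hε.ne' (by finiteness))
  set D : ℕ → EuclideanSpace ℝ (Fin n) → ℝ≥0∞ := fun l x => e l x - (if l = 0 then 0 else e (l-1) x)
    with hD
  have hsum : ∀ x j, ∑ l ∈ Finset.range (j+1), D l x = e j x := by
    intro x j
    induction j with
    | zero => simp [hD]
    | succ j ih =>
      rw [Finset.sum_range_succ, ih, hD]
      simp only [Nat.succ_ne_zero, if_false, Nat.add_sub_cancel]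
      exact add_tsub_cancel_of_le (he1 j x)
  have hDdy : ∀ l x y, dy (l+s) x = dy (l+s) y → D l x = D l y := by
    intro l x y hxy
    simp only [hD]
    rw [he2 l x y hxy]
    split_ifs with hl
    · rfl
    · rw [he2 (l-1) x y (dy_coarse (by omega) hxy)]
  refine ⟨fun i x => if s ≤ i then (W * Q ^ (i - s) * (1 - Q)⁻¹) * D (i - s) x else 0, ?_, ?_, ?_⟩
  · intro i x y hxy
    simp only
    split_ifs with hi
    · rw [hDdy (i - s) x y (by rw [Nat.sub_add_cancel hi]; exact hxy)]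
    · rfl
  · intro x hx
    refine (he4 x hx).trans ?_
    have h1 : ∀ j, W * Q ^ j * e j x = ∑' l : ℕ, (if l ≤ j then W * Q ^ j * D l x else 0) := by
      intro j
      rw [← hsum x j, Finset.mul_sum, tsum_eq_sum (s := Finset.range (j+1))]
      · refine Finset.sum_congr rfl fun l hl => ?_
        rw [if_pos (by have := Finset.mem_range.1 hl; omega)]
      · intro l hl
        rw [if_neg (by rw [Finset.mem_range] at hl; omega)]
    have h2 : ∀ l, ∑' j : ℕ, (if l ≤ j then W * Q ^ j * D l x else 0) =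
        (W * Q ^ l * (1 - Q)⁻¹) * D l x := by
      intro l
      set F : ℕ → ℝ≥0∞ := fun j => if l ≤ j then W * Q ^ j * D l x else 0 with hF
      have h4 := Summable.sum_add_tsum_nat_add' (f := F) (k := l) ENNReal.summable
      have h3 : ∑ j ∈ Finset.range l, F j = 0 := by
        refine Finset.sum_eq_zero fun j hj => ?_
        simp only [hF]
        rw [if_neg (by have := Finset.mem_range.1 hj; omega)]
      rw [h3, zero_add] at h4
      rw [← h4]
      have h5 : ∀ k, F (k + l) = (W * Q ^ l * D l x) * Q ^ k := by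
        intro k
        simp only [hF]
        rw [if_pos (by omega), pow_add]
        ring
      rw [tsum_congr h5, ENNReal.tsum_mul_left, ENNReal.tsum_geometric]
      ring
    calc ∑' j : ℕ, W * Q ^ j * e j x
        = ∑' j : ℕ, ∑' l : ℕ, (if l ≤ j then W * Q ^ j * D l x else 0) := tsum_congr h1
      _ = ∑' l : ℕ, ∑' j : ℕ, (if l ≤ j then W * Q ^ j * D l x else 0) := ENNReal.tsum_comm
      _ = ∑' l : ℕ, (W * Q ^ l * (1 - Q)⁻¹) * D l x := tsum_congr h2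
      _ ≤ _ := by
          set F : ℕ → ℝ≥0∞ := fun i => if s ≤ i then (W * Q ^ (i - s) * (1 - Q)⁻¹) * D (i - s) x else 0
            with hF
          have h4 := Summable.sum_add_tsum_nat_add' (f := F) (k := s) ENNReal.summable
          have h5 : ∀ l, F (l + s) = (W * Q ^ l * (1 - Q)⁻¹) * D l x := by
            intro l
            simp only [hF]
            rw [if_pos (by omega), Nat.add_sub_cancel]
          rw [← h4, tsum_congr h5]
          exact le_add_self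
  · set F : ℕ → ℝ≥0∞ := fun i => ENNReal.ofReal ((2:ℝ) ^ ((i:ℝ) * (n - (n - θ)))) *
      ∫⁻ x, (if s ≤ i then (W * Q ^ (i - s) * (1 - Q)⁻¹) * D (i - s) x else 0) with hF
    have h4 := Summable.sum_add_tsum_nat_add' (f := F) (k := s) ENNReal.summable
    have h3 : ∑ j ∈ Finset.range s, F j = 0 := by
      refine Finset.sum_eq_zero fun j hj => ?_
      simp only [hF]
      have : ¬ s ≤ j := by have := Finset.mem_range.1 hj; omega
      simp [this]
    rw [h3, zero_add] at h4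
    have hDm : ∀ l, Measurable (D l) := fun l => measurable_dyadic (hDdy l)
    have h5 : ∀ l, F (l + s) = C * ∫⁻ x, D l x := by
      intro l
      simp only [hF]
      have h6 : s ≤ l + s := by omega
      simp only [h6, if_true, Nat.add_sub_cancel]
      rw [lintegral_const_mul _ (hDm l)]
      have h7 : ENNReal.ofReal ((2:ℝ) ^ (((l + s : ℕ):ℝ) * (n - (n - θ)))) * Q ^ l = R := by
        rw [hQ, hR, ← ENNReal.ofReal_pow (by positivity), ← ENNReal.ofReal_mul (by positivity),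
          ← Real.rpow_natCast, ← Real.rpow_mul (by norm_num), ← Real.rpow_add (by norm_num)]
        congr 2
        push_cast; ring
      calc _ = (ENNReal.ofReal ((2:ℝ) ^ (((l + s : ℕ):ℝ) * (n - (n - θ)))) * Q ^ l) * W *
            (1 - Q)⁻¹ * ∫⁻ x, D l x := by ring
        _ = _ := by rw [h7, hC]
    change ∑' i, F i ≤ ε
    rw [← h4, tsum_congr h5, ENNReal.tsum_mul_left, ← lintegral_tsum fun l => (hDm l).aemeasurable]
    calc C * ∫⁻ x, ∑' l, D l x ≤ C * ∫⁻ x, G x := by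
          gcongr with x
          refine ENNReal.tsum_le_of_sum_range_le fun N => ?_
          rcases N with _ | N
          · simp
          · rw [hsum]; exact he3 N x
      _ ≤ (C + 1) * (ε / (C + 1)) := by
          gcongr
          exact le_self_add
      _ ≤ ε := ENNReal.mul_div_le

/-- a set of vanishing Hardy-Bessel capacity has vanishing Hausdorff measure -/
theorem hardy_lower {φ : EuclideanSpace ℝ (Fin n) → ℝ} (hφ : IsCutoff φ) {α p : ℝ} (hα : 0 < α)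
    (hp : 0 < p) (hp1 : p ≤ 1) (N : ℕ) {T : ℝ≥0∞} (hT : 1 ≤ T)
    (K : Set (EuclideanSpace ℝ (Fin n))) (h0 : hardyCap N T α p K = 0) :
    (0 < n - α * p → μH[n - α * p] K = 0) ∧ (n - α * p ≤ 0 → K = ∅) := by
  obtain ⟨A, hA, hpair⟩ := pair_le hφ (-α) N
  obtain ⟨s, hs⟩ : ∃ s : ℕ, Real.sqrt n < 2 ^ s := pow_unbounded_of_one_lt _ (by norm_num)
  refine abel_null (W := ENNReal.ofReal A ^ p) (by positivity) (by finiteness) s fun ε hε => ?_
  have h1 : hardyCap N T α p K < ε := by rw [h0]; exact hε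
  unfold hardyCap at h1
  simp only [iInf_lt_iff] at h1
  obtain ⟨f, u, hu, hrep, h1K, hf⟩ := h1
  set e : ℕ → EuclideanSpace ℝ (Fin n) → ℝ≥0∞ := fun j x =>
    ⨅ (y) (_ : dy (j+s) y = dy (j+s) x), grandMax N T f y ^ p with he
  refine ⟨e, fun x => grandMax N T f x ^ p, ?_, ?_, ?_, ?_, hf.le⟩
  · intro j x
    refine le_iInf₂ fun y hy => ?_
    refine iInf₂_le (f := fun y (_ : dy (j+s) y = dy (j+s) x) => grandMax N T f y ^ p) y ?_
    exact dy_coarse (by omega) hy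
  · intro j x y hxy
    simp only [he]
    rw [hxy]
  · intro j x
    exact iInf₂_le (f := fun y (_ : dy (j+s) y = dy (j+s) x) => grandMax N T f y ^ p) x rfl
  · intro x hx
    have h2 : (1:ℝ≥0∞) ≤ ‖(u x : ℂ)‖ₑ := by
      rw [← ofReal_norm, Complex.norm_real]
      exact ENNReal.one_le_ofReal.2 ((h1K x hx).trans (le_abs_self _))
    have h4 := enorm_le_tsum_of_tendsto (rep_tendsto hφ f u hu hrep x)
    have h5 : ∀ j, ‖f (refl x (kap hφ (-α) 0 j))‖ₑ ^ p ≤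
        ENNReal.ofReal A ^ p * ENNReal.ofReal ((2:ℝ) ^ (-(α * p))) ^ j * e j x := by
      intro j
      have h6 : ENNReal.ofReal A ^ p * ENNReal.ofReal ((2:ℝ) ^ (-(α * p))) ^ j =
          ENNReal.ofReal (A * (2:ℝ) ^ ((j:ℝ) * (-α))) ^ p := by
        rw [ENNReal.ofReal_mul hA.le, ENNReal.mul_rpow_of_nonneg _ _ hp.le]
        congr 1
        rw [← ENNReal.ofReal_pow (by positivity), ENNReal.ofReal_rpow_of_nonneg (by positivity) hp.le,
          ← Real.rpow_natCast, ← Real.rpow_mul (by norm_num), ← Real.rpow_mul (by norm_num)]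
        congr 2
        ring
      rw [h6]
      have h7 : ∀ y, dy (j+s) y = dy (j+s) x → ‖f (refl x (kap hφ (-α) 0 j))‖ₑ ^ p ≤
          ENNReal.ofReal (A * (2:ℝ) ^ ((j:ℝ) * (-α))) ^ p * grandMax N T f y ^ p := by
        intro y hy
        rw [← ENNReal.mul_rpow_of_nonneg _ _ hp.le]
        gcongr
        refine hpair T hT f j x y ?_
        refine (dist_le_of_dy_eq hy).trans_lt ?_
        rw [Real.rpow_neg (by norm_num), Real.rpow_natCast, pow_add, mul_inv, ← mul_assoc,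
          mul_comm _ ((2:ℝ) ^ j)⁻¹, mul_assoc]
        have h8 : Real.sqrt n * ((2:ℝ) ^ s)⁻¹ < 1 := by
          rw [← div_eq_mul_inv, div_lt_one (by positivity)]; exact hs
        calc ((2:ℝ) ^ j)⁻¹ * (Real.sqrt n * ((2:ℝ) ^ s)⁻¹) < ((2:ℝ) ^ j)⁻¹ * 1 := by gcongr
          _ = _ := mul_one _
      simp only [he]
      have hc : ENNReal.ofReal (A * (2:ℝ) ^ ((j:ℝ) * (-α))) ^ p ≠ ⊤ := by finiteness
      have hc0 : ENNReal.ofReal (A * (2:ℝ) ^ ((j:ℝ) * (-α))) ^ p ≠ 0 := by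
        rw [ne_eq, ENNReal.rpow_eq_zero_iff]
        push Not
        refine ⟨fun h => absurd h ?_, fun h => absurd h ENNReal.ofReal_ne_top⟩
        rw [ENNReal.ofReal_eq_zero, not_le]; positivity
      rw [mul_comm, ← ENNReal.div_le_iff hc0 hc]
      refine le_iInf₂ fun y hy => ?_
      rw [ENNReal.div_le_iff hc0 hc, mul_comm]
      exact h7 y hy
    calc (1:ℝ≥0∞) = 1 ^ p := (ENNReal.one_rpow p).symm
      _ ≤ (∑' j, ‖f (refl x (kap hφ (-α) 0 j))‖ₑ) ^ p := by gcongr; exact h2.trans h4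
      _ ≤ ∑' j, ‖f (refl x (kap hφ (-α) 0 j))‖ₑ ^ p := rpow_tsum_le _ hp hp1
      _ ≤ _ := ENNReal.tsum_le_tsum h5

end Pool.Agent.V8H56.BC
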