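import Pool.Agent.V8H56.BC.Block

/-! Summation of the decay factors and weight integrals (for MP_9b3711_an). -/

open MeasureTheory Set Filter SchwartzMap FourierTransform
open scoped ENNReal NNReal Topology SchwartzMap Convolution ContDiff Real

namespace Pool.Agent.V8H56.BC

variable {n : ℕ}

lemma tsum_abs_le (A : ℝ) (hA0 : 0 ≤ A) (i : ℕ) :
    ∑' j : ℕ, ENNReal.ofReal (A ^ (Int.natAbs ((j:ℤ) - i))) ≤ 2 * (1 - ENNReal.ofReal A)⁻¹ := by
  have h1 : ∀ j : ℕ, ENNReal.ofReal (A ^ (Int.natAbs ((j:ℤ) - i))) ≤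
      (if j ≤ i then (ENNReal.ofReal A) ^ (i - j) else 0) +
      (if i ≤ j then (ENNReal.ofReal A) ^ (j - i) else 0) := by
    intro j
    rw [ENNReal.ofReal_pow hA0]
    rcases le_total j i with h | h
    · have : Int.natAbs ((j:ℤ) - i) = i - j := by omega
      rw [this, if_pos h]
      exact le_self_add
    · have : Int.natAbs ((j:ℤ) - i) = j - i := by omega
      rw [this, if_pos h]
      exact le_add_self
  refine (ENNReal.tsum_le_tsum h1).trans ?_
  rw [ENNReal.tsum_add, two_mul]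
  refine add_le_add ?_ ?_
  · have h2 : ∑' j : ℕ, (if j ≤ i then (ENNReal.ofReal A) ^ (i - j) else 0)
        = ∑ j ∈ Finset.range (i+1), (ENNReal.ofReal A) ^ (i - j) := by
      rw [tsum_eq_sum (s := Finset.range (i+1))]
      · refine Finset.sum_congr rfl fun j hj => ?_
        rw [if_pos (by have := Finset.mem_range.1 hj; omega)]
      · intro j hj
        rw [if_neg (by rw [Finset.mem_range] at hj; omega)]
    rw [h2]
    have h3 : ∑ j ∈ Finset.range (i+1), (ENNReal.ofReal A) ^ (i - j)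
        = ∑ j ∈ Finset.range (i+1), (ENNReal.ofReal A) ^ j := by
      have := Finset.sum_range_reflect (fun j => (ENNReal.ofReal A) ^ j) (i+1)
      simpa using this
    rw [h3, ← ENNReal.tsum_geometric]
    exact ENNReal.sum_le_tsum _
  · have h2 : ∑' j : ℕ, (if i ≤ j then (ENNReal.ofReal A) ^ (j - i) else 0)
        = ∑' k : ℕ, (ENNReal.ofReal A) ^ k := by
      set F : ℕ → ℝ≥0∞ := fun j => if i ≤ j then (ENNReal.ofReal A) ^ (j - i) else 0 with hF
      have h4 := Summable.sum_add_tsum_nat_add' (f := F) (k := i) ENNReal.summable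
      have h3 : ∑ j ∈ Finset.range i, F j = 0 := by
        refine Finset.sum_eq_zero fun j hj => ?_
        rw [hF]
        simp only
        rw [if_neg (by have := Finset.mem_range.1 hj; omega)]
      rw [h3, zero_add] at h4
      rw [← h4]
      refine tsum_congr fun k => ?_
      simp only [hF]
      rw [if_pos (by omega)]
      congr 1
      omega
    rw [h2, ENNReal.tsum_geometric]

/-- sum of the decay factors against `2^(jθ)` -/
theorem sum_gam (r : ℕ) {θ κ : ℝ} (hθ : 0 < θ) (hκ : 0 < κ) (hr : θ < 2 * r * κ) :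
    ∃ C : ℝ≥0∞, C ≠ ⊤ ∧ ∀ i : ℕ,
      ∑' j : ℕ, ENNReal.ofReal ((2:ℝ) ^ ((j:ℝ) * θ) * gam r j (((2:ℝ) ^ i)⁻¹) ^ κ)
        ≤ C * ENNReal.ofReal ((2:ℝ) ^ ((i:ℝ) * θ)) := by
  set c := min θ (2 * r * κ - θ) with hc
  have hc0 : 0 < c := lt_min hθ (by linarith)
  set A : ℝ := (2:ℝ) ^ (-c) with hA
  have hA0 : 0 < A := by positivity
  have hA1 : A < 1 := Real.rpow_lt_one_of_one_lt_of_neg (by norm_num) (by linarith)
  refine ⟨2 * (1 - ENNReal.ofReal A)⁻¹, ?_, fun i => ?_⟩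
  · refine ENNReal.mul_ne_top (by norm_num) (ENNReal.inv_ne_top.2 ?_)
    rw [ne_eq, tsub_eq_zero_iff_le, not_le, ENNReal.ofReal_lt_one]
    exact hA1
  · have key : ∀ j : ℕ, (2:ℝ) ^ ((j:ℝ) * θ) * gam r j (((2:ℝ) ^ i)⁻¹) ^ κ
        ≤ A ^ (Int.natAbs ((j:ℤ) - i)) * (2:ℝ) ^ ((i:ℝ) * θ) := by
      intro j
      rcases le_total j i with h | h
      · have e1 : Int.natAbs ((j:ℤ) - i) = i - j := by omega
        rw [e1, hA, ← Real.rpow_natCast ((2:ℝ) ^ (-c)), ← Real.rpow_mul (by norm_num),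
          ← Real.rpow_add (by norm_num), Nat.cast_sub h]
        have e2 : gam r j (((2:ℝ) ^ i)⁻¹) ^ κ ≤ 1 :=
          Real.rpow_le_one (gam_nonneg _ _ _) (min_le_left _ _) hκ.le
        calc (2:ℝ) ^ ((j:ℝ) * θ) * gam r j (((2:ℝ) ^ i)⁻¹) ^ κ ≤ (2:ℝ) ^ ((j:ℝ) * θ) * 1 := by gcongr
          _ ≤ _ := by
            rw [mul_one]
            apply Real.rpow_le_rpow_of_exponent_le (by norm_num)
            have h3 : (0:ℝ) ≤ (i:ℝ) - j := by
              have : (j:ℝ) ≤ i := by exact_mod_cast h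
              linarith
            have h4 : c ≤ θ := min_le_left _ _
            nlinarith
      · have e1 : Int.natAbs ((j:ℤ) - i) = j - i := by omega
        rw [e1, hA, ← Real.rpow_natCast ((2:ℝ) ^ (-c)), ← Real.rpow_mul (by norm_num),
          ← Real.rpow_add (by norm_num), Nat.cast_sub h]
        have e3 : ((((2:ℝ) ^ j * ((2:ℝ) ^ i)⁻¹) ^ 2)⁻¹ ^ r) = (2:ℝ) ^ (-(2 * r * ((j:ℝ) - i))) := by
          have e4 : (2:ℝ) ^ j * ((2:ℝ) ^ i)⁻¹ = (2:ℝ) ^ ((j:ℝ) - i) := by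
            rw [Real.rpow_sub (by norm_num), Real.rpow_natCast, Real.rpow_natCast]; rfl
          rw [e4, ← Real.rpow_natCast _ 2, ← Real.rpow_mul (by norm_num), ← Real.rpow_neg (by norm_num),
            ← Real.rpow_natCast, ← Real.rpow_mul (by norm_num)]
          congr 1
          push_cast; ring
        have e2 : gam r j (((2:ℝ) ^ i)⁻¹) ^ κ ≤ (2:ℝ) ^ (-(2 * r * κ * ((j:ℝ) - i))) := by
          calc gam r j (((2:ℝ) ^ i)⁻¹) ^ κ ≤ ((2:ℝ) ^ (-(2 * r * ((j:ℝ) - i)))) ^ κ := by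
                apply Real.rpow_le_rpow (gam_nonneg _ _ _) _ hκ.le
                rw [← e3]; exact min_le_right _ _
            _ = _ := by rw [← Real.rpow_mul (by norm_num)]; congr 1; ring
        calc (2:ℝ) ^ ((j:ℝ) * θ) * gam r j (((2:ℝ) ^ i)⁻¹) ^ κ
            ≤ (2:ℝ) ^ ((j:ℝ) * θ) * (2:ℝ) ^ (-(2 * r * κ * ((j:ℝ) - i))) := by gcongr
          _ ≤ _ := by
            rw [← Real.rpow_add (by norm_num)]
            apply Real.rpow_le_rpow_of_exponent_le (by norm_num)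
            have h3 : (0:ℝ) ≤ (j:ℝ) - i := by
              have : (i:ℝ) ≤ j := by exact_mod_cast h
              linarith
            have h4 : c ≤ 2 * r * κ - θ := min_le_right _ _
            nlinarith
    calc ∑' j : ℕ, ENNReal.ofReal ((2:ℝ) ^ ((j:ℝ) * θ) * gam r j (((2:ℝ) ^ i)⁻¹) ^ κ)
        ≤ ∑' j : ℕ, ENNReal.ofReal (A ^ (Int.natAbs ((j:ℤ) - i))) *
            ENNReal.ofReal ((2:ℝ) ^ ((i:ℝ) * θ)) := by
          refine ENNReal.tsum_le_tsum fun j => ?_
          rw [← ENNReal.ofReal_mul (by positivity)]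
          exact ENNReal.ofReal_le_ofReal (key j)
      _ = (∑' j : ℕ, ENNReal.ofReal (A ^ (Int.natAbs ((j:ℤ) - i)))) *
            ENNReal.ofReal ((2:ℝ) ^ ((i:ℝ) * θ)) := ENNReal.tsum_mul_right
      _ ≤ _ := by
          gcongr
          exact tsum_abs_le A hA0.le i

/-- weight functions are `p`-integrable with the right scaling -/
theorem lintegral_weight {p : ℝ} (hp : 0 < p) {m : ℕ} (hm : (n:ℝ) < m * p) :
    ∃ C : ℝ≥0∞, C ≠ ⊤ ∧ ∀ (x₀ : EuclideanSpace ℝ (Fin n)) (s : ℝ), 0 < s →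
      ∫⁻ x, ENNReal.ofReal (((1 + ‖x - x₀‖ / s) ^ m)⁻¹) ^ p ≤ C * ENNReal.ofReal (s ^ n) := by
  have hint := integrable_one_add_norm (E := EuclideanSpace ℝ (Fin n)) (μ := volume) (r := (m:ℝ) * p)
    (by simpa using hm)
  refine ⟨ENNReal.ofReal (∫ x : EuclideanSpace ℝ (Fin n), (1 + ‖x‖) ^ (-((m:ℝ) * p))),
    ENNReal.ofReal_ne_top, fun x₀ s hs => ?_⟩
  have h1 : ∀ x : EuclideanSpace ℝ (Fin n), ENNReal.ofReal (((1 + ‖x - x₀‖ / s) ^ m)⁻¹) ^ p =
      ENNReal.ofReal ((1 + ‖s⁻¹ • (x - x₀)‖) ^ (-((m:ℝ) * p))) := by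
    intro x
    have e1 : ‖s⁻¹ • (x - x₀)‖ = ‖x - x₀‖ / s := by
      rw [norm_smul, norm_inv, Real.norm_of_nonneg hs.le]; field_simp
    rw [e1, ENNReal.ofReal_rpow_of_nonneg (by positivity) hp.le]
    congr 1
    rw [Real.rpow_neg (by positivity), Real.rpow_mul (by positivity), Real.rpow_natCast,
      Real.inv_rpow (by positivity)]
  simp only [h1]
  obtain ⟨hi1, hi2⟩ := int_scale hint x₀ hs
  have hi3 : Integrable (fun x => (1 + ‖s⁻¹ • (x - x₀)‖) ^ (-((m:ℝ) * p))) := by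
    have := hi1.const_mul (s ^ n)
    refine this.congr (Eventually.of_forall fun x => ?_)
    simp only
    rw [← mul_assoc, mul_inv_cancel₀ (by positivity), one_mul]
  rw [← ofReal_integral_eq_lintegral_ofReal hi3 (Eventually.of_forall fun x => by positivity),
    ← ENNReal.ofReal_mul (integral_nonneg fun x => by positivity)]
  apply ENNReal.ofReal_le_ofReal
  rw [← hi2, ← integral_mul_const]
  apply le_of_eq
  refine integral_congr_ae (Eventually.of_forall fun x => ?_)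
  simp only
  field_simp

end Pool.Agent.V8H56.BC
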