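import Pool.Agent.V8H56.BC.Family
import Pool.Agent.V8H56.BC.Defs

/-! Littlewood-Paley kernels with Bessel factors (for MP_9b3711_an). -/

open MeasureTheory Set Filter SchwartzMap FourierTransform
open scoped ENNReal NNReal Topology SchwartzMap Convolution ContDiff Real

namespace Pool.Agent.V8H56.BC

variable {n : ℕ}

lemma fourier_aff (x₀ : EuclideanSpace ℝ (Fin n)) (s : ℝ) (hs : 0 < s)
    (ψ : 𝓢(EuclideanSpace ℝ (Fin n), ℂ)) (ξ : EuclideanSpace ℝ (Fin n)) :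
    𝓕 (aff x₀ s hs.ne' ψ) ξ = (s:ℂ) ^ n *
      (Complex.exp (((-2 * π * (inner ℝ x₀ ξ : ℝ) : ℝ) : ℂ) * Complex.I) * 𝓕 ψ (s • ξ)) := by
  rw [fourier_coe, fourier_coe, Real.fourier_eq', Real.fourier_eq']
  set F : EuclideanSpace ℝ (Fin n) → ℂ := fun w =>
    Complex.exp (((-2 * π * (inner ℝ (w + x₀) ξ : ℝ) : ℝ) : ℂ) * Complex.I) • ψ (s⁻¹ • w) with hF
  set G : EuclideanSpace ℝ (Fin n) → ℂ := fun y =>
    Complex.exp (((-2 * π * (inner ℝ (s • y + x₀) ξ : ℝ) : ℝ) : ℂ) * Complex.I) • ψ y with hG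
  have h1 : ∀ v, Complex.exp (((-2 * π * (inner ℝ v ξ : ℝ) : ℝ) : ℂ) * Complex.I) •
      (aff x₀ s hs.ne' ψ) v = F (v - x₀) := by
    intro v
    simp [hF]
  have h2 : ∀ w, F w = G (s⁻¹ • w) := by
    intro w
    simp only [hF, hG, smul_smul, mul_inv_cancel₀ hs.ne', one_smul]
  have h3 : ∀ y, G y = Complex.exp (((-2 * π * (inner ℝ x₀ ξ : ℝ) : ℝ) : ℂ) * Complex.I) *
      (Complex.exp (((-2 * π * (inner ℝ y (s • ξ) : ℝ) : ℝ) : ℂ) * Complex.I) • ψ y) := by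
    intro y
    have : (((-2 * π * (inner ℝ (s • y + x₀) ξ : ℝ) : ℝ) : ℂ) * Complex.I)
        = (((-2 * π * (inner ℝ x₀ ξ : ℝ) : ℝ) : ℂ) * Complex.I) +
          (((-2 * π * (inner ℝ y (s • ξ) : ℝ) : ℝ) : ℂ) * Complex.I) := by
      rw [inner_add_left, real_inner_smul_left, real_inner_smul_right]; push_cast; ring
    simp only [hG]
    rw [this, Complex.exp_add]
    simp only [smul_eq_mul]
    ring
  calc ∫ v, Complex.exp (((-2 * π * (inner ℝ v ξ : ℝ) : ℝ) : ℂ) * Complex.I) •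
      (aff x₀ s hs.ne' ψ) v = ∫ v, F (v - x₀) := by simp only [h1]
    _ = ∫ w, F w := integral_sub_right_eq_self F x₀
    _ = ∫ w, G (s⁻¹ • w) := by simp only [h2]
    _ = |s ^ n| • ∫ y, G y := by
        have := Measure.integral_comp_inv_smul (volume : Measure (EuclideanSpace ℝ (Fin n))) G s
        rw [this]
        simp only [finrank_euclideanSpace, Fintype.card_fin]
    _ = _ := by
        simp only [h3]
        rw [integral_const_mul, abs_of_pos (by positivity), Complex.real_smul]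
        push_cast
        rfl

lemma fourierInv_aff (s : ℝ) (hs : 0 < s)
    (ψ : 𝓢(EuclideanSpace ℝ (Fin n), ℂ)) (ξ : EuclideanSpace ℝ (Fin n)) :
    (𝓕⁻ (aff 0 s hs.ne' ψ) : 𝓢(EuclideanSpace ℝ (Fin n), ℂ)) ξ
      = (s:ℂ) ^ n * (𝓕⁻ ψ : 𝓢(EuclideanSpace ℝ (Fin n), ℂ)) (s • ξ) := by
  rw [fourierInv_coe, fourierInv_coe, Real.fourierInv_eq', Real.fourierInv_eq']
  set G : EuclideanSpace ℝ (Fin n) → ℂ := fun y =>
    Complex.exp (((2 * π * (inner ℝ (s • y) ξ : ℝ) : ℝ) : ℂ) * Complex.I) • ψ y with hG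
  have h1 : ∀ v, Complex.exp (((2 * π * (inner ℝ v ξ : ℝ) : ℝ) : ℂ) * Complex.I) •
      (aff 0 s hs.ne' ψ) v = G (s⁻¹ • v) := by
    intro v
    simp only [hG, smul_smul, mul_inv_cancel₀ hs.ne', one_smul, aff_apply, sub_zero]
  have h3 : ∀ y, G y = (Complex.exp (((2 * π * (inner ℝ y (s • ξ) : ℝ) : ℝ) : ℂ) * Complex.I) • ψ y) := by
    intro y
    simp only [hG]
    rw [real_inner_smul_left, real_inner_smul_right]
  calc ∫ v, Complex.exp (((2 * π * (inner ℝ v ξ : ℝ) : ℝ) : ℂ) * Complex.I) •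
      (aff 0 s hs.ne' ψ) v = ∫ v, G (s⁻¹ • v) := by simp only [h1]
    _ = |s ^ n| • ∫ y, G y := by
        have := Measure.integral_comp_inv_smul (volume : Measure (EuclideanSpace ℝ (Fin n))) G s
        rw [this]
        simp only [finrank_euclideanSpace, Fintype.card_fin]
    _ = _ := by
        simp only [h3]
        rw [abs_of_pos (by positivity), Complex.real_smul]
        push_cast
        rfl

/-- scaling of kernel bounds -/
lemma ker_scale {M L : ℕ} {A : ℝ} {g : 𝓢(EuclideanSpace ℝ (Fin n), ℂ)} (hg : Ker n M L A 1 g)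
    {s : ℝ} (hs : 0 < s) {q : 𝓢(EuclideanSpace ℝ (Fin n), ℂ)}
    (hq : ∀ x, q x = (s:ℂ) ^ n * g (s • x)) : Ker n M L A s⁻¹ q := by
  intro l hl z
  set G : EuclideanSpace ℝ (Fin n) →L[ℝ] EuclideanSpace ℝ (Fin n) :=
    s • ContinuousLinearMap.id ℝ _ with hG
  have hfun : (⇑q) = ((s:ℂ) ^ n) • (⇑g ∘ G) := by
    funext x; simp [hq, hG]
  have hsm : ContDiff ℝ l (⇑g ∘ G) := (g.smooth l).comp G.contDiff
  have h1 : ‖iteratedFDeriv ℝ l q z‖ ≤ s ^ n * (‖iteratedFDeriv ℝ l g (s • z)‖ * s ^ l) := by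
    rw [hfun, iteratedFDeriv_const_smul_apply hsm.contDiffAt, norm_smul]
    have e1 : ‖((s:ℂ) ^ n)‖ = s ^ n := by
      rw [norm_pow, Complex.norm_real, Real.norm_of_nonneg hs.le]
    rw [e1]
    gcongr
    rw [ContinuousLinearMap.iteratedFDeriv_comp_right G (g.smooth l) z le_rfl]
    have h4 := ContinuousMultilinearMap.norm_compContinuousLinearMap_le
      (iteratedFDeriv ℝ l g (G z)) (fun _ => G)
    simp only [Finset.prod_const, Finset.card_univ, Fintype.card_fin] at h4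
    have h5 : G z = s • z := by simp [hG]
    rw [h5] at h4 ⊢
    refine h4.trans ?_
    gcongr
    rw [hG]
    refine (norm_smul_le _ _).trans ?_
    rw [Real.norm_of_nonneg hs.le]
    calc s * ‖ContinuousLinearMap.id ℝ (EuclideanSpace ℝ (Fin n))‖ ≤ s * 1 := by
          gcongr; exact ContinuousLinearMap.norm_id_le
      _ = s := mul_one s
  have h2 := hg l hl (s • z)
  simp only [one_pow, one_mul, div_one] at h2
  have h3 : ‖z‖ / s⁻¹ = ‖s • z‖ := by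
    rw [norm_smul, Real.norm_of_nonneg hs.le]; field_simp
  rw [h3]
  calc s⁻¹ ^ (n + l) * (1 + ‖s • z‖) ^ M * ‖iteratedFDeriv ℝ l q z‖
      ≤ s⁻¹ ^ (n + l) * (1 + ‖s • z‖) ^ M * (s ^ n * (‖iteratedFDeriv ℝ l g (s • z)‖ * s ^ l)) := by
        gcongr
    _ = (1 + ‖s • z‖) ^ M * ‖iteratedFDeriv ℝ l g (s • z)‖ := by
        rw [inv_pow, pow_add]; field_simp
    _ ≤ A := h2

/-- the smooth family of symbols on dyadic annuli -/
noncomputable def Hf (φ : EuclideanSpace ℝ (Fin n) → ℝ) (β : ℝ) (r : ℕ)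
    (p : ℝ × EuclideanSpace ℝ (Fin n)) : ℂ :=
  (((φ p.2 - φ ((2:ℝ) • p.2)) * (p.1 ^ 2 + (2 * π * ‖p.2‖) ^ 2) ^ (β / 2) *
    ((‖p.2‖ ^ 2)⁻¹) ^ r : ℝ) : ℂ)

lemma contDiff_Hf {φ : EuclideanSpace ℝ (Fin n) → ℝ} (hφ : IsCutoff φ) (β : ℝ) (r : ℕ) :
    ContDiff ℝ ∞ (Hf φ β r) := by
  rw [contDiff_iff_contDiffAt]
  rintro ⟨δ, η⟩
  by_cases hη : η = 0
  · have h1 : Hf φ β r =ᶠ[𝓝 (δ, η)] fun _ => 0 := by
      have : {p : ℝ × EuclideanSpace ℝ (Fin n) | ‖p.2‖ < 1/2} ∈ 𝓝 (δ, η) := by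
        refine (isOpen_lt (continuous_norm.comp continuous_snd) continuous_const).mem_nhds ?_
        change ‖η‖ < 1/2
        rw [hη, norm_zero]; norm_num
      filter_upwards [this] with p hp
      have hp' : ‖p.2‖ < 1/2 := hp
      have e1 : φ p.2 = 1 := hφ.one _ (by linarith)
      have e2 : φ ((2:ℝ) • p.2) = 1 := hφ.one _ (by
        rw [norm_smul, Real.norm_of_nonneg (by norm_num)]; linarith)
      simp [Hf, e1, e2]
    exact contDiffAt_const.congr_of_eventuallyEq h1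
  · unfold Hf
    refine Complex.ofRealCLM.contDiff.contDiffAt.comp _ ?_
    have hs : ContDiffAt ℝ ∞ (fun p : ℝ × EuclideanSpace ℝ (Fin n) => p.2) (δ, η) :=
      (contDiff_snd (𝕜 := ℝ) (E := ℝ) (F := EuclideanSpace ℝ (Fin n))).contDiffAt
    have hn : ContDiffAt ℝ ∞ (fun p : ℝ × EuclideanSpace ℝ (Fin n) => ‖p.2‖) (δ, η) :=
      hs.norm ℝ hη
    refine ContDiffAt.mul (ContDiffAt.mul ?_ ?_) ?_
    · refine ContDiffAt.sub ?_ ?_
      · exact (hφ.smooth.comp contDiff_snd).contDiffAt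
      · have h2 : ContDiff ℝ ∞ (fun p : ℝ × EuclideanSpace ℝ (Fin n) => (2:ℝ) • p.2) :=
          contDiff_snd.const_smul (2:ℝ)
        exact (hφ.smooth.comp h2).contDiffAt
    · refine ContDiffAt.rpow_const_of_ne ?_ ?_
      · exact (contDiff_fst.pow 2).contDiffAt.add ((contDiffAt_const.mul hn).pow 2)
      · have : 0 < ‖η‖ := norm_pos_iff.2 hη
        positivity
    · refine ContDiffAt.pow (ContDiffAt.inv (hn.pow 2) ?_) r
      have : 0 < ‖η‖ := norm_pos_iff.2 hη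
      positivity

lemma Hf_zero {φ : EuclideanSpace ℝ (Fin n) → ℝ} (hφ : IsCutoff φ) (β : ℝ) (r : ℕ)
    (δ : ℝ) (η : EuclideanSpace ℝ (Fin n)) (hη : 2 ≤ ‖η‖) : Hf φ β r (δ, η) = 0 := by
  have e1 : φ η = 0 := hφ.zero _ hη
  have e2 : φ ((2:ℝ) • η) = 0 := hφ.zero _ (by
    rw [norm_smul, Real.norm_of_nonneg (by norm_num)]; linarith)
  simp [Hf, e1, e2]

/-- the low frequency symbol -/
noncomputable def Lf (φ : EuclideanSpace ℝ (Fin n) → ℝ) (β : ℝ)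
    (p : ℝ × EuclideanSpace ℝ (Fin n)) : ℂ :=
  ((φ p.2 * (1 + (2 * π * ‖p.2‖) ^ 2) ^ (β / 2) : ℝ) : ℂ)

lemma contDiff_Lf {φ : EuclideanSpace ℝ (Fin n) → ℝ} (hφ : IsCutoff φ) (β : ℝ) :
    ContDiff ℝ ∞ (Lf φ β) := by
  unfold Lf
  refine Complex.ofRealCLM.contDiff.comp ?_
  refine ContDiff.mul (hφ.smooth.comp contDiff_snd) ?_
  have h1 : ContDiff ℝ ∞ (fun p : ℝ × EuclideanSpace ℝ (Fin n) => 1 + (2 * π * ‖p.2‖) ^ 2) := by
    have : (fun p : ℝ × EuclideanSpace ℝ (Fin n) => 1 + (2 * π * ‖p.2‖) ^ 2)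
        = fun p => 1 + (2 * π) ^ 2 * ‖p.2‖ ^ 2 := by
      funext p; ring
    rw [this]
    exact contDiff_const.add (contDiff_const.mul (contDiff_snd.norm_sq ℝ))
  exact h1.rpow_const_of_ne (fun p => by positivity)

lemma Lf_zero {φ : EuclideanSpace ℝ (Fin n) → ℝ} (hφ : IsCutoff φ) (β : ℝ)
    (δ : ℝ) (η : EuclideanSpace ℝ (Fin n)) (hη : 2 ≤ ‖η‖) : Lf φ β (δ, η) = 0 := by
  simp [Lf, hφ.zero _ hη]

end Pool.Agent.V8H56.BC
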