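import Pool.Agent.V8H56.BC.Sums

/-! Besov quasi-norm of a finite combination of blocks (for MP_9b3711_an). -/

open MeasureTheory Set Filter SchwartzMap FourierTransform
open scoped ENNReal NNReal Topology SchwartzMap Convolution ContDiff Real

namespace Pool.Agent.V8H56.BC

variable {n : ℕ}

lemma rpow_sum_le {ι : Type*} (I : Finset ι) (f : ι → ℝ≥0∞) {p : ℝ} (hp : 0 < p) (hp1 : p ≤ 1) :
    (∑ k ∈ I, f k) ^ p ≤ ∑ k ∈ I, f k ^ p := by
  classical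
  induction I using Finset.induction_on with
  | empty => simp [ENNReal.zero_rpow_of_pos hp]
  | insert a I ha ih =>
    rw [Finset.sum_insert ha, Finset.sum_insert ha]
    exact (ENNReal.rpow_add_le_add_rpow _ _ hp.le hp1).trans (by gcongr)

/-- data of a finite combination of blocks -/
noncomputable def comb {ι : Type*} (ψ : 𝓢(EuclideanSpace ℝ (Fin n), ℂ)) (D : ℕ) (I : Finset ι)
    (a : ι → ℝ) (h x₀ : ι → EuclideanSpace ℝ (Fin n)) (i : ι → ℕ) :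
    𝓢(EuclideanSpace ℝ (Fin n), ℂ) :=
  ∑ k ∈ I, ((a k : ℝ) : ℂ) • blk ψ (h k) D (x₀ k) (((2:ℝ) ^ (i k))⁻¹) (by positivity)

lemma cS_comb {ι : Type*} (q ψ : 𝓢(EuclideanSpace ℝ (Fin n), ℂ)) (D : ℕ) (I : Finset ι)
    (a : ι → ℝ) (h x₀ : ι → EuclideanSpace ℝ (Fin n)) (i : ι → ℕ) :
    cS q (comb ψ D I a h x₀ i) =
      ∑ k ∈ I, ((a k : ℝ) : ℂ) • cS q (blk ψ (h k) D (x₀ k) (((2:ℝ) ^ (i k))⁻¹) (by positivity)) := by
  unfold comb cS
  rw [map_sum]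
  refine Finset.sum_congr rfl fun k _ => ?_
  rw [map_smul]

lemma norm_sum_smul_le {ι : Type*} (I : Finset ι) (a : ι → ℝ)
    (v : ι → 𝓢(EuclideanSpace ℝ (Fin n), ℂ)) (x : EuclideanSpace ℝ (Fin n)) :
    ‖(∑ k ∈ I, ((a k : ℝ) : ℂ) • v k) x‖ₑ ≤ ∑ k ∈ I, ENNReal.ofReal |a k| * ‖v k x‖ₑ := by
  have h1 : (∑ k ∈ I, ((a k : ℝ) : ℂ) • v k) x = ∑ k ∈ I, ((a k : ℝ) : ℂ) * v k x := by
    rw [sum_apply]; rfl
  rw [h1]
  refine (enorm_sum_le _ _).trans (le_of_eq ?_)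
  refine Finset.sum_congr rfl fun k _ => ?_
  rw [enorm_mul]
  congr 1
  rw [← ofReal_norm, Complex.norm_real, Real.norm_eq_abs]

/-- Besov quasi-norm of combinations of blocks -/
theorem besov_blocks {φ : EuclideanSpace ℝ (Fin n) → ℝ} (hφ : IsCutoff φ) {α p : ℝ} (hα : 0 < α)
    (hp : 0 < p) (hp1 : p ≤ 1) (ψ : 𝓢(EuclideanSpace ℝ (Fin n), ℂ)) (D : ℕ)
    (hD : (n:ℝ) < ((n + D : ℕ) : ℝ) * p) (Hs : Finset (EuclideanSpace ℝ (Fin n))) :
    ∃ C : ℝ≥0∞, C ≠ ⊤ ∧ ∀ (ι : Type) (I : Finset ι) (a : ι → ℝ)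
      (h x₀ : ι → EuclideanSpace ℝ (Fin n)) (i : ι → ℕ), (∀ k ∈ I, h k ∈ Hs) →
      besovPow φ α p (comb ψ D I a h x₀ i) ≤
        C * ∑ k ∈ I, ENNReal.ofReal (|a k| ^ p * (2:ℝ) ^ (-((i k : ℝ) * (n - α * p)))) := by
  obtain ⟨r, hr⟩ : ∃ r : ℕ, α * p < 2 * r * p := by
    obtain ⟨r, hr⟩ := exists_nat_gt α
    exact ⟨r, by nlinarith⟩
  choose B hB0 hB using fun h => block_est1 hφ 0 r ψ h D
  obtain ⟨C₁, hC₁, hsum⟩ := sum_gam r (θ := α * p) (κ := p) (by positivity) hp hr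
  obtain ⟨C₂, hC₂, hw⟩ := lintegral_weight (n := n) hp hD
  set BB : ℝ := ∑ h ∈ Hs, B h with hBB
  have hBB0 : 0 ≤ BB := Finset.sum_nonneg fun h _ => hB0 h
  refine ⟨ENNReal.ofReal (BB ^ p) * C₂ * C₁, by finiteness, ?_⟩
  intro ι I a h x₀ i hI
  -- pointwise bound
  have hpt : ∀ (j : ℕ) (x : EuclideanSpace ℝ (Fin n)),
      ‖SchwartzMap.fourierMultiplierCLM ℂ (lpSymbol φ j) (comb ψ D I a h x₀ i) x‖ₑ ^ p ≤
        ∑ k ∈ I, ENNReal.ofReal (|a k| ^ p * (BB ^ p * gam r j (((2:ℝ) ^ (i k))⁻¹) ^ p)) *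
          ENNReal.ofReal (((1 + ‖x - x₀ k‖ / ((2:ℝ) ^ (i k))⁻¹) ^ (n + D))⁻¹) ^ p := by
    intro j x
    rw [lp_eq_cS hφ, cS_comb]
    refine (ENNReal.rpow_le_rpow (norm_sum_smul_le _ _ _ _) hp.le).trans ?_
    refine (rpow_sum_le _ _ hp hp1).trans (Finset.sum_le_sum fun k hk => ?_)
    have hs1 : ((2:ℝ) ^ (i k))⁻¹ ≤ 1 := inv_le_one_of_one_le₀ (one_le_pow₀ (by norm_num))
    have h1 := hB (h k) j (((2:ℝ) ^ (i k))⁻¹) (by positivity) (x₀ k) x hs1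
    simp only [mul_zero, Real.rpow_zero, one_mul] at h1
    set W := (1 + ‖x - x₀ k‖ / ((2:ℝ) ^ (i k))⁻¹) ^ (n + D) with hW
    have hW0 : 0 < W := by positivity
    have h2 : B (h k) ≤ BB := Finset.single_le_sum (f := B) (fun h _ => hB0 h) (hI k hk)
    have h3 : ‖cS (kap hφ 0 0 j) (blk ψ (h k) D (x₀ k) (((2:ℝ) ^ (i k))⁻¹) (by positivity)) x‖
        ≤ BB * gam r j (((2:ℝ) ^ (i k))⁻¹) * W⁻¹ := by
      rw [← div_eq_mul_inv, le_div_iff₀ hW0, mul_comm]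
      refine h1.trans ?_
      have := gam_nonneg r j (((2:ℝ) ^ (i k))⁻¹)
      gcongr
    have h4 : ENNReal.ofReal |a k| *
        ‖cS (kap hφ 0 0 j) (blk ψ (h k) D (x₀ k) (((2:ℝ) ^ (i k))⁻¹) (by positivity)) x‖ₑ
        ≤ ENNReal.ofReal (|a k| * (BB * gam r j (((2:ℝ) ^ (i k))⁻¹))) * ENNReal.ofReal W⁻¹ := by
      rw [← ofReal_norm, ← ENNReal.ofReal_mul (abs_nonneg _), ← ENNReal.ofReal_mul (by
        have := gam_nonneg r j (((2:ℝ) ^ (i k))⁻¹); positivity)]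
      apply ENNReal.ofReal_le_ofReal
      calc _ ≤ |a k| * (BB * gam r j (((2:ℝ) ^ (i k))⁻¹) * W⁻¹) := by gcongr
        _ = _ := by ring
    refine (ENNReal.rpow_le_rpow h4 hp.le).trans (le_of_eq ?_)
    have hg := gam_nonneg r j (((2:ℝ) ^ (i k))⁻¹)
    rw [ENNReal.mul_rpow_of_nonneg _ _ hp.le]
    congr 1
    rw [ENNReal.ofReal_rpow_of_nonneg (by positivity) hp.le, Real.mul_rpow (abs_nonneg _) (by positivity),
      Real.mul_rpow hBB0 hg]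
  -- integrate
  have hint : ∀ j : ℕ, ∫⁻ x, ‖SchwartzMap.fourierMultiplierCLM ℂ (lpSymbol φ j)
      (comb ψ D I a h x₀ i) x‖ₑ ^ p ≤
        ∑ k ∈ I, ENNReal.ofReal (|a k| ^ p * (BB ^ p * gam r j (((2:ℝ) ^ (i k))⁻¹) ^ p)) *
          (C₂ * ENNReal.ofReal ((((2:ℝ) ^ (i k))⁻¹) ^ n)) := by
    intro j
    refine (lintegral_mono (hpt j)).trans ?_
    rw [lintegral_finsetSum']
    · refine Finset.sum_le_sum fun k _ => ?_
      rw [lintegral_const_mul']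
      · gcongr
        exact hw (x₀ k) _ (by positivity)
      · exact ENNReal.ofReal_ne_top
    · intro k _
      refine Measurable.aemeasurable ?_
      refine Measurable.const_mul ?_ _
      refine Measurable.pow_const ?_ _
      refine ENNReal.measurable_ofReal.comp ?_
      exact Continuous.measurable (by
        refine Continuous.inv₀ (by fun_prop) fun x => ?_
        positivity)
  -- sum over frequencies
  unfold besovPow
  calc ∑' j : ℕ, ENNReal.ofReal ((2:ℝ) ^ ((j:ℝ) * (α * p))) *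
        ∫⁻ x, ‖SchwartzMap.fourierMultiplierCLM ℂ (lpSymbol φ j) (comb ψ D I a h x₀ i) x‖ₑ ^ p
      ≤ ∑' j : ℕ, ENNReal.ofReal ((2:ℝ) ^ ((j:ℝ) * (α * p))) *
        ∑ k ∈ I, ENNReal.ofReal (|a k| ^ p * (BB ^ p * gam r j (((2:ℝ) ^ (i k))⁻¹) ^ p)) *
          (C₂ * ENNReal.ofReal ((((2:ℝ) ^ (i k))⁻¹) ^ n)) := by
        refine ENNReal.tsum_le_tsum fun j => ?_
        gcongr
        exact hint j
    _ = ∑' j : ℕ, ∑ k ∈ I, (ENNReal.ofReal (BB ^ p) * C₂ *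
          ENNReal.ofReal (|a k| ^ p * (((2:ℝ) ^ (i k))⁻¹) ^ n)) *
          ENNReal.ofReal ((2:ℝ) ^ ((j:ℝ) * (α * p)) * gam r j (((2:ℝ) ^ (i k))⁻¹) ^ p) := by
        refine tsum_congr fun j => ?_
        rw [Finset.mul_sum]
        refine Finset.sum_congr rfl fun k _ => ?_
        have hg := gam_nonneg r j (((2:ℝ) ^ (i k))⁻¹)
        rw [ENNReal.ofReal_mul (by positivity), ENNReal.ofReal_mul (by positivity),
          ENNReal.ofReal_mul (by positivity), ENNReal.ofReal_mul (by positivity)]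
        ring
    _ = ∑ k ∈ I, ∑' j : ℕ, (ENNReal.ofReal (BB ^ p) * C₂ *
          ENNReal.ofReal (|a k| ^ p * (((2:ℝ) ^ (i k))⁻¹) ^ n)) *
          ENNReal.ofReal ((2:ℝ) ^ ((j:ℝ) * (α * p)) * gam r j (((2:ℝ) ^ (i k))⁻¹) ^ p) :=
        Summable.tsum_finsetSum fun k _ => ENNReal.summable
    _ ≤ ∑ k ∈ I, (ENNReal.ofReal (BB ^ p) * C₂ *
          ENNReal.ofReal (|a k| ^ p * (((2:ℝ) ^ (i k))⁻¹) ^ n)) *
          (C₁ * ENNReal.ofReal ((2:ℝ) ^ ((i k:ℝ) * (α * p)))) := by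
        refine Finset.sum_le_sum fun k _ => ?_
        rw [ENNReal.tsum_mul_left]
        gcongr
        exact hsum (i k)
    _ = _ := by
        rw [Finset.mul_sum]
        refine Finset.sum_congr rfl fun k _ => ?_
        have e1 : (2:ℝ) ^ (-((i k : ℝ) * (n - α * p))) =
            (((2:ℝ) ^ (i k))⁻¹) ^ n * (2:ℝ) ^ ((i k:ℝ) * (α * p)) := by
          rw [← Real.rpow_natCast, ← Real.rpow_natCast, ← Real.rpow_neg (by norm_num),
            ← Real.rpow_mul (by norm_num), ← Real.rpow_add (by norm_num)]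
          congr 1; ring
        rw [e1, ← mul_assoc (|a k| ^ p), ENNReal.ofReal_mul (by positivity) (q := (2:ℝ) ^ ((i k:ℝ) * (α * p)))]
        ring

end Pool.Agent.V8H56.BC
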