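import Pool.Agent.V8H56.BC.LP

/-! Hardy quasi-norm of `(1-Δ)^(α/2)` of a finite combination of blocks (for MP_9b3711_an). -/

open MeasureTheory Set Filter SchwartzMap FourierTransform
open scoped ENNReal NNReal Topology SchwartzMap Convolution ContDiff Real

namespace Pool.Agent.V8H56.BC

variable {n : ℕ}

/-- the symbol `(1 + |2πξ|²)^(γ/2)` -/
noncomputable def jsym (γ : ℝ) (ξ : EuclideanSpace ℝ (Fin n)) : ℝ :=
  (1 + (2 * Real.pi * ‖ξ‖) ^ 2) ^ (γ / 2)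

lemma hasTemperateGrowth_jsym (γ : ℝ) :
    (jsym γ : EuclideanSpace ℝ (Fin n) → ℝ).HasTemperateGrowth := by
  set G : EuclideanSpace ℝ (Fin n) →L[ℝ] EuclideanSpace ℝ (Fin n) :=
    (2 * Real.pi) • ContinuousLinearMap.id ℝ _ with hG
  have h1 : (jsym γ : EuclideanSpace ℝ (Fin n) → ℝ)
      = (fun x : EuclideanSpace ℝ (Fin n) => (1 + ‖x‖ ^ 2) ^ (γ / 2)) ∘ G := by
    funext ξ
    simp only [jsym, Function.comp_apply, hG]
    congr 2
    have : ((2 * Real.pi) • ContinuousLinearMap.id ℝ (EuclideanSpace ℝ (Fin n))) ξ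
      = (2 * Real.pi) • ξ := rfl
    rw [this, norm_smul, Real.norm_of_nonneg (by positivity)]
  rw [h1]
  exact Function.HasTemperateGrowth.comp
    (Function.hasTemperateGrowth_one_add_norm_sq_rpow (EuclideanSpace ℝ (Fin n)) (γ / 2))
    G.hasTemperateGrowth

/-- `(1 - Δ)^(α/2) u` -/
noncomputable def jup (α : ℝ) (u : 𝓢(EuclideanSpace ℝ (Fin n), ℂ)) :
    𝓢(EuclideanSpace ℝ (Fin n), ℂ) := SchwartzMap.fourierMultiplierCLM ℂ (jsym α) u

lemma fourier_jup (α : ℝ) (u : 𝓢(EuclideanSpace ℝ (Fin n), ℂ)) (ξ : EuclideanSpace ℝ (Fin n)) :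
    𝓕 (jup α u) ξ = ((jsym α ξ : ℝ) : ℂ) * 𝓕 u ξ := by
  rw [jup, SchwartzMap.fourierMultiplierCLM_apply, FourierTransform.fourier_fourierInv_eq,
    SchwartzMap.smulLeftCLM_apply_apply (hasTemperateGrowth_jsym α)]
  rfl

lemma fourier_kap_jup {φ : EuclideanSpace ℝ (Fin n) → ℝ} (hφ : IsCutoff φ) (α : ℝ) (j : ℕ)
    (u : 𝓢(EuclideanSpace ℝ (Fin n), ℂ)) (ξ : EuclideanSpace ℝ (Fin n)) :
    𝓕 (cS (kap hφ α 0 j) u) ξ = ((lpSymbol φ j ξ : ℝ) : ℂ) * 𝓕 (jup α u) ξ := by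
  rw [fourier_cS, fourier_jup]
  rcases eq_or_ne j 0 with rfl | hj
  · rw [fourier_kap_zero]; unfold jsym; push_cast; ring
  · rw [fourier_kap hφ _ _ hj]; unfold jsym; push_cast; ring

lemma cS_sum_smul {ι : Type*} (q : 𝓢(EuclideanSpace ℝ (Fin n), ℂ)) (I : Finset ι) (a : ι → ℂ)
    (v : ι → 𝓢(EuclideanSpace ℝ (Fin n), ℂ)) :
    cS q (∑ k ∈ I, a k • v k) = ∑ k ∈ I, a k • cS q (v k) := by
  unfold cS
  rw [map_sum]
  refine Finset.sum_congr rfl fun k _ => ?_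
  rw [map_smul]

/-- pointwise bound for the grand maximal function -/
theorem grandMax_blocks {φ : EuclideanSpace ℝ (Fin n) → ℝ} (hφ : IsCutoff φ) {α : ℝ} (hα : 0 < α)
    (ψ : 𝓢(EuclideanSpace ℝ (Fin n), ℂ)) (D : ℕ)
    (Hs : Finset (EuclideanSpace ℝ (Fin n))) {N : ℕ} (hN : 2 * n + D + 1 ≤ N) (T : ℝ≥0∞) :
    ∃ C : ℝ≥0∞, C ≠ ⊤ ∧ ∀ (ι : Type) (I : Finset ι) (a : ι → ℝ)
      (h x₀ : ι → EuclideanSpace ℝ (Fin n)) (i : ι → ℕ), (∀ k ∈ I, h k ∈ Hs) →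
      ∀ x, grandMax N T (jup α (comb ψ D I a h x₀ i) : 𝓢'(EuclideanSpace ℝ (Fin n), ℂ)) x ≤
        ∑ k ∈ I, C * ENNReal.ofReal (|a k| * (2:ℝ) ^ ((i k : ℝ) * α)) *
          ENNReal.ofReal (((1 + ‖x - x₀ k‖ / ((2:ℝ) ^ (i k))⁻¹) ^ (n + D))⁻¹) := by
  obtain ⟨r, hr⟩ : ∃ r : ℕ, α < 2 * r * 1 := by
    obtain ⟨r, hr⟩ := exists_nat_gt α
    exact ⟨r, by nlinarith⟩
  choose B hB0 hB using fun h => block_est2 hφ α r ψ h D
  obtain ⟨C₁, hC₁, hsum⟩ := sum_gam r (θ := α) (κ := 1) hα one_pos hr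
  set BB : ℝ := ∑ h ∈ Hs, B h with hBB
  have hBB0 : 0 ≤ BB := Finset.sum_nonneg fun h _ => hB0 h
  set M := 2 * n + D + 1 with hM
  refine ⟨ENNReal.ofReal (BB * 2 ^ (M + 1)) * C₁, by finiteness, ?_⟩
  intro ι I a h x₀ i hI x
  unfold grandMax
  refine iSup₂_le fun g hg => ?_
  obtain ⟨y, t, ht, -, hxy, hbump⟩ := hg
  set U := comb ψ D I a h x₀ i with hU
  have hker : Ker n (2 * n + D + 1) D (2 ^ (M + 1)) t (refl y g) :=
    ker_of_bump hN (by omega) ht hbump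
  have h1 : (jup α U : 𝓢'(EuclideanSpace ℝ (Fin n), ℂ)) g = ∫ z, g z * (jup α U) z := by
    rw [SchwartzMap.coe_apply]; rfl
  rw [h1]
  refine (enorm_le_tsum_of_tendsto (lp_conv_pair hφ (jup α U) g
    (fun j => cS (kap hφ α 0 j) U) (fun j ξ => fourier_kap_jup hφ α j U ξ))).trans ?_
  have h2 : ∀ j, ∫ z, g z * (cS (kap hφ α 0 j) U) z = cS (refl y g) (cS (kap hφ α 0 j) U) y := by
    intro j
    rw [cS_apply]
    refine integral_congr_ae (Eventually.of_forall fun z => ?_)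
    simp
  have h3 : ∀ j, ‖∫ z, g z * (cS (kap hφ α 0 j) U) z‖ₑ ≤
      ∑ k ∈ I, ENNReal.ofReal (|a k| * (BB * 2 ^ (M + 1))) *
        ENNReal.ofReal (((1 + ‖x - x₀ k‖ / ((2:ℝ) ^ (i k))⁻¹) ^ (n + D))⁻¹) *
        ENNReal.ofReal ((2:ℝ) ^ ((j:ℝ) * α) * gam r j (((2:ℝ) ^ (i k))⁻¹) ^ (1:ℝ)) := by
    intro j
    rw [h2, hU, cS_comb, cS_sum_smul]
    refine (norm_sum_smul_le _ _ _ _).trans (Finset.sum_le_sum fun k hk => ?_)
    have hs1 : ((2:ℝ) ^ (i k))⁻¹ ≤ 1 := inv_le_one_of_one_le₀ (one_le_pow₀ (by norm_num))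
    have hs0 : (0:ℝ) < ((2:ℝ) ^ (i k))⁻¹ := by positivity
    have h4 := hB (h k) j (((2:ℝ) ^ (i k))⁻¹) hs0 (x₀ k) y (refl y g) (2 ^ (M + 1)) t hs1 ht hker
    set W := (1 + ‖x - x₀ k‖ / ((2:ℝ) ^ (i k))⁻¹) ^ (n + D) with hW
    have hW0 : 0 < W := by positivity
    have hWle : W ≤ (1 + t / ((2:ℝ) ^ (i k))⁻¹ + ‖y - x₀ k‖ / ((2:ℝ) ^ (i k))⁻¹) ^ (n + D) := by
      rw [hW, add_assoc (1:ℝ), ← add_div]
      have e1 : x - x₀ k = (x - y) + (y - x₀ k) := by abel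
      have e2 : ‖x - x₀ k‖ ≤ t + ‖y - x₀ k‖ := by
        rw [e1]
        refine (norm_add_le _ _).trans ?_
        rw [dist_eq_norm] at hxy
        linarith
      gcongr
    have hB2 : B (h k) ≤ BB := Finset.single_le_sum (f := B) (fun h _ => hB0 h) (hI k hk)
    have hgam := gam_nonneg r j (((2:ℝ) ^ (i k))⁻¹)
    have h5 : ‖cS (refl y g) (cS (kap hφ α 0 j)
        (blk ψ (h k) D (x₀ k) (((2:ℝ) ^ (i k))⁻¹) hs0)) y‖ ≤
        BB * (2 ^ (M + 1) * ((2:ℝ) ^ ((j:ℝ) * α) * gam r j (((2:ℝ) ^ (i k))⁻¹))) * W⁻¹ := by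
      rw [← div_eq_mul_inv, le_div_iff₀ hW0, mul_comm]
      refine le_trans (mul_le_mul_of_nonneg_right hWle (norm_nonneg _)) (h4.trans ?_)
      gcongr
    rw [Real.rpow_one, ← ofReal_norm, ← ENNReal.ofReal_mul (abs_nonneg _),
      ← ENNReal.ofReal_mul (by positivity), ← ENNReal.ofReal_mul (by positivity)]
    apply ENNReal.ofReal_le_ofReal
    calc _ ≤ |a k| * (BB * (2 ^ (M + 1) * ((2:ℝ) ^ ((j:ℝ) * α) *
            gam r j (((2:ℝ) ^ (i k))⁻¹))) * W⁻¹) := by gcongr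
      _ = _ := by ring
  refine (ENNReal.tsum_le_tsum h3).trans ?_
  rw [Summable.tsum_finsetSum fun k _ => ENNReal.summable]
  refine Finset.sum_le_sum fun k _ => ?_
  rw [ENNReal.tsum_mul_left]
  calc _ ≤ ENNReal.ofReal (|a k| * (BB * 2 ^ (M + 1))) *
        ENNReal.ofReal (((1 + ‖x - x₀ k‖ / ((2:ℝ) ^ (i k))⁻¹) ^ (n + D))⁻¹) *
        (C₁ * ENNReal.ofReal ((2:ℝ) ^ ((i k:ℝ) * α))) := by
        gcongr
        exact hsum (i k)
    _ = _ := by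
        rw [ENNReal.ofReal_mul (abs_nonneg _), ENNReal.ofReal_mul (abs_nonneg _)]
        ring

/-- Hardy quasi-norm of combinations of blocks -/
theorem hardy_blocks {φ : EuclideanSpace ℝ (Fin n) → ℝ} (hφ : IsCutoff φ) {α p : ℝ} (hα : 0 < α)
    (hp : 0 < p) (hp1 : p ≤ 1) (ψ : 𝓢(EuclideanSpace ℝ (Fin n), ℂ)) (D : ℕ)
    (hD : (n:ℝ) < ((n + D : ℕ) : ℝ) * p) (Hs : Finset (EuclideanSpace ℝ (Fin n)))
    {N : ℕ} (hN : 2 * n + D + 1 ≤ N) (T : ℝ≥0∞) :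
    ∃ C : ℝ≥0∞, C ≠ ⊤ ∧ ∀ (ι : Type) (I : Finset ι) (a : ι → ℝ)
      (h x₀ : ι → EuclideanSpace ℝ (Fin n)) (i : ι → ℕ), (∀ k ∈ I, h k ∈ Hs) →
      ∫⁻ x, grandMax N T (jup α (comb ψ D I a h x₀ i) : 𝓢'(EuclideanSpace ℝ (Fin n), ℂ)) x ^ p ≤
        C * ∑ k ∈ I, ENNReal.ofReal (|a k| ^ p * (2:ℝ) ^ (-((i k : ℝ) * (n - α * p)))) := by
  obtain ⟨C₁, hC₁, h1⟩ := grandMax_blocks hφ hα ψ D Hs hN T
  obtain ⟨C₂, hC₂, hw⟩ := lintegral_weight (n := n) hp hD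
  refine ⟨C₁ ^ p * C₂, by finiteness, fun ι I a h x₀ i hI => ?_⟩
  have hpt : ∀ x, grandMax N T (jup α (comb ψ D I a h x₀ i) :
      𝓢'(EuclideanSpace ℝ (Fin n), ℂ)) x ^ p ≤
      ∑ k ∈ I, (C₁ ^ p * ENNReal.ofReal (|a k| ^ p * (2:ℝ) ^ ((i k : ℝ) * (α * p)))) *
          ENNReal.ofReal (((1 + ‖x - x₀ k‖ / ((2:ℝ) ^ (i k))⁻¹) ^ (n + D))⁻¹) ^ p := by
    intro x
    refine (ENNReal.rpow_le_rpow (h1 ι I a h x₀ i hI x) hp.le).trans ?_
    refine (rpow_sum_le _ _ hp hp1).trans (le_of_eq (Finset.sum_congr rfl fun k _ => ?_))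
    rw [ENNReal.mul_rpow_of_nonneg _ _ hp.le, ENNReal.mul_rpow_of_nonneg _ _ hp.le]
    congr 2
    rw [ENNReal.ofReal_rpow_of_nonneg (by positivity) hp.le,
      Real.mul_rpow (abs_nonneg _) (by positivity), ← Real.rpow_mul (by norm_num)]
    congr 3
    ring
  refine (lintegral_mono hpt).trans ?_
  rw [lintegral_finsetSum']
  · rw [Finset.mul_sum]
    refine Finset.sum_le_sum fun k _ => ?_
    rw [lintegral_const_mul']
    · calc _ ≤ C₁ ^ p * ENNReal.ofReal (|a k| ^ p * (2:ℝ) ^ ((i k : ℝ) * (α * p))) *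
            (C₂ * ENNReal.ofReal ((((2:ℝ) ^ (i k))⁻¹) ^ n)) := by
            gcongr
            exact hw (x₀ k) _ (by positivity)
        _ = _ := by
            have e1 : (2:ℝ) ^ (-((i k : ℝ) * (n - α * p))) =
                (2:ℝ) ^ ((i k:ℝ) * (α * p)) * (((2:ℝ) ^ (i k))⁻¹) ^ n := by
              rw [← Real.rpow_natCast, ← Real.rpow_natCast, ← Real.rpow_neg (by norm_num),
                ← Real.rpow_mul (by norm_num), ← Real.rpow_add (by norm_num)]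
              congr 1; ring
            rw [e1, ← mul_assoc (|a k| ^ p), ENNReal.ofReal_mul (by positivity)
              (q := (((2:ℝ) ^ (i k))⁻¹) ^ n)]
            ring
    · finiteness
  · intro k _
    refine Measurable.aemeasurable ?_
    refine Measurable.const_mul ?_ _
    refine Measurable.pow_const ?_ _
    refine ENNReal.measurable_ofReal.comp ?_
    exact Continuous.measurable (by
      refine Continuous.inv₀ (by fun_prop) fun x => ?_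
      positivity)

/-- the Bessel potential of `(1-Δ)^(α/2) u` is `u` -/
lemma besselPot_jup (α : ℝ) (u : 𝓢(EuclideanSpace ℝ (Fin n), ℂ)) :
    besselPot α (jup α u : 𝓢'(EuclideanSpace ℝ (Fin n), ℂ)) =
      (u : 𝓢'(EuclideanSpace ℝ (Fin n), ℂ)) := by
  have hg : (fun ξ : EuclideanSpace ℝ (Fin n) =>
      (((1 + (2 * Real.pi * ‖ξ‖) ^ 2) ^ (-α / 2) : ℝ) : ℂ)).HasTemperateGrowth := by
    exact Function.HasTemperateGrowth.comp Function.Complex.hasTemperateGrowth_ofReal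
      (hasTemperateGrowth_jsym (n := n) (-α))
  unfold besselPot
  rw [TemperedDistribution.fourierMultiplierCLM_toTemperedDistributionCLM_eq hg]
  congr 1
  apply eq_of_fourier_eq
  intro ξ
  rw [SchwartzMap.fourierMultiplierCLM_apply, FourierTransform.fourier_fourierInv_eq,
    SchwartzMap.smulLeftCLM_apply_apply hg, fourier_jup, smul_eq_mul, ← mul_assoc,
    ← Complex.ofReal_mul]
  have : (1 + (2 * Real.pi * ‖ξ‖) ^ 2) ^ (-α / 2) * jsym α ξ = 1 := by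
    unfold jsym
    rw [← Real.rpow_add (by positivity)]
    have : -α / 2 + α / 2 = 0 := by ring
    rw [this, Real.rpow_zero]
  rw [this]; simp

end Pool.Agent.V8H56.BC
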